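import Mathlib

/-!
# Task ZL/S3a: frame of the symmetrizer on tensors
-/

set_option autoImplicit false

namespace Pool.Agent.N348.ZL

open Matrix

open Equiv in
def permM (K κ : Type*) [Field K] [DecidableEq κ] {k : ℕ} (σ : Perm (Fin k)) :
    Matrix (Fin k → κ) (Fin k → κ) K :=
  fun J I => if J ∘ σ = I then 1 else 0

open Equiv in
def symM (K κ : Type*) [Field K] [DecidableEq κ] (k : ℕ) : Matrix (Fin k → κ) (Fin k → κ) K :=
  ((Nat.factorial k : ℕ) : K)⁻¹ • ∑ σ : Perm (Fin k), permM K κ σ

section

variable {κ : Type*} {k : ℕ}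

/-- the multiset of the values -/
def tp (I : Fin k → κ) : Sym κ k := ⟨Finset.univ.val.map I, by simp⟩

theorem exists_perm {J I : Fin k → κ}
    (h : Finset.univ.val.map J = Finset.univ.val.map I) : ∃ σ : Equiv.Perm (Fin k), J ∘ σ = I := by
  classical
  have hcard : ∀ a, Fintype.card {i // I i = a} = Fintype.card {i // J i = a} := by
    intro a
    have h1 := congrArg (Multiset.count a) h
    rw [Multiset.count_map, Multiset.count_map] at h1
    rw [Fintype.card_subtype, Fintype.card_subtype]
    have e : ∀ f : Fin k → κ, (Finset.univ.filter fun i => f i = a).card =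
        (Multiset.filter (fun i => a = f i) Finset.univ.val).card := by
      intro f
      rw [← Finset.filter_val, Finset.card_val]
      congr 1
      ext i
      simp [eq_comm]
    rw [e, e]
    exact h1.symm
  let e : ∀ a, {i // I i = a} ≃ {i // J i = a} := fun a => Fintype.equivOfCardEq (hcard a)
  let σ : Equiv.Perm (Fin k) := (Equiv.sigmaFiberEquiv I).symm.trans
    ((Equiv.sigmaCongrRight e).trans (Equiv.sigmaFiberEquiv J))
  refine ⟨σ, ?_⟩
  funext i
  have h2 : J (σ i) = I i := (e (I i) ⟨i, rfl⟩).2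
  exact h2

theorem tp_eq_iff (J I : Fin k → κ) : tp J = tp I ↔ ∃ σ : Equiv.Perm (Fin k), J ∘ σ = I := by
  constructor
  · intro h
    exact exists_perm (congrArg Subtype.val h)
  · rintro ⟨σ, rfl⟩
    apply Subtype.ext
    change Finset.univ.val.map J = Finset.univ.val.map (J ∘ σ)
    rw [← Multiset.map_map, Multiset.map_univ_val_equiv]

theorem tp_surj (s : Sym κ k) : ∃ I : Fin k → κ, tp I = s := by
  obtain ⟨s, hs⟩ := s
  obtain ⟨l, rfl⟩ := Quot.exists_rep s
  have hl : l.length = k := hs
  subst hl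
  refine ⟨l.get, ?_⟩
  apply Subtype.ext
  change Finset.univ.val.map l.get = (l : Multiset κ)
  rw [Fin.univ_val_map]
  simp

end

theorem symM_frame (K κ : Type*) [Field K] [CharZero K] [Fintype κ] [DecidableEq κ] (k : ℕ) :
    ∃ (A : Matrix (Fin k → κ) (Fin ((Fintype.card κ).multichoose k)) K)
      (B : Matrix (Fin ((Fintype.card κ).multichoose k)) (Fin k → κ) K),
      A * B = symM K κ k ∧ B * A = 1 := by
  classical
  -- the sizes of the classes
  obtain ⟨c, hc⟩ : ∃ c : Sym κ k → K, c = fun μ =>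
    (((Finset.univ.filter fun I : Fin k → κ => tp I = μ).card : ℕ) : K) := ⟨_, rfl⟩
  have hc0 : ∀ μ, c μ ≠ 0 := by
    intro μ
    obtain ⟨I, hI⟩ := tp_surj μ
    rw [hc]
    simp only [ne_eq, Nat.cast_eq_zero, Finset.card_eq_zero]
    intro h
    have : I ∈ (Finset.univ.filter fun I : Fin k → κ => tp I = μ) := by simp [hI]
    rw [h] at this
    simp at this
  -- numbers of permutations
  have hN : ∀ J I : Fin k → κ, tp J = tp I →
      (Finset.univ.filter fun σ : Equiv.Perm (Fin k) => J ∘ σ = I).card =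
      (Finset.univ.filter fun σ : Equiv.Perm (Fin k) => J ∘ σ = J).card := by
    intro J I h
    obtain ⟨σ₀, h0⟩ := (tp_eq_iff J I).1 h
    refine Finset.card_bij' (fun σ _ => σ * σ₀⁻¹) (fun σ _ => σ * σ₀) ?_ ?_ ?_ ?_
    · intro σ hσ
      rw [Finset.mem_filter] at hσ ⊢
      refine ⟨Finset.mem_univ _, ?_⟩
      rw [Equiv.Perm.coe_mul, ← Function.comp_assoc, hσ.2, ← h0, Function.comp_assoc,
        ← Equiv.Perm.coe_mul, mul_inv_cancel]
      rfl
    · intro σ hσ
      rw [Finset.mem_filter] at hσ ⊢
      refine ⟨Finset.mem_univ _, ?_⟩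
      rw [Equiv.Perm.coe_mul, ← Function.comp_assoc, hσ.2, h0]
    · intro σ _
      simp
    · intro σ _
      simp
  have hN0 : ∀ J I : Fin k → κ, tp J ≠ tp I →
      (Finset.univ.filter fun σ : Equiv.Perm (Fin k) => J ∘ σ = I).card = 0 := by
    intro J I h
    rw [Finset.card_eq_zero, Finset.filter_eq_empty_iff]
    intro σ _ hσ
    exact h ((tp_eq_iff J I).2 ⟨σ, hσ⟩)
  have htot : ∀ J : Fin k → κ, (Nat.factorial k : K) =
      c (tp J) * ((Finset.univ.filter fun σ : Equiv.Perm (Fin k) => J ∘ σ = J).card : K) := by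
    intro J
    have h1 : (Finset.univ : Finset (Equiv.Perm (Fin k))).card =
        ∑ I : Fin k → κ, (Finset.univ.filter fun σ : Equiv.Perm (Fin k) => J ∘ σ = I).card :=
      Finset.card_eq_sum_card_fiberwise (fun σ _ => Finset.mem_coe.2 (Finset.mem_univ _))
    have h2 : ∀ I : Fin k → κ, (Finset.univ.filter fun σ : Equiv.Perm (Fin k) => J ∘ σ = I).card =
        if tp I = tp J then (Finset.univ.filter fun σ : Equiv.Perm (Fin k) => J ∘ σ = J).card
          else 0 := by
      intro I
      split_ifs with h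
      · exact hN J I h.symm
      · exact hN0 J I (Ne.symm h)
    rw [Finset.sum_congr rfl (fun I _ => h2 I)] at h1
    rw [← Finset.sum_filter, Finset.sum_const, Finset.card_univ, Fintype.card_perm,
      Fintype.card_fin, smul_eq_mul] at h1
    rw [h1, hc]
    push_cast
    rfl
  have hsym : ∀ J I : Fin k → κ, symM K κ k J I = if tp J = tp I then (c (tp J))⁻¹ else 0 := by
    intro J I
    have h1 : symM K κ k J I = ((Nat.factorial k : ℕ) : K)⁻¹ *
        ((Finset.univ.filter fun σ : Equiv.Perm (Fin k) => J ∘ σ = I).card : K) := by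
      unfold symM permM
      rw [Matrix.smul_apply, Matrix.sum_apply, smul_eq_mul, Finset.sum_boole]
    rw [h1]
    have hf : ((Nat.factorial k : ℕ) : K) ≠ 0 := by exact_mod_cast Nat.factorial_ne_zero k
    split_ifs with h
    · rw [hN J I h]
      have h3 := htot J
      have h4 := hc0 (tp J)
      rw [inv_mul_eq_iff_eq_mul₀ hf, h3]
      field_simp
    · rw [hN0 J I h]
      simp
  -- the matrices
  let A₀ : Matrix (Fin k → κ) (Sym κ k) K := fun J μ => if tp J = μ then (c μ)⁻¹ else 0
  let B₀ : Matrix (Sym κ k) (Fin k → κ) K := fun μ I => if tp I = μ then 1 else 0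
  have hAB : A₀ * B₀ = symM K κ k := by
    ext J I
    rw [hsym, Matrix.mul_apply]
    simp only [A₀, B₀]
    rw [Finset.sum_eq_single (tp J)]
    · by_cases h : tp J = tp I
      · rw [if_pos rfl, if_pos h.symm, if_pos h, mul_one]
      · rw [if_pos rfl, if_neg (Ne.symm h), if_neg h, mul_zero]
    · intro μ _ hμ
      rw [if_neg (Ne.symm hμ), zero_mul]
    · intro h
      exact absurd (Finset.mem_univ _) h
  have hBA : B₀ * A₀ = 1 := by
    ext μ ν
    rw [Matrix.mul_apply, Matrix.one_apply]
    simp only [A₀, B₀]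
    have h1 : ∀ I : Fin k → κ, (if tp I = μ then (1 : K) else 0) *
        (if tp I = ν then (c ν)⁻¹ else 0) =
        if tp I = μ then (if μ = ν then (c ν)⁻¹ else 0) else 0 := by
      intro I
      by_cases h : tp I = μ
      · simp [h]
      · simp [h]
    simp_rw [h1]
    rw [← Finset.sum_filter, Finset.sum_const, nsmul_eq_mul]
    split_ifs with h
    · have h2 : ((Finset.univ.filter fun I : Fin k → κ => tp I = μ).card : K) = c μ := by rw [hc]
      rw [h2, h]
      exact mul_inv_cancel₀ (hc0 ν)
    · rw [mul_zero]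
  have hcard : Fintype.card (Sym κ k) = (Fintype.card κ).multichoose k :=
    Sym.card_sym_eq_multichoose κ k
  let e : Sym κ k ≃ Fin ((Fintype.card κ).multichoose k) := Fintype.equivFinOfCardEq hcard
  refine ⟨A₀.submatrix id e.symm, B₀.submatrix e.symm id, ?_, ?_⟩
  · rw [Matrix.submatrix_mul_equiv, hAB, Matrix.submatrix_id_id]
  · rw [← Matrix.submatrix_mul _ _ _ _ _ Function.bijective_id, hBA, Matrix.submatrix_one_equiv]

end Pool.Agent.N348.ZL
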