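import Pool.Agent.N348.EW.C

/-!
Project EW, part DZR: weights `(Q, χ)` with `Q ∩ G = 1` and characters of defect zero of `G`.
-/

set_option autoImplicit false
set_option linter.unusedSectionVars false
set_option linter.unusedVariables false

open scoped Classical BigOperators

noncomputable section

namespace Pool.Agent.N348.EWDZR

open Pool.Agent.Y63.NV
open Pool.Agent.Y63.KR
open Pool.Agent.Y63.AWC (IsIrreducibleCharacter)
open Pool.Agent.N20.EW
open Pool.Agent.N20.DI (S_CLIFF S_LIN fs_sub)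
open Pool.Agent.N20.KB (irr_comp')

section

variable {G K : Type} [Group G] [Group K] [Finite G] [Finite K] {i : G →* K} {p : ℕ}
  [Fact p.Prime] {F : Type} [Field F] [IsAlgClosed F] [CharP F p]
  {red : integralClosure ℤ ℂ →+* F} {z : K → F}

/-- the pair `(Q, ψ)` is good: there is a related character of the centraliser -/
def Good (red : integralClosure ℤ ℂ →+* F) (i : G →* K) (p : ℕ) (Q : Subgroup K) (ψ : G → ℂ) :
    Prop :=
  (∀ q ∈ Q, ∀ x y : G, i y = q * i x * q⁻¹ → ψ y = ψ x) ∧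
    ∃ θ : CQ i Q → ℂ, IsWt p (⊥ : Subgroup (CQ i Q)) θ ∧ Rel red i Q ψ θ

/-- the condition on `Q` -/
def PQ (i : G →* K) (p k : ℕ) (Q : Subgroup K) : Prop :=
  IsPGroup p Q ∧ Q ⊓ i.range = ⊥ ∧ Nat.card Q = p ^ k

/-- the class function `z` is invariant -/
theorem cyc_zero (hE : CycExt i z) : CycExt i (0 : K → F) where
  inj := hE.inj
  normal := hE.normal
  cyc := hE.cyc
  cl := fun _ _ => rfl
  supp := fun _ _ => rfl

/-- existence of a good pair -/
theorem good_exists (h1 : S_D1) (hE : CycExt i z) {ψ : G → ℂ}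
    (hψ : IsWt p (⊥ : Subgroup G) ψ) {k : ℕ} (hk : (tt i ψ).factorization p = k) :
    ∃ Q : Subgroup K, PQ i p k Q ∧ Good red i p Q ψ := by
  have hn := hE.normal
  have hi := hE.inj
  have hcy := cyc_quot hE
  have hclψ := irr_cl hψ.irr
  set H := stK i hi hn ψ with hH
  let π := QuotientGroup.mk' i.range
  have hπ : Function.Surjective π := QuotientGroup.mk'_surjective i.range
  set T : Subgroup (K ⧸ i.range) := H.map π with hT
  have hTc : Nat.card T = tt i ψ := by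
    rw [hT, ← Subgroup.relIndex_ker, QuotientGroup.ker_mk', (stc_eq hi hn hclψ).2]
  have hdvd : p ^ k ∣ Nat.card T := by
    rw [hTc, ← hk]
    exact Nat.ordProj_dvd _ _
  obtain ⟨P, hP⟩ := Sylow.exists_subgroup_card_pow_prime p hdvd
  set P₀ : Subgroup (K ⧸ i.range) := P.map T.subtype with hP₀
  have hP₀c : Nat.card P₀ = p ^ k := by
    rw [← hP]
    exact (Nat.card_congr (P.equivMapOfInjective _ T.subtype_injective).toEquiv).symm
  have hP₀T : P₀ ≤ T := by
    rintro _ ⟨y, hy, rfl⟩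
    exact y.2
  set S := P₀.comap π with hS
  have hrS : i.range ≤ S := by
    intro x hx
    rw [hS, Subgroup.mem_comap]
    have : π x = 1 := (QuotientGroup.eq_one_iff x).2 hx
    rw [this]
    exact P₀.one_mem
  have hSH : S ≤ H := by
    intro s hs
    obtain ⟨h, hh, hhs⟩ := hP₀T hs
    have h2 : h⁻¹ * s ∈ i.range := by
      rw [← QuotientGroup.eq_one_iff]
      show π (h⁻¹ * s) = 1
      rw [map_mul, map_inv, hhs, inv_mul_cancel]
    have h3 : s = h * (h⁻¹ * s) := by group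
    rw [h3]
    exact H.mul_mem hh (range_le_stK hclψ h2)
  have hSp : ∀ s ∈ S, ∃ n : ℕ, s ^ p ^ n ∈ i.range := by
    intro s hs
    refine ⟨k, ?_⟩
    rw [← QuotientGroup.eq_one_iff]
    show π (s ^ p ^ k) = 1
    rw [map_pow, ← hP₀c]
    exact congrArg Subtype.val (pow_card_eq_one' (x := (⟨π s, hs⟩ : P₀)))
  obtain ⟨Q, hQp, hQ, hQS, θ, hθ, hR⟩ := h1 p F red G K i (cyc_zero hE) ψ hψ S hrS hSp
    (fun s hs => hSH hs)
  refine ⟨Q, ⟨hQp, hQ, ?_⟩, fun q hq => hSH ?_, θ, hθ, hR⟩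
  · have h2 : Nat.card (S.map π) = Nat.card Q := by
      rw [← Subgroup.relIndex_ker, QuotientGroup.ker_mk', ← hQS]
      exact Pool.Agent.R674.Ce.relIndex_card (by rw [inf_comm]; exact hQ)
    rw [← h2, hS, Subgroup.map_comap_eq_self_of_surjective hπ, hP₀c]
  · rw [← hQS]
    exact (le_sup_right : Q ≤ i.range ⊔ Q) hq

/-- conjugates of good pairs are good -/
theorem good_conj (hi : Function.Injective i) (hn : i.range.Normal) {k : ℕ} {Q : Subgroup K}
    {ψ : G → ℂ} (hψ : IsWt p (⊥ : Subgroup G) ψ) (hQ : PQ i p k Q) (hg : Good red i p Q ψ)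
    (g : G) : PQ i p k (conjSub (i g) Q) ∧ Good red i p (conjSub (i g) Q) ψ := by
  obtain ⟨hinv, θ, hθ, hR⟩ := hg
  have e1 := rel_conj i hi hn red (rfl : conjSub (i g) Q = conjSub (i g) Q) hψ.irr hθ.irr hR
  have e2 : (fun x => ψ ((ak i hi hn (i g)).symm x)) = ψ := by
    funext x
    exact ak_conj i hi hn (irr_cl hψ.irr) g x
  have e3 := conj_inv hi hn (k := i g) (Q := Q) (ψ := ψ) hinv
  rw [e2] at e1 e3
  refine ⟨⟨conj_pg hQ.1, conj_disj hn hQ.2.1, by rw [conj_card]; exact hQ.2.2⟩, ?_, ?_⟩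
  · exact fun q hq => e3 hq
  · exact ⟨_, wt_comp (ck i hi hn (rfl : conjSub (i g) Q = conjSub (i g) Q)).symm hθ, e1⟩

/-- **the good pairs with a given `ψ` form one orbit** -/
theorem orbit_sum (h1 : S_D1) (h3 : S_D3) (red : integralClosure ℤ ℂ →+* F) (hE : CycExt i z)
    {ψ : G → ℂ} (hψ : IsWt p (⊥ : Subgroup G) ψ) {k : ℕ} (hk : (tt i ψ).factorization p = k) :
    (∑ᶠ Q : Subgroup K, if PQ i p k Q ∧ Good red i p Q ψ then Nat.card (CQ i Q) else 0) =
      Nat.card G := by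
  have hn := hE.normal
  have hi := hE.inj
  obtain ⟨Q₀, hQ₀, hg₀⟩ := good_exists (red := red) h1 hE hψ hk
  obtain ⟨hinv, θ₀, hθ₀, hR₀⟩ := id hg₀
  have hterm : ∀ Q : Subgroup K,
      (if PQ i p k Q ∧ Good red i p Q ψ then Nat.card (CQ i Q) else 0) =
        Nat.card {g : G // conjSub (i g) Q₀ = Q} := by
    intro Q
    by_cases h : PQ i p k Q ∧ Good red i p Q ψ
    · rw [if_pos h]
      obtain ⟨hPQ, hinvQ, θ, hθ, hR⟩ := h
      obtain ⟨g, hg⟩ := (h3 p F red G K i hi hn Q₀ hQ₀.1 hQ₀.2.1 ψ θ₀ hψ hinv hθ₀ hR₀).2.2 Q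
        hPQ.1 hPQ.2.1 (sup_unique hE hPQ.2.1 hQ₀.2.1 (by rw [hPQ.2.2, hQ₀.2.2])) θ hθ hR
      refine Nat.card_congr
        { toFun := fun h => ⟨h.1 * g, ?_⟩
          invFun := fun g' => ⟨g'.1 * g⁻¹, ?_⟩
          left_inv := fun h => Subtype.ext (mul_inv_cancel_right _ _)
          right_inv := fun g' => Subtype.ext (inv_mul_cancel_right _ _) }
      · rw [map_mul, conjSub_mul, ← hg]
        exact (mem_nor.1 (Subgroup.centralizer_le_normalizer _ h.2)).symm
      · refine nor_cen hn hPQ.2.1 (mem_nor.2 ?_)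
        rw [map_mul, conjSub_mul]
        have h5 : conjSub (i g⁻¹) Q = Q₀ := by
          rw [hg, ← conjSub_mul, ← map_mul, inv_mul_cancel, map_one, conjSub_one]
        rw [h5]
        exact g'.2.symm
    · rw [if_neg h]
      have hem : IsEmpty {g : G // conjSub (i g) Q₀ = Q} := by
        refine ⟨fun g => h ?_⟩
        rw [← g.2]
        exact good_conj hi hn hψ hQ₀ hg₀ g.1
      rw [Nat.card_of_isEmpty]
  rw [finsum_congr hterm]
  have _i : Fintype (Subgroup K) := Fintype.ofFinite _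
  rw [finsum_eq_sum_of_fintype, ← Nat.card_sigma]
  exact Nat.card_congr (Equiv.sigmaFiberEquiv (fun g : G => conjSub (i g) Q₀))

/-- one subgroup `Q` -/
theorem one_Q (h2 : S_D2) (h3 : S_D3) (h4 : S_CLIFF) (h5 : S_INF) (h6 : S_LIN)
    (red : integralClosure ℤ ℂ →+* F) (hE : CycExt i z) (c : F) (k : ℕ) (Q : Subgroup K)
    (hPQ : PQ i p k Q) :
    Nat.card (Subgroup.normalizer (Q : Set K)) *
        Nw p red (Q.subgroupOf (Subgroup.normalizer (Q : Set K))) (fun x => z x) c =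
      ∑ᶠ ψ : {ψ : G → ℂ // IsWt p (⊥ : Subgroup G) ψ ∧ centralValue red ψ (fun x => z (i x)) = c},
        if Good red i p Q ψ.1 then
          (if (tt i ψ.1).factorization p = k then Nat.card (CQ i Q) * pc p (tt i ψ.1) else 0)
        else 0 := by
  have hn := hE.normal
  have hi := hE.inj
  have hcom := com_mem hE
  have hEj := cyc_jQ hE hPQ.2.1
  have hQn : (Q.subgroupOf (Subgroup.normalizer (Q : Set K))).Normal := by
    constructor
    intro n hn g
    rw [Subgroup.mem_subgroupOf] at hn ⊢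
    exact (Subgroup.mem_normalizer_iff.1 g.2 n).1 hn
  have hQc : Nat.card (Q.subgroupOf (Subgroup.normalizer (Q : Set K))) = p ^ k := by
    rw [← hPQ.2.2]
    exact Nat.card_congr (Subgroup.subgroupOfEquivOfLe Subgroup.le_normalizer).toEquiv
  have hQi : Q.subgroupOf (Subgroup.normalizer (Q : Set K)) ⊓ (jQ i Q).range = ⊥ := by
    rw [eq_bot_iff]
    intro x hx
    obtain ⟨a, b⟩ := Subgroup.mem_inf.1 hx
    have h7 : (x : K) ∈ Q ⊓ i.range := Subgroup.mem_inf.2 ⟨a, (mem_jQ hn hPQ.2.1 x).1 b⟩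
    rw [hPQ.2.1, Subgroup.mem_bot] at h7
    exact Subgroup.mem_bot.2 (Subtype.ext h7)
  rw [partA h4 h5 h6 red (jQ i Q) (fun x => z x) hEj c k _ hQn hQc hQi]
  have hclz : IsClassFun (fun x : G => z (i x)) := by
    intro g x
    show z (i (g * x * g⁻¹)) = z (i x)
    rw [map_mul, map_mul, map_inv]
    exact hE.cl _ _
  have hcv : ∀ (ψ : G → ℂ) (θ : CQ i Q → ℂ), Rel red i Q ψ θ →
      centralValue red ψ (fun x => z (i x)) = centralValue red θ (fun x => z (i x)) := by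
    intro ψ θ hR
    refine hR (fun x => z (i x)) hclz ?_
    intro q hq x y hxy
    show z (i y) = z (i x)
    rw [hxy]
    exact hE.cl _ _
  have hD2 := fun (θ : CQ i Q → ℂ) (hθ : IsWt p (⊥ : Subgroup (CQ i Q)) θ) =>
    h2 p F red G K i hi hn Q hPQ.1 hPQ.2.1 θ hθ
  have hfs := fs_sub (P := fun ψ : G → ℂ => IsWt p (⊥ : Subgroup G) ψ ∧
      centralValue red ψ (fun x => z (i x)) = c) (P' := fun ψ : G → ℂ =>
      (IsWt p (⊥ : Subgroup G) ψ ∧ centralValue red ψ (fun x => z (i x)) = c) ∧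
        Good red i p Q ψ) (fun ψ h => h.1)
      (fun ψ => if (tt i ψ).factorization p = k then Nat.card (CQ i Q) * pc p (tt i ψ) else 0)
  have hgoal : (∑ᶠ ψ : {ψ : G → ℂ // IsWt p (⊥ : Subgroup G) ψ ∧
      centralValue red ψ (fun x => z (i x)) = c},
        if Good red i p Q ψ.1 then
          (if (tt i ψ.1).factorization p = k then Nat.card (CQ i Q) * pc p (tt i ψ.1) else 0)
        else 0) = ∑ᶠ ψ : {ψ : G → ℂ // (IsWt p (⊥ : Subgroup G) ψ ∧
          centralValue red ψ (fun x => z (i x)) = c) ∧ Good red i p Q ψ},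
        (if (tt i ψ.1).factorization p = k then Nat.card (CQ i Q) * pc p (tt i ψ.1) else 0) := by
    rw [hfs]
    refine finsum_congr fun ψ => ?_
    by_cases h : Good red i p Q ψ.1
    · have h' : (IsWt p (⊥ : Subgroup G) ψ.1 ∧ centralValue red ψ.1 (fun x => z (i x)) = c) ∧
          Good red i p Q ψ.1 := ⟨ψ.2, h⟩
      rw [if_pos h, if_pos h']
    · have h' : ¬ ((IsWt p (⊥ : Subgroup G) ψ.1 ∧
          centralValue red ψ.1 (fun x => z (i x)) = c) ∧ Good red i p Q ψ.1) := fun h' => h h'.2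
      rw [if_neg h, if_neg h']
  rw [hgoal]
  refine finsum_eq_of_bijective (fun θ : {θ : CQ i Q → ℂ // IsWt p (⊥ : Subgroup (CQ i Q)) θ ∧
        centralValue red θ (fun x => z (jQ i Q x)) = c} =>
      (⟨(hD2 θ.1 θ.2.1).choose, ⟨(hD2 θ.1 θ.2.1).choose_spec.1, ?_⟩,
        (hD2 θ.1 θ.2.1).choose_spec.2.2, θ.1, θ.2.1, (hD2 θ.1 θ.2.1).choose_spec.2.1⟩ :
        {ψ : G → ℂ // (IsWt p (⊥ : Subgroup G) ψ ∧
          centralValue red ψ (fun x => z (i x)) = c) ∧ Good red i p Q ψ})) ⟨?_, ?_⟩ ?_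
  · rw [hcv _ _ (hD2 θ.1 θ.2.1).choose_spec.2.1]
    exact θ.2.2
  · intro θ θ' h
    have h7 : (hD2 θ.1 θ.2.1).choose = (hD2 θ'.1 θ'.2.1).choose := congrArg Subtype.val h
    obtain ⟨b1, b2, b3⟩ := (hD2 θ.1 θ.2.1).choose_spec
    obtain ⟨c1, c2, c3⟩ := (hD2 θ'.1 θ'.2.1).choose_spec
    rw [← h7] at c2
    apply Subtype.ext
    exact ((h3 p F red G K i hi hn Q hPQ.1 hPQ.2.1 _ θ.1 b1 b3 θ.2.1 b2).2.1 θ'.1 θ'.2.1 c2).symm
  · rintro ⟨ψ, ⟨a1, a2⟩, a3, θ, a4, a5⟩
    refine ⟨⟨θ, a4, ?_⟩, ?_⟩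
    · have h8 := hcv ψ θ a5
      rw [a2] at h8
      exact h8.symm
    · apply Subtype.ext
      obtain ⟨b1, b2, b3⟩ := (hD2 θ a4).choose_spec
      exact (h3 p F red G K i hi hn Q hPQ.1 hPQ.2.1 ψ θ a1 a3 a4 a5).1 _ b1 b3 b2
  · intro θ
    obtain ⟨b1, b2, b3⟩ := (hD2 θ.1 θ.2.1).choose_spec
    have h9 : tt (jQ i Q) θ.1 = tt i (hD2 θ.1 θ.2.1).choose :=
      tt_eq h3 hi hn hcom hPQ.1 hPQ.2.1 b1 b3 θ.2.1 b2
    show (if (tt (jQ i Q) θ.1).factorization p = k then
      Nat.card (CQ i Q) * pc p (tt (jQ i Q) θ.1) else 0) =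
      (if (tt i (hD2 θ.1 θ.2.1).choose).factorization p = k then
      Nat.card (CQ i Q) * pc p (tt i (hD2 θ.1 θ.2.1).choose) else 0)
    rw [h9]

end

/-- **DZR** -/
theorem DZR (h1 : S_D1) (h2 : S_D2) (h3 : S_D3) (h4 : S_CLIFF) (h5 : S_INF) (h6 : S_LIN) :
    S_DZR := by
  intro p _ F _ _ _ red G K _ _ _ _ i z hE c k
  have hfin : Finite {ψ : G → ℂ // IsWt p (⊥ : Subgroup G) ψ ∧
      centralValue red ψ (fun x => z (i x)) = c} := irr_cv_fin _ fun θ h => h.1.irr
  have _i := Fintype.ofFinite {ψ : G → ℂ // IsWt p (⊥ : Subgroup G) ψ ∧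
      centralValue red ψ (fun x => z (i x)) = c}
  have _i2 : Fintype (Subgroup K) := Fintype.ofFinite _
  have hterm : ∀ Q : Subgroup K,
      (if IsPGroup p Q ∧ Q ⊓ i.range = ⊥ ∧ Nat.card Q = p ^ k then
        Nat.card (Subgroup.normalizer (Q : Set K)) *
          Nw p red (Q.subgroupOf (Subgroup.normalizer (Q : Set K))) (fun x => z x) c else 0) =
      ∑ ψ : {ψ : G → ℂ // IsWt p (⊥ : Subgroup G) ψ ∧
        centralValue red ψ (fun x => z (i x)) = c},
        (if (tt i ψ.1).factorization p = k then pc p (tt i ψ.1) else 0) *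
          (if PQ i p k Q ∧ Good red i p Q ψ.1 then Nat.card (CQ i Q) else 0) := by
    intro Q
    by_cases h : IsPGroup p Q ∧ Q ⊓ i.range = ⊥ ∧ Nat.card Q = p ^ k
    · rw [if_pos h, one_Q h2 h3 h4 h5 h6 red hE c k Q h, finsum_eq_sum_of_fintype]
      refine Finset.sum_congr rfl fun ψ _ => ?_
      by_cases h7 : Good red i p Q ψ.1
      · have h' : PQ i p k Q ∧ Good red i p Q ψ.1 := ⟨h, h7⟩
        rw [if_pos h7, if_pos h']
        by_cases h8 : (tt i ψ.1).factorization p = k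
        · rw [if_pos h8, if_pos h8, mul_comm]
        · rw [if_neg h8, if_neg h8, zero_mul]
      · have h' : ¬ (PQ i p k Q ∧ Good red i p Q ψ.1) := fun h' => h7 h'.2
        rw [if_neg h7, if_neg h', mul_zero]
    · rw [if_neg h]
      symm
      refine Finset.sum_eq_zero fun ψ _ => ?_
      have h' : ¬ (PQ i p k Q ∧ Good red i p Q ψ.1) := fun h' => h h'.1
      rw [if_neg h', mul_zero]
  rw [finsum_congr hterm, finsum_eq_sum_of_fintype, Finset.sum_comm, finsum_eq_sum_of_fintype]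
  refine Finset.sum_congr rfl fun ψ _ => ?_
  rw [← Finset.mul_sum]
  by_cases h : (tt i ψ.1).factorization p = k
  · rw [if_pos h, if_pos h, ← finsum_eq_sum_of_fintype,
      orbit_sum h1 h3 red hE ψ.2.1 h, mul_comm]
  · rw [if_neg h, if_neg h, zero_mul]

end Pool.Agent.N348.EWDZR
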