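import Mathlib

set_option autoImplicit false
set_option linter.unusedSectionVars false

/-!
# NC/E, generalities: orthonormal coordinates, fixed points in closed convex hulls, conjugation by
exponentials
-/

open Module Matrix

noncomputable section

namespace Pool.Agent.N348.NCEg

theorem exists_onb {W : Type*} [AddCommGroup W] [Module ℝ W] [FiniteDimensional ℝ W]
    (B : W →ₗ[ℝ] W →ₗ[ℝ] ℝ) (hs : ∀ u v, B u v = B v u) (hp : ∀ u, u ≠ 0 → 0 < B u u) :
    ∃ v : Basis (Fin (finrank ℝ W)) ℝ W, ∀ i j, B (v i) (v j) = if i = j then 1 else 0 := by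
  have hsym : LinearMap.IsSymm B := ⟨fun u v => by rw [RingHom.id_apply]; exact hs u v⟩
  obtain ⟨v₀, hv₀⟩ := LinearMap.BilinForm.exists_orthogonal_basis hsym
  have hpos : ∀ i, 0 < B (v₀ i) (v₀ i) := fun i => hp _ (v₀.ne_zero i)
  let s : Fin (finrank ℝ W) → ℝˣ := fun i =>
    Units.mk0 (Real.sqrt (B (v₀ i) (v₀ i)))⁻¹ (inv_ne_zero (Real.sqrt_pos.2 (hpos i)).ne')
  obtain ⟨v, hv⟩ : ∃ v : Basis (Fin (finrank ℝ W)) ℝ W,
      ∀ i, v i = (Real.sqrt (B (v₀ i) (v₀ i)))⁻¹ • v₀ i :=
    ⟨v₀.unitsSMul s, fun i => Basis.unitsSMul_apply i⟩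
  refine ⟨v, fun i j => ?_⟩
  rw [hv, hv, map_smul, map_smul, LinearMap.smul_apply]
  by_cases hij : i = j
  · subst hij
    rw [if_pos rfl, smul_eq_mul, smul_eq_mul]
    have h1 := Real.mul_self_sqrt (hpos i).le
    have h2 := (Real.sqrt_pos.2 (hpos i)).ne'
    field_simp
    rw [Real.sq_sqrt (hpos i).le]
  · rw [if_neg hij]
    have h1 : B (v₀ i) (v₀ j) = 0 := hv₀ hij
    rw [h1, smul_zero, smul_zero]

theorem exists_euc {W : Type*} [AddCommGroup W] [Module ℝ W] [FiniteDimensional ℝ W]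
    (B : W →ₗ[ℝ] W →ₗ[ℝ] ℝ) (hs : ∀ u v, B u v = B v u) (hp : ∀ u, u ≠ 0 → 0 < B u u) :
    ∃ e : EuclideanSpace ℝ (Fin (finrank ℝ W)) ≃ₗ[ℝ] W, ∀ u v, B (e u) (e v) = inner ℝ u v := by
  obtain ⟨b, hb⟩ := exists_onb B hs hp
  refine ⟨(WithLp.linearEquiv 2 ℝ (Fin (finrank ℝ W) → ℝ)).trans b.equivFun.symm, fun u v => ?_⟩
  have h1 : ∀ u : EuclideanSpace ℝ (Fin (finrank ℝ W)),
      ((WithLp.linearEquiv 2 ℝ (Fin (finrank ℝ W) → ℝ)).trans b.equivFun.symm) u =
        ∑ i, u i • b i := fun u => by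
    rw [LinearEquiv.trans_apply, Basis.equivFun_symm_apply]
    rfl
  rw [h1, h1, PiLp.inner_apply, map_sum]
  refine Finset.sum_congr rfl fun i _ => ?_
  rw [map_smul, map_sum, LinearMap.sum_apply, Finset.sum_eq_single i]
  · rw [map_smul, LinearMap.smul_apply, hb, if_pos rfl, smul_eq_mul, smul_eq_mul, mul_one]
    simp [mul_comm]
  · intro j _ hj
    rw [map_smul, LinearMap.smul_apply, hb, if_neg hj, smul_zero]
  · intro h
    exact absurd (Finset.mem_univ _) h

/-- A skew operator for a positive definite form has nonpositive trace of the square. -/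
theorem tr_sq_nonpos {W : Type*} [AddCommGroup W] [Module ℝ W] [FiniteDimensional ℝ W]
    (B : W →ₗ[ℝ] W →ₗ[ℝ] ℝ) (hs : ∀ u v, B u v = B v u) (hp : ∀ u, u ≠ 0 → 0 < B u u)
    (Y : Module.End ℝ W) (hY : ∀ u v, B (Y u) v = -B u (Y v)) :
    LinearMap.trace ℝ W (Y * Y) ≤ 0 := by
  obtain ⟨b, hb⟩ := exists_onb B hs hp
  have hrepr : ∀ x i, b.repr x i = B x (b i) := by
    intro x i
    conv_rhs => rw [← b.sum_repr x]
    rw [map_sum, LinearMap.sum_apply, Finset.sum_eq_single i]
    · rw [map_smul, LinearMap.smul_apply, smul_eq_mul, hb, if_pos rfl, mul_one]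
    · intro j _ hj
      rw [map_smul, LinearMap.smul_apply, hb, if_neg hj, smul_zero]
    · intro h
      exact absurd (Finset.mem_univ _) h
  have h1 : LinearMap.trace ℝ W (Y * Y) = ∑ i, -B (Y (b i)) (Y (b i)) := by
    rw [LinearMap.trace_eq_matrix_trace ℝ b, Matrix.trace]
    refine Finset.sum_congr rfl fun i _ => ?_
    rw [Matrix.diag_apply, LinearMap.toMatrix_apply, hrepr, Module.End.mul_apply, hY]
  rw [h1]
  refine Finset.sum_nonpos fun i _ => ?_
  by_cases hi : Y (b i) = 0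
  · rw [hi, map_zero, neg_zero]
  · have := hp _ hi
    linarith

/-- The point of smallest norm in the closed convex hull is fixed. -/
theorem exists_fixed {E : Type*} [NormedAddCommGroup E] [InnerProductSpace ℝ E] [CompleteSpace E]
    {O : Set E} (hne : O.Nonempty) :
    ∃ z ∈ closedConvexHull ℝ O, ∀ f : E →L[ℝ] E, (∀ x, ‖f x‖ = ‖x‖) → (∀ x ∈ O, f x ∈ O) →
      f z = z := by
  obtain ⟨z, hz, hmin⟩ := exists_norm_eq_iInf_of_complete_convex
    (hne.mono (subset_closedConvexHull (𝕜 := ℝ) (s := O)))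
    (isClosed_closedConvexHull (𝕜 := ℝ) (s := O)).isComplete
    (convex_closedConvexHull (𝕜 := ℝ) (s := O)) (0 : E)
  refine ⟨z, hz, fun f hf hO => ?_⟩
  have h1 := (norm_eq_iInf_iff_real_inner_le_zero
    (convex_closedConvexHull (𝕜 := ℝ) (s := O)) hz).1 hmin
  have h2 : f z ∈ closedConvexHull ℝ O := by
    have h3 : closedConvexHull ℝ O ⊆ f ⁻¹' (closedConvexHull ℝ O) :=
      closedConvexHull_min (fun x hx => subset_closedConvexHull (hO x hx))
        (convex_closedConvexHull.linear_preimage f.toLinearMap)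
        (isClosed_closedConvexHull.preimage f.continuous)
    exact h3 hz
  have h3 := h1 _ h2
  rw [zero_sub, inner_neg_left, inner_sub_right, real_inner_self_eq_norm_sq] at h3
  have h4 := norm_sub_sq_real (f z) z
  rw [hf, real_inner_comm] at h4
  have h5 : ‖f z - z‖ ^ 2 ≤ 0 := by linarith
  have h6 : ‖f z - z‖ = 0 := by
    have := sq_nonneg ‖f z - z‖
    exact pow_eq_zero_iff (two_ne_zero) |>.1 (le_antisymm h5 this)
  exact sub_eq_zero.1 (norm_eq_zero.1 h6)

section exp

variable {𝔸 : Type*} [NormedRing 𝔸] [NormedAlgebra ℝ 𝔸] [CompleteSpace 𝔸]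

theorem exp_add' {x y : 𝔸} (h : Commute x y) :
    NormedSpace.exp (x + y) = NormedSpace.exp x * NormedSpace.exp y :=
  NormedSpace.exp_add_of_commute_of_mem_ball (𝕂 := ℝ) h
    ((NormedSpace.expSeries_radius_eq_top ℝ 𝔸).symm ▸ edist_lt_top _ _)
    ((NormedSpace.expSeries_radius_eq_top ℝ 𝔸).symm ▸ edist_lt_top _ _)

theorem exp_mul_neg (x : 𝔸) : NormedSpace.exp x * NormedSpace.exp (-x) = 1 := by
  rw [← exp_add' ((Commute.refl x).neg_right), add_neg_cancel, NormedSpace.exp_zero]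

theorem exp_neg_mul (x : 𝔸) : NormedSpace.exp (-x) * NormedSpace.exp x = 1 := by
  rw [← exp_add' ((Commute.refl x).neg_left), neg_add_cancel, NormedSpace.exp_zero]

theorem deriv_exp (x : 𝔸) (t : ℝ) :
    HasDerivAt (fun t : ℝ => NormedSpace.exp (t • x)) (x * NormedSpace.exp (t • x)) t :=
  hasDerivAt_exp_smul_const' x t

theorem deriv_exp' (x : 𝔸) (t : ℝ) :
    HasDerivAt (fun t : ℝ => NormedSpace.exp (-(t • x))) (-(NormedSpace.exp (-(t • x)) * x)) t := by
  have h1 := hasDerivAt_exp_smul_const (𝕂 := ℝ) (-x) t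
  have h2 : ∀ t : ℝ, t • (-x) = -(t • x) := fun t => smul_neg t x
  simp only [h2, mul_neg] at h1
  exact h1

theorem comm_exp {x y : 𝔸} (h : x * y = y * x) (t : ℝ) :
    x * NormedSpace.exp (t • y) = NormedSpace.exp (t • y) * x := by
  have h1 : Commute x (t • y) := by
    rw [Commute, SemiconjBy, mul_smul_comm, smul_mul_assoc, h]
  exact h1.exp_right

/-- A curve with derivative `[S, y]`. -/
theorem conj_of_deriv (S : 𝔸) {y : ℝ → 𝔸} (hy : ∀ t, HasDerivAt y (S * y t - y t * S) t) (t : ℝ) :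
    y t = NormedSpace.exp (t • S) * y 0 * NormedSpace.exp (-(t • S)) := by
  have h1 : ∀ t : ℝ, HasDerivAt (fun t : ℝ => NormedSpace.exp (-(t • S)) * y t *
      NormedSpace.exp (t • S)) 0 t := by
    intro t
    have h2 := ((deriv_exp' S t).mul (hy t)).mul (deriv_exp S t)
    refine h2.congr_deriv ?_
    simp only [Pi.mul_apply]
    noncomm_ring
  have h2 : NormedSpace.exp (-(t • S)) * y t * NormedSpace.exp (t • S) = y 0 := by
    have h3 := is_const_of_deriv_eq_zero (fun t => (h1 t).differentiableAt)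
      (fun t => (h1 t).deriv) t 0
    simp only [zero_smul, neg_zero, NormedSpace.exp_zero, one_mul, mul_one] at h3
    exact h3
  rw [← h2]
  have h4 : NormedSpace.exp (t • S) * (NormedSpace.exp (-(t • S)) * y t *
      NormedSpace.exp (t • S)) * NormedSpace.exp (-(t • S)) =
      (NormedSpace.exp (t • S) * NormedSpace.exp (-(t • S))) * y t *
      (NormedSpace.exp (t • S) * NormedSpace.exp (-(t • S))) := by
    noncomm_ring
  rw [h4, exp_mul_neg, one_mul, mul_one]

end exp

section space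

variable {E : Type*} [NormedAddCommGroup E] [InnerProductSpace ℝ E] [CompleteSpace E]

theorem deriv_flow (ρ : E →L[ℝ] E) (v : E) (t : ℝ) :
    HasDerivAt (fun t : ℝ => (NormedSpace.exp (t • ρ) : E →L[ℝ] E) v)
      (ρ ((NormedSpace.exp (t • ρ) : E →L[ℝ] E) v)) t := by
  have h1 := deriv_exp ρ t
  have h2 := h1.clm_apply (hasDerivAt_const t v)
  refine h2.congr_deriv ?_
  rw [map_zero, add_zero]
  rfl

theorem norm_flow (ρ : E →L[ℝ] E) (h : ∀ v, inner ℝ (ρ v) v = 0) (v : E) (t : ℝ) :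
    ‖(NormedSpace.exp (t • ρ) : E →L[ℝ] E) v‖ = ‖v‖ := by
  have h1 : ∀ t : ℝ, HasDerivAt (fun t : ℝ => ‖(NormedSpace.exp (t • ρ) : E →L[ℝ] E) v‖ ^ 2) 0 t := by
    intro t
    have h2 := (deriv_flow ρ v t).norm_sq
    refine h2.congr_deriv ?_
    rw [real_inner_comm, h, mul_zero]
  have h3 := is_const_of_deriv_eq_zero (fun t => (h1 t).differentiableAt)
      (fun t => (h1 t).deriv) t 0
  simp only [zero_smul, NormedSpace.exp_zero, one_apply_eq_self] at h3
  exact (sq_eq_sq₀ (norm_nonneg _) (norm_nonneg _)).1 h3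

theorem eq_zero_of_flow (ρ : E →L[ℝ] E) {z : E}
    (h : ∀ t : ℝ, (NormedSpace.exp (t • ρ) : E →L[ℝ] E) z = z) : ρ z = 0 := by
  have h1 := deriv_flow ρ z 0
  simp only [h] at h1
  exact h1.unique (hasDerivAt_const 0 z)

end space

section form

variable {V : Type*} [NormedAddCommGroup V] [NormedSpace ℝ V] [FiniteDimensional ℝ V]

/-- The exponential of a skew operator preserves the form. -/
theorem form_exp (B : V →ₗ[ℝ] V →ₗ[ℝ] ℝ) (S : V →L[ℝ] V) (h : ∀ x y, B (S x) y = -B x (S y))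
    (x y : V) (t : ℝ) :
    B ((NormedSpace.exp (t • S) : V →L[ℝ] V) x) ((NormedSpace.exp (t • S) : V →L[ℝ] V) y) =
      B x y := by
  have : CompleteSpace V := FiniteDimensional.complete ℝ V
  let Bc : V →L[ℝ] V →L[ℝ] ℝ := LinearMap.toContinuousLinearMap
    ((LinearMap.toContinuousLinearMap : (V →ₗ[ℝ] ℝ) ≃ₗ[ℝ] (V →L[ℝ] ℝ)).toLinearMap ∘ₗ B)
  have hBc : ∀ u v, Bc u v = B u v := fun u v => rfl
  have hd : ∀ (v : V) (t : ℝ), HasDerivAt (fun t : ℝ => (NormedSpace.exp (t • S) : V →L[ℝ] V) v)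
      (S ((NormedSpace.exp (t • S) : V →L[ℝ] V) v)) t := by
    intro v t
    have h1 := deriv_exp S t
    have h2 := h1.clm_apply (hasDerivAt_const t v)
    refine h2.congr_deriv ?_
    rw [map_zero, add_zero]
    rfl
  have h1 : ∀ t : ℝ, HasDerivAt (fun t : ℝ => Bc ((NormedSpace.exp (t • S) : V →L[ℝ] V) x)
      ((NormedSpace.exp (t • S) : V →L[ℝ] V) y)) 0 t := by
    intro t
    have h2 := (Bc.hasFDerivAt.comp_hasDerivAt t (hd x t)).clm_apply (hd y t)
    refine h2.congr_deriv ?_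
    simp only [Function.comp, hBc, h, neg_add_cancel]
  have h3 := is_const_of_deriv_eq_zero (fun t => (h1 t).differentiableAt)
      (fun t => (h1 t).deriv) t 0
  simp only [zero_smul, NormedSpace.exp_zero, one_apply_eq_self] at h3
  exact h3

/-- A positive point which is fixed by the flows. -/
theorem core {E : Type*} [NormedAddCommGroup E] [InnerProductSpace ℝ E] [FiniteDimensional ℝ E]
    (ω : V →ₗ[ℝ] V →ₗ[ℝ] ℝ) (hω : ∀ x, (∀ y, ω x y = 0) → x = 0) (ha : ∀ x y, ω x y = -ω y x)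
    (ι : E →ₗ[ℝ] Module.End ℝ V) (K : Module.End ℝ V)
    (hK : ∀ v x y, ω ((K + ι v) x) y = -ω x ((K + ι v) y))
    (j : E) (hj : (K + ι j) * (K + ι j) = -1) (hj0 : ∀ x, 0 ≤ ω x ((K + ι j) x))
    (Q : Set (E →ₗ[ℝ] E))
    (hQ : ∀ ρ ∈ Q, (∀ v, inner ℝ (ρ v) v = 0) ∧ ∃ S : Module.End ℝ V,
      (∀ x y, ω (S x) y = -ω x (S y)) ∧ K * S = S * K ∧ ∀ v, ι (ρ v) = S * ι v - ι v * S) :
    ∃ z : E, (∀ ρ ∈ Q, ρ z = 0) ∧ ∀ x, x ≠ 0 → 0 < ω x ((K + ι z) x) := by
  have : CompleteSpace V := FiniteDimensional.complete ℝ V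
  have : CompleteSpace E := FiniteDimensional.complete ℝ E
  have : ProperSpace E := FiniteDimensional.proper_real E
  let c : Module.End ℝ V ≃ₐ[ℝ] (V →L[ℝ] V) := Module.End.toContinuousLinearMap V
  have hc : ∀ (T : Module.End ℝ V) x, c T x = T x := fun _ _ => rfl
  let ιc : E →L[ℝ] (V →L[ℝ] V) := LinearMap.toContinuousLinearMap (c.toLinearMap ∘ₗ ι)
  have hι : ∀ v, ιc v = c (ι v) := fun _ => rfl
  let T : E → (V →L[ℝ] V) := fun v => c K + ιc v
  have hTd : ∀ v, T v = c K + ιc v := fun v => rfl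
  have hT : ∀ v, T v = c (K + ι v) := fun v => by
    rw [map_add]
    rfl
  have hTx : ∀ v x, T v x = (K + ι v) x := fun v x => by rw [hT, hc]
  have hTc : Continuous T := continuous_const.add ιc.continuous
  have hcx : ∀ x, Continuous fun v => ω x (T v x) := fun x =>
    (ω x).continuous_of_finiteDimensional.comp (hTc.clm_apply continuous_const)
  obtain ⟨O, hO⟩ : ∃ O : Set E, O = {v | ‖v‖ ≤ ‖j‖ ∧ T v * T v = -1 ∧ ∀ x, 0 ≤ ω x (T v x)} :=
    ⟨_, rfl⟩
  have hOm : ∀ v, v ∈ O ↔ ‖v‖ ≤ ‖j‖ ∧ T v * T v = -1 ∧ ∀ x, 0 ≤ ω x (T v x) := fun v => by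
    rw [hO]; rfl
  have hOj : j ∈ O := (hOm j).2 ⟨le_rfl, by rw [hT, ← map_mul, hj, map_neg, map_one],
    fun x => by rw [hTx]; exact hj0 x⟩
  have hcomp : IsCompact O := by
    have h1 : IsClosed {v | T v * T v = -1} := isClosed_eq (hTc.mul hTc) continuous_const
    have h2 : IsClosed {v | ∀ x, 0 ≤ ω x (T v x)} := by
      simp only [Set.ofPred_forall]
      exact isClosed_iInter fun x => isClosed_le continuous_const (hcx x)
    have h3 := (isCompact_closedBall (0 : E) ‖j‖).inter_right (h1.inter h2)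
    have h4 : O = Metric.closedBall (0 : E) ‖j‖ ∩ ({v | T v * T v = -1} ∩
        {v | ∀ x, 0 ≤ ω x (T v x)}) := by
      ext v
      rw [hOm, Set.mem_inter_iff, Set.mem_inter_iff, mem_closedBall_zero_iff]
      rfl
    rw [h4]
    exact h3
  have hpos : ∀ x, x ≠ 0 → ∀ v ∈ O, 0 < ω x (T v x) := by
    intro x hx v hv
    obtain ⟨hv1, hv2, hv3⟩ := (hOm v).1 hv
    refine lt_of_le_of_ne (hv3 x) fun h0 => hx (hω x fun w => ?_)
    have hsy : ∀ a b, ω a (T v b) = ω b (T v a) := fun a b => by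
      have h1 := hK v b a
      rw [hTx, hTx, ha a, h1, neg_neg]
    have h1 : ω x (T v (T v w)) = -ω x w := by
      have h2 := congrArg (fun L : V →L[ℝ] V => ω x (L w)) hv2
      simp only [_root_.neg_apply] at h2
      rw [one_apply_eq_self, map_neg] at h2
      exact h2
    obtain ⟨y, hy⟩ : ∃ y, y = T v w := ⟨_, rfl⟩
    rw [← hy] at h1
    have h2 : ∀ t : ℝ, 0 ≤ 2 * t * ω x (T v y) + t ^ 2 * ω y (T v y) := fun t => by
      have h3 := hv3 (x + t • y)
      simp only [map_add, map_smul, LinearMap.add_apply, LinearMap.smul_apply, smul_eq_mul] at h3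
      rw [hsy y x, ← h0] at h3
      linarith
    have h4 := hv3 y
    obtain ⟨a, haa⟩ : ∃ a, a = ω x (T v y) := ⟨_, rfl⟩
    obtain ⟨b, hb⟩ : ∃ b, b = ω y (T v y) := ⟨_, rfl⟩
    rw [← haa, ← hb] at h2
    rw [← hb] at h4
    have h5 := h2 (-a / (b + 1))
    have h6 : 0 < b + 1 := by linarith
    have h7 : 2 * (-a / (b + 1)) * a + (-a / (b + 1)) ^ 2 * b = -(a ^ 2 * (b + 2)) / (b + 1) ^ 2 := by
      field_simp
      ring
    rw [h7, le_div_iff₀ (by positivity), zero_mul] at h5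
    have h8 : a = 0 := by
      by_contra hne
      have h9 : 0 < a ^ 2 := by positivity
      nlinarith
    rw [← haa, h8] at h1
    linarith
  obtain ⟨z, hz, hfix⟩ := exists_fixed (E := E) (O := O) ⟨j, hOj⟩
  refine ⟨z, fun ρ hρ => ?_, fun x hx => ?_⟩
  · obtain ⟨hsk, S, hS1, hS2, hS3⟩ := hQ ρ hρ
    let ρc : E →L[ℝ] E := LinearMap.toContinuousLinearMap ρ
    have hρc : ∀ v, ρc v = ρ v := fun v => rfl
    have h1 : ρc z = 0 := by
      refine eq_zero_of_flow ρc fun t => ?_
      refine hfix _ (fun x => norm_flow ρc hsk x t) ?_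
      intro v hv
      obtain ⟨hv1, hv2, hv3⟩ := (hOm v).1 hv
      have hconj : ιc ((NormedSpace.exp (t • ρc) : E →L[ℝ] E) v) =
          NormedSpace.exp (t • c S) * ιc v * NormedSpace.exp (-(t • c S)) := by
        have h2 := conj_of_deriv (c S)
          (y := fun t => ιc ((NormedSpace.exp (t • ρc) : E →L[ℝ] E) v)) (fun t => by
            have h3 := ιc.hasFDerivAt.comp_hasDerivAt t (deriv_flow ρc v t)
            refine h3.congr_deriv ?_
            rw [hι, hι, hρc, hS3, map_sub, map_mul, map_mul]) t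
        simp only [zero_smul, NormedSpace.exp_zero, one_apply_eq_self] at h2
        exact h2
      have hT' : T ((NormedSpace.exp (t • ρc) : E →L[ℝ] E) v) =
          NormedSpace.exp (t • c S) * T v * NormedSpace.exp (-(t • c S)) := by
        have h2 : c K * c S = c S * c K := by rw [← map_mul, ← map_mul, hS2]
        rw [hTd, hTd, mul_add, add_mul, ← hconj, ← comm_exp h2 t, mul_assoc, exp_mul_neg, mul_one]
      refine (hOm _).2 ⟨?_, ?_, fun x => ?_⟩
      · rw [norm_flow ρc hsk]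
        exact hv1
      · rw [hT']
        calc NormedSpace.exp (t • c S) * T v * NormedSpace.exp (-(t • c S)) *
              (NormedSpace.exp (t • c S) * T v * NormedSpace.exp (-(t • c S)))
            = NormedSpace.exp (t • c S) * T v * (NormedSpace.exp (-(t • c S)) *
              NormedSpace.exp (t • c S)) * T v * NormedSpace.exp (-(t • c S)) := by
              simp only [mul_assoc]
          _ = NormedSpace.exp (t • c S) * (T v * T v) * NormedSpace.exp (-(t • c S)) := by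
              rw [exp_neg_mul, mul_one, mul_assoc (NormedSpace.exp (t • c S)) (T v) (T v)]
          _ = -1 := by rw [hv2, mul_neg, mul_one, neg_mul, exp_mul_neg]
      · rw [hT']
        have h3 := form_exp ω (c S) hS1 ((NormedSpace.exp (-(t • c S)) : V →L[ℝ] V) x)
          (T v ((NormedSpace.exp (-(t • c S)) : V →L[ℝ] V) x)) t
        have h4 : (NormedSpace.exp (t • c S) : V →L[ℝ] V)
            ((NormedSpace.exp (-(t • c S)) : V →L[ℝ] V) x) = x := by
          have h5 := congrArg (fun L : V →L[ℝ] V => L x) (exp_mul_neg (t • c S))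
          simp only [one_apply_eq_self] at h5
          exact h5
        rw [h4] at h3
        change 0 ≤ ω x ((NormedSpace.exp (t • c S) : V →L[ℝ] V)
          (T v ((NormedSpace.exp (-(t • c S)) : V →L[ℝ] V) x)))
        rw [h3]
        exact hv3 _
    exact h1
  · obtain ⟨v0, hv0, hmin⟩ := hcomp.exists_isMinOn ⟨j, hOj⟩ (hcx x).continuousOn
    have h1 : closedConvexHull ℝ O ⊆ {v | ω x (T v0 x) ≤ ω x (T v x)} := by
      refine closedConvexHull_min (fun v hv => hmin hv) ?_ (isClosed_le continuous_const (hcx x))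
      intro u hu v hv a b ha hb hab
      have h2 : T (a • u + b • v) = a • T u + b • T v := by
        rw [hTd, hTd, hTd, map_add, map_smul, map_smul, smul_add, smul_add]
        have h3 : c K = a • c K + b • c K := by rw [← add_smul, hab, one_smul]
        nth_rewrite 1 [h3]
        abel
      have h3 : ω x (T (a • u + b • v) x) = a * ω x (T u x) + b * ω x (T v x) := by
        rw [h2]
        change ω x (a • T u x + b • T v x) = _
        rw [map_add, map_smul, map_smul, smul_eq_mul, smul_eq_mul]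
      change ω x (T v0 x) ≤ ω x (T (a • u + b • v) x)
      rw [h3]
      have h4 : ω x (T v0 x) ≤ ω x (T u x) := hu
      have h5 : ω x (T v0 x) ≤ ω x (T v x) := hv
      calc ω x (T v0 x) = a * ω x (T v0 x) + b * ω x (T v0 x) := by rw [← add_mul, hab, one_mul]
        _ ≤ _ := add_le_add (mul_le_mul_of_nonneg_left h4 ha) (mul_le_mul_of_nonneg_left h5 hb)
    have h2 := (hpos x hx v0 hv0).trans_le (h1 hz)
    rw [hTx] at h2
    exact h2

end form

end Pool.Agent.N348.NCEg
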