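import Pool.Agent.N208.BT.Stm6
import Pool.Agent.N348.NCEg

set_option autoImplicit false
set_option linter.unusedSectionVars false

/-!
# NC/E: a full subalgebra which is compact modulo an ideal
-/

open Module Matrix

noncomputable section

namespace Pool.Agent.N348.NCE

open Pool.Agent.Y102 Pool.Agent.W516.DR Pool.Agent.H204R3.GP Pool.Agent.W516.KC
  Pool.Agent.H204R3.SP Pool.Agent.TH119.MX Pool.Agent.R917 Pool.Agent.N208.AM Pool.Agent.N208.AD
  Pool.Agent.N208.BT Pool.Agent.N348.NCEg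

variable {g : ℕ} {A : AbVar g}

/-- A real endomorphism in terms of its rational components. -/
theorem Y_eq (Y : (Fin g → ℂ) →ₗ[ℝ] (Fin g → ℂ)) : ∃ (t : Finset (Basis.ofVectorSpaceIndex ℚ ℝ)),
    Y = ∑ k ∈ t, (Basis.ofVectorSpace ℚ ℝ k) •
      A.ext (A.cmpE ((Basis.ofVectorSpace ℚ ℝ).coord k) Y) := by
  classical
  obtain ⟨t, ht⟩ := exists_coords (fun p : Fin (2 * g) × Fin (2 * g) =>
    A.lam.repr (Y (A.lam p.1)) p.2)
  refine ⟨t, A.lam.ext fun j => ?_⟩
  rw [LinearMap.sum_apply]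
  apply A.lam.repr.injective
  ext i
  have h2 := ht (j, i)
  simp only at h2
  rw [h2, map_sum, Finsupp.finsetSum_apply]
  refine Finset.sum_congr rfl fun k _ => ?_
  have h3 : ∀ (c : ℝ) (x : Fin g → ℂ), A.lam.repr (c • x) i = c * A.lam.repr x i := fun c x => by
    rw [map_smul, Finsupp.smul_apply, smul_eq_mul]
  rw [LinearMap.smul_apply, h3, A.ext_lam, A.repr_per, A.cmpE_apply, A.per_bas, mul_comm]
  rfl

/-- The elements of the real Lie algebra are skew. -/
theorem skew_spE {Y : Module.End ℝ (Fin g → ℂ)}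
    (hY : Y ∈ spE A (A.NA : Set (Module.End ℚ A.H1))) (u v : Fin g → ℂ) :
    A.E (Y u) v = -A.E u (Y v) := by
  induction hY using Submodule.span_induction with
  | mem Y hY =>
    obtain ⟨X, hX, rfl⟩ := hY
    have h2 : A.E.comp (A.ext X) = -(A.E.flip.comp (A.ext X)).flip := by
      refine A.ext_per fun u => A.ext_per fun v => ?_
      change A.E (A.ext X (A.per u)) (A.per v) = -A.E (A.per u) (A.ext X (A.per v))
      rw [A.ext_apply, A.ext_apply, ← A.om_coe, ← A.om_coe, ← Rat.cast_neg]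
      congr 1
      linear_combination A.NA_skew hX u v
    exact congrArg (fun F : (Fin g → ℂ) →ₗ[ℝ] (Fin g → ℂ) →ₗ[ℝ] ℝ => F u v) h2
  | zero => simp
  | add a b _ _ ha hb =>
    rw [LinearMap.add_apply, LinearMap.add_apply, map_add, map_add, LinearMap.add_apply, ha, hb,
      neg_add]
  | smul c a _ ha =>
    rw [LinearMap.smul_apply, LinearMap.smul_apply, map_smul, map_smul, LinearMap.smul_apply, ha,
      smul_neg]

/-- What commutes with a full subalgebra commutes with the real Lie algebra. -/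
theorem comm_all {𝔮 : Submodule ℚ (Module.End ℚ A.H1)} (hF : A.Full 𝔮)
    {w : Module.End ℝ (Fin g → ℂ)} (h : ∀ X ∈ 𝔮, A.ext X * w = w * A.ext X) :
    ∀ Y ∈ spE A (A.NA : Set (Module.End ℚ A.H1)), Y * w = w * Y := by
  have h1 : ∀ X ∈ A.NA, A.ext X * w = w * A.ext X := by
    intro X hX
    obtain ⟨t, ht⟩ := Y_eq (A := A) w
    have h2 : ∀ k, A.ext X * A.ext (A.cmpE ((Basis.ofVectorSpace ℚ ℝ).coord k) w) =
        A.ext (A.cmpE ((Basis.ofVectorSpace ℚ ℝ).coord k) w) * A.ext X := by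
      intro k
      have h3 := hF.comm (A.cmpE ((Basis.ofVectorSpace ℚ ℝ).coord k) w) (fun X hX =>
        (A.cmpE_comm _ (fun u => (LinearMap.congr_fun (h X hX) u).symm)).symm) X hX
      rw [← Pool.Agent.N208.AD.ext_mul, h3, Pool.Agent.N208.AD.ext_mul]
    have h4 : A.ext X * (∑ k ∈ t, (Basis.ofVectorSpace ℚ ℝ k) •
        A.ext (A.cmpE ((Basis.ofVectorSpace ℚ ℝ).coord k) w)) =
        (∑ k ∈ t, (Basis.ofVectorSpace ℚ ℝ k) •
        A.ext (A.cmpE ((Basis.ofVectorSpace ℚ ℝ).coord k) w)) * A.ext X := by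
      rw [Finset.mul_sum, Finset.sum_mul]
      exact Finset.sum_congr rfl fun k _ => by rw [mul_smul_comm, smul_mul_assoc, h2]
    rw [← ht] at h4
    exact h4
  intro Y hY
  induction hY using Submodule.span_induction with
  | mem Y hY =>
    obtain ⟨X, hX, rfl⟩ := hY
    exact h1 X hX
  | zero => rw [zero_mul, mul_zero]
  | add a b _ _ ha hb => rw [add_mul, mul_add, ha, hb]
  | smul c a _ ha => rw [smul_mul_assoc, mul_smul_comm, ha]

theorem JJ_sq : (AbVar.JJ : Module.End ℝ (Fin g → ℂ)) * AbVar.JJ = -1 := by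
  have h1 := JJ_mul (1 : Module.End ℝ (Fin g → ℂ))
  rw [mul_one] at h1
  exact h1

theorem main (hD : S_NCD) : S_NCE := by
  intro g A 𝔮 hF 𝔫 β hn hβs hβ0 hβn hβq
  obtain ⟨hs, hcomm, hinf, hdec⟩ := hD g A 𝔫 hn
  obtain ⟨Jn, hJn, Js, hJs, hJ⟩ := hdec _ JJ_mem
  obtain ⟨𝔰, h𝔰⟩ : ∃ 𝔰, 𝔰 = perpE A 𝔫 := ⟨_, rfl⟩
  rw [← h𝔰] at hs hcomm hinf hdec hJs
  -- coordinates
  let B : 𝔰 →ₗ[ℝ] 𝔰 →ₗ[ℝ] ℝ := β.compl₁₂ 𝔰.subtype 𝔰.subtype
  have hB : ∀ u v, B u v = β u v := fun u v => rfl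
  obtain ⟨e, he⟩ := exists_euc (W := 𝔰) B
    (fun u v => by rw [hB, hB]; exact hβs _ (hs.le _ u.2) _ (hs.le _ v.2))
    (fun u hu => by
      rw [hB]
      refine lt_of_le_of_ne (hβ0 _ (hs.le _ u.2)) fun h0 => hu (Subtype.ext ?_)
      exact hinf _ (hβn _ (hs.le _ u.2) h0.symm) u.2)
  have hext : ∀ X ∈ 𝔮, A.ext X ∈ spE A (A.NA : Set (Module.End ℚ A.H1)) := fun X hX =>
    mem_spE (S := (A.NA : Set (Module.End ℚ A.H1))) (hF.le hX)
  have hinv : ∀ x, (∀ y, A.E x y = 0) → x = 0 := by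
    intro x hx
    by_contra hne
    have h1 := A.PF_pos hne
    rw [A.PF_apply, hx] at h1
    exact lt_irrefl _ h1
  obtain ⟨z, hz1, hz2⟩ := core A.E hinv A.E_anti (𝔰.subtype ∘ₗ e.toLinearMap) Jn
    (fun v x y => skew_spE (Submodule.add_mem _ (hn.le _ hJn) (hs.le _ (e v).2)) x y)
    (e.symm ⟨Js, hJs⟩)
    (by
      rw [LinearMap.comp_apply, LinearEquiv.coe_coe, LinearEquiv.apply_symm_apply,
        Submodule.subtype_apply, ← hJ, JJ_sq])
    (fun x => by
      rw [LinearMap.comp_apply, LinearEquiv.coe_coe, LinearEquiv.apply_symm_apply,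
        Submodule.subtype_apply, ← hJ, AbVar.JJ_apply, ← A.PF_apply]
      by_cases hx : x = 0
      · rw [hx, map_zero]
      · exact (A.PF_pos hx).le)
    {ρ | ∃ X ∈ 𝔮, ∀ v, (e (ρ v) : Module.End ℝ (Fin g → ℂ)) = A.ext X * e v - e v * A.ext X}
    (by
      rintro ρ ⟨X, hX, hρ⟩
      refine ⟨fun v => ?_, ?_⟩
      · rw [← he, hB, hρ]
        have h1 := hβq X hX _ (hs.le _ (e v).2) _ (hs.le _ (e v).2)
        have h2 : A.ext X * (e v : Module.End ℝ (Fin g → ℂ)) - e v * A.ext X ∈ 𝔰 :=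
          hs.br _ (e v).2 _ (hext X hX)
        rw [hβs _ (hs.le _ (e v).2) _ (hs.le _ h2)] at h1
        linarith
      · obtain ⟨Xn, hXn, Xs, hXs, hX'⟩ := hdec _ (hext X hX)
        refine ⟨Xs, fun x y => skew_spE (hs.le _ hXs) x y, hcomm _ hJn _ hXs, fun v => ?_⟩
        change (e (ρ v) : Module.End ℝ (Fin g → ℂ)) = Xs * e v - e v * Xs
        rw [hρ, hX', add_mul, mul_add, hcomm _ hXn _ (e v).2]
        abel)
  obtain ⟨w, hw⟩ : ∃ w : Module.End ℝ (Fin g → ℂ), w = e z := ⟨_, rfl⟩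
  have hws : w ∈ 𝔰 := by rw [hw]; exact (e z).2
  have hz2' : ∀ x, x ≠ 0 → 0 < A.E x ((Jn + w) x) := fun x hx => by rw [hw]; exact hz2 x hx
  have hwq : ∀ X ∈ 𝔮, A.ext X * w = w * A.ext X := by
    intro X hX
    let ad : 𝔰 →ₗ[ℝ] 𝔰 := (LinearMap.mulLeft ℝ (A.ext X : Module.End ℝ (Fin g → ℂ)) -
      LinearMap.mulRight ℝ (A.ext X : Module.End ℝ (Fin g → ℂ))).restrict (p := 𝔰) (q := 𝔰)
      (fun Y hY => hs.br Y hY _ (hext X hX))
    have had : ∀ Y : 𝔰, (ad Y : Module.End ℝ (Fin g → ℂ)) = A.ext X * Y - Y * A.ext X :=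
      fun Y => rfl
    have h1 := hz1 (e.symm.toLinearMap ∘ₗ ad ∘ₗ e.toLinearMap) ⟨X, hX, fun v => by
      rw [LinearMap.comp_apply, LinearMap.comp_apply, LinearEquiv.coe_coe, LinearEquiv.coe_coe,
        LinearEquiv.apply_symm_apply, had]⟩
    rw [LinearMap.comp_apply, LinearMap.comp_apply, LinearEquiv.coe_coe, LinearEquiv.coe_coe,
      LinearEquiv.map_eq_zero_iff] at h1
    have h2 := congrArg Subtype.val h1
    rw [had, ← hw, Submodule.coe_zero, sub_eq_zero] at h2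
    exact h2
  have hwall := comm_all hF hwq
  -- the complement commutes with the complex structure
  have key : ∀ Y ∈ 𝔰, (AbVar.JJ : Module.End ℝ (Fin g → ℂ)) * Y = Y * AbVar.JJ := by
    intro Y hY
    have hth : th Y ∈ 𝔰 := th_mem (fun x hx y hy => hs.br y hy x hx) hY
    obtain ⟨Z, hZ⟩ : ∃ Z, Z = Y - th Y := ⟨_, rfl⟩
    have hZs : Z ∈ 𝔰 := by rw [hZ]; exact 𝔰.sub_mem hY hth
    have hZg := hs.le _ hZs
    have hsym : ∀ u v, A.PF (Z u) v = A.PF u (Z v) := by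
      intro u v
      have h1 := adj_spE (hs.le _ hY) u v
      have h2 := adj_spE (hs.le _ hY) v u
      rw [LinearMap.neg_apply, map_neg] at h1 h2
      rw [A.PF_symm, A.PF_symm v] at h2
      rw [hZ, LinearMap.sub_apply, LinearMap.sub_apply, map_sub, map_sub, LinearMap.sub_apply, h1]
      rw [h2]
      ring
    have hcm : Z * (Jn + w) = (Jn + w) * Z := by
      rw [mul_add, add_mul, hwall _ hZg, hcomm _ hJn _ hZs]
    have hZ0 : Z = 0 := by
      by_contra hne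
      have h1 := tr_adj_pos hsym hne
      have h2 := tr_sq_nonpos (A.E.compl₂ (Jn + w)) (fun u v => by
          rw [LinearMap.compl₂_apply, LinearMap.compl₂_apply]
          have h3 := skew_spE (Submodule.add_mem _ (hn.le _ hJn) (hs.le _ hws)) v u
          rw [A.E_anti u, h3, neg_neg])
        (fun u hu => by rw [LinearMap.compl₂_apply]; exact hz2' u hu) Z (fun u v => by
          rw [LinearMap.compl₂_apply, LinearMap.compl₂_apply, skew_spE hZg]
          have h4 := LinearMap.congr_fun hcm v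
          rw [Module.End.mul_apply, Module.End.mul_apply] at h4
          rw [h4])
      linarith
    rw [hZ, sub_eq_zero, th_eq] at hZ0
    refine LinearMap.ext fun u => ?_
    have h5 : Y u = -(Complex.I • Y (Complex.I • u)) := LinearMap.congr_fun hZ0 u
    change Complex.I • Y u = Y (Complex.I • u)
    rw [h5, smul_neg, smul_smul, Complex.I_mul_I, neg_one_smul, neg_neg]
  intro Y hY
  obtain ⟨Y₁, h1, Y₂, h2, rfl⟩ := hdec _ hY
  have h3 : (AbVar.JJ : Module.End ℝ (Fin g → ℂ)) * (Y₁ + Y₂) - (Y₁ + Y₂) * AbVar.JJ =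
      AbVar.JJ * Y₁ - Y₁ * AbVar.JJ := by
    rw [mul_add, add_mul, key _ h2]
    abel
  rw [h3]
  exact hn.br _ h1 _ JJ_mem

end Pool.Agent.N348.NCE
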