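import Pool.Agent.N646.BX.Stm
import Pool.Agent.N646.AC.Rem

/-!
# BX/K2: popular differences of two sets (helper348, for helper646)
-/

set_option autoImplicit false

namespace Pool.Agent.N348.BX

open Finset Pool.Agent.N646.BX

/-- one interval, one class modulo a divisor `d` of `m` -/
theorem eq1 {m w : ℕ} {β : ℝ} {X : Finset ℤ} {L : ℕ} (hE : Equi m w β X L) (hm : 1 ≤ m) {d : ℕ}
    (hd : d ∣ m) (u r : ℤ) (hu : 0 ≤ u) (huw : u + w ≤ L) :
    β * w ≤ d * ((X.filter (fun x => u ≤ x ∧ x < u + w ∧ x ≡ r [ZMOD d])).card : ℝ) := by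
  obtain ⟨e, rfl⟩ := hd
  have hd0 : 0 < d := Nat.pos_of_ne_zero (by rintro rfl; simp at hm)
  have he0 : 0 < e := Nat.pos_of_ne_zero (by rintro rfl; simp at hm)
  set F : ℕ → Finset ℤ := fun i =>
    X.filter (fun x => u ≤ x ∧ x < u + w ∧ x ≡ r + d * i [ZMOD ((d * e : ℕ) : ℤ)]) with hF
  have h1 : ∀ i ∈ range e, β * w ≤ ((d * e : ℕ) : ℝ) * ((F i).card : ℝ) := fun i _ =>
    hE u (r + d * i) hu huw
  have h2 : ∑ i ∈ range e, (F i).card ≤
      (X.filter (fun x => u ≤ x ∧ x < u + w ∧ x ≡ r [ZMOD d])).card := by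
    rw [← card_biUnion]
    · apply card_le_card
      intro x hx
      rw [mem_biUnion] at hx
      obtain ⟨i, hi, hx⟩ := hx
      rw [hF, mem_filter] at hx
      rw [mem_filter]
      refine ⟨hx.1, hx.2.1, hx.2.2.1, ?_⟩
      have h3 : x ≡ r + d * i [ZMOD (d : ℤ)] := by
        have h4 := hx.2.2.2
        push_cast at h4
        exact Int.ModEq.of_mul_right _ h4
      exact h3.trans (by simp [Int.ModEq])
    · intro i hi j hj hij
      rw [Function.onFun, disjoint_left]
      intro x hx hx2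
      rw [hF, mem_filter] at hx hx2
      apply hij
      have h3 : r + d * i ≡ r + d * j [ZMOD ((d * e : ℕ) : ℤ)] := hx.2.2.2.symm.trans hx2.2.2.2
      have h4 := Int.ModEq.dvd h3
      have h5 : r + (d : ℤ) * j - (r + d * i) = d * ((j : ℤ) - i) := by ring
      rw [h5] at h4
      push_cast at h4
      have h6 : (e : ℤ) ∣ (j : ℤ) - i := Int.dvd_of_mul_dvd_mul_left (by positivity) h4
      rw [coe_range, Set.mem_Iio] at hi hj
      have h7 : (j : ℤ) - i = 0 := Int.eq_zero_of_abs_lt_dvd h6 (by rw [abs_lt]; omega)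
      omega
  have h3 := sum_le_sum h1
  rw [sum_const, card_range, nsmul_eq_mul, ← mul_sum] at h3
  have h4 : ∑ i ∈ range e, ((F i).card : ℝ) ≤
      ((X.filter (fun x => u ≤ x ∧ x < u + w ∧ x ≡ r [ZMOD d])).card : ℝ) := by exact_mod_cast h2
  have he : (0 : ℝ) < e := by exact_mod_cast he0
  have h5 : (e : ℝ) * (β * w) ≤ e * (d * ((X.filter (fun x => u ≤ x ∧ x < u + w ∧ x ≡ r [ZMOD d])).card : ℝ)) := by
    calc (e : ℝ) * (β * w) ≤ _ := h3
      _ ≤ ((d * e : ℕ) : ℝ) * ((X.filter (fun x => u ≤ x ∧ x < u + w ∧ x ≡ r [ZMOD d])).card : ℝ) :=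
        mul_le_mul_of_nonneg_left h4 (Nat.cast_nonneg _)
      _ = _ := by push_cast; ring
  exact le_of_mul_le_mul_left h5 he

/-- several consecutive intervals -/
theorem eq2 {m w : ℕ} {β : ℝ} {X : Finset ℤ} {L : ℕ} (hE : Equi m w β X L) (hm : 1 ≤ m) {d : ℕ}
    (hd : d ∣ m) (u r : ℤ) (hu : 0 ≤ u) (k : ℕ) : u + (k * w : ℕ) ≤ L →
    β * (k * w : ℕ) ≤ d * ((X.filter (fun x => u ≤ x ∧ x < u + (k * w : ℕ) ∧ x ≡ r [ZMOD d])).card : ℝ) := by
  induction k with
  | zero =>
    intro _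
    simp only [zero_mul, Nat.cast_zero, mul_zero]
    positivity
  | succ k ih =>
    intro h
    have h0 : ((k + 1) * w : ℕ) = k * w + w := by ring
    rw [h0] at h ⊢
    push_cast at h ih ⊢
    have h1 := ih (by linarith)
    have h2 := eq1 hE hm hd (u + k * w) r (by positivity) (by linarith)
    have h3 : (X.filter (fun x => u ≤ x ∧ x < u + k * w ∧ x ≡ r [ZMOD d])).card +
        (X.filter (fun x => u + k * w ≤ x ∧ x < u + k * w + w ∧ x ≡ r [ZMOD d])).card ≤
        (X.filter (fun x => u ≤ x ∧ x < u + (k * w + w) ∧ x ≡ r [ZMOD d])).card := by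
      have hw : (0 : ℤ) ≤ w := Nat.cast_nonneg w
      have hkw : (0 : ℤ) ≤ (k : ℤ) * w := by positivity
      rw [← card_union_of_disjoint]
      · apply card_le_card
        intro x hx
        rw [mem_union, mem_filter, mem_filter] at hx
        rw [mem_filter]
        rcases hx with hx | hx
        · exact ⟨hx.1, hx.2.1, by linarith [hx.2.2.1], hx.2.2.2⟩
        · exact ⟨hx.1, by linarith [hx.2.1], by linarith [hx.2.2.1], hx.2.2.2⟩
      · rw [disjoint_left]
        intro x hx hx2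
        rw [mem_filter] at hx hx2
        linarith [hx.2.2.1, hx2.2.1]
    have h4 : ((X.filter (fun x => u ≤ x ∧ x < u + k * w ∧ x ≡ r [ZMOD d])).card : ℝ) +
        ((X.filter (fun x => u + k * w ≤ x ∧ x < u + k * w + w ∧ x ≡ r [ZMOD d])).card : ℝ) ≤
        ((X.filter (fun x => u ≤ x ∧ x < u + (k * w + w) ∧ x ≡ r [ZMOD d])).card : ℝ) := by exact_mod_cast h3
    have hd0 : (0 : ℝ) ≤ d := Nat.cast_nonneg d
    have h5 := mul_le_mul_of_nonneg_left h4 hd0
    rw [mul_add] at h5
    rw [mul_add]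
    linarith

/-- a long interval -/
theorem eq3 {m w : ℕ} {β : ℝ} (hβ : 0 ≤ β) {X : Finset ℤ} {L : ℕ} (hE : Equi m w β X L) (hm : 1 ≤ m)
    (hw : 1 ≤ w) {d : ℕ} (hd : d ∣ m) (u r : ℤ) (hu : 0 ≤ u) (q : ℕ) (huq : u + q ≤ L) :
    β * ((q : ℝ) - w) ≤ d * ((X.filter (fun x => u ≤ x ∧ x < u + q ∧ x ≡ r [ZMOD d])).card : ℝ) := by
  have h1 : q / w * w ≤ q := Nat.div_mul_le_self q w
  have h2 : q < (q / w + 1) * w := by
    have := Nat.lt_div_mul_add (a := q) (b := w) (by omega)
    rw [add_mul, one_mul]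
    exact this
  have h1' : (((q / w * w : ℕ) : ℤ)) ≤ q := by exact_mod_cast h1
  have h3 := eq2 hE hm hd u r hu (q / w) (by linarith)
  have h4 : (q : ℝ) - w ≤ ((q / w * w : ℕ) : ℝ) := by
    have : (q : ℝ) < ((q / w + 1) * w : ℕ) := by exact_mod_cast h2
    push_cast at this ⊢
    linarith
  have h5 : (X.filter (fun x => u ≤ x ∧ x < u + (q / w * w : ℕ) ∧ x ≡ r [ZMOD d])).card ≤
      (X.filter (fun x => u ≤ x ∧ x < u + q ∧ x ≡ r [ZMOD d])).card := by
    apply card_le_card
    intro x hx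
    rw [mem_filter] at hx ⊢
    exact ⟨hx.1, hx.2.1, by linarith [hx.2.2.1], hx.2.2.2⟩
  calc β * ((q : ℝ) - w) ≤ β * ((q / w * w : ℕ) : ℝ) := mul_le_mul_of_nonneg_left h4 hβ
    _ ≤ _ := h3
    _ ≤ _ := mul_le_mul_of_nonneg_left (by exact_mod_cast h5) (Nat.cast_nonneg d)

/-- the elements of an interval, by subintervals -/
theorem tile_sum (W : Finset ℤ) (v : ℤ) (q J : ℕ) :
    ∑ j ∈ range J, (W.filter (fun x => v + j * q ≤ x ∧ x < v + j * q + q)).card ≤ W.card := by
  rw [← card_biUnion]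
  · apply card_le_card
    intro x hx
    rw [mem_biUnion] at hx
    obtain ⟨j, _, hx⟩ := hx
    exact (mem_filter.1 hx).1
  · intro i hi j hj hij
    rw [Function.onFun, disjoint_left]
    intro x hx hx2
    rw [mem_filter] at hx hx2
    rcases Nat.lt_or_gt_of_ne hij with h | h
    · have h3 : ((i : ℤ) + 1) * q ≤ j * q := by
        apply mul_le_mul_of_nonneg_right _ (Nat.cast_nonneg q)
        exact_mod_cast h
      linarith [hx.2.2, hx2.2.1]
    · have h3 : ((j : ℤ) + 1) * q ≤ i * q := by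
        apply mul_le_mul_of_nonneg_right _ (Nat.cast_nonneg q)
        exact_mod_cast h
      linarith [hx2.2.2, hx.2.1]

/-- a window with many elements -/
theorem tile {Y : Finset ℤ} {L T q : ℕ} (hq : 1 ≤ q) (hqT : q ≤ 2 * T) (hTL : 2 * T ≤ L)
    (hY : Y ⊆ Ico 0 ((L : ℤ) - 2 * T)) (hY0 : Y.Nonempty) :
    ∃ v : ℤ, 0 ≤ v ∧ v + 2 * T ≤ L ∧
      (Y.card : ℝ) * q ≤ L * ((Y.filter (fun y => v ≤ y ∧ y < v + q)).card : ℝ) := by
  set n : ℕ := (L - 2 * T) / q + 1 with hn
  have hnq : n * q ≤ L := by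
    have : (L - 2 * T) / q * q ≤ L - 2 * T := Nat.div_mul_le_self _ _
    rw [hn, add_mul, one_mul]
    omega
  have hq' : (0 : ℤ) < q := by exact_mod_cast hq
  have hmap : ∀ y ∈ Y, y / (q : ℤ) ∈ Ico (0 : ℤ) n := by
    intro y hy
    have h1 := hY hy
    rw [mem_Ico] at h1 ⊢
    refine ⟨Int.ediv_nonneg h1.1 hq'.le, ?_⟩
    rw [Int.ediv_lt_iff_lt_mul hq']
    have h2 : L - 2 * T < n * q := by
      have := Nat.lt_div_mul_add (a := L - 2 * T) (b := q) (by omega)
      rw [hn, add_mul, one_mul]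
      exact this
    have h3 : (((L - 2 * T : ℕ) : ℤ)) = (L : ℤ) - 2 * T := by
      push_cast [Nat.cast_sub hTL]
      ring
    have h4 : (((L - 2 * T : ℕ) : ℤ)) < n * q := by exact_mod_cast h2
    linarith [h1.2]
  have hn0 : 0 < n := Nat.succ_pos _
  have hn0' : (0 : ℝ) < n := by exact_mod_cast hn0
  obtain ⟨t, ht, hc⟩ := exists_le_card_fiber_of_nsmul_le_card_of_maps_to (M := ℝ) hmap
    ⟨0, by rw [mem_Ico]; exact ⟨le_rfl, by exact_mod_cast hn0⟩⟩ (b := (Y.card : ℝ) / n) (by
      rw [Int.card_Ico, sub_zero, Int.toNat_natCast, nsmul_eq_mul]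
      exact (mul_div_cancel₀ _ hn0'.ne').le)
  rw [mem_Ico] at ht
  have hsub : Y.filter (fun y => y / (q : ℤ) = t) ⊆ Y.filter (fun y => t * q ≤ y ∧ y < t * q + q) := by
    intro y hy
    rw [mem_filter] at hy ⊢
    refine ⟨hy.1, ?_, ?_⟩
    · have := Int.ediv_mul_le y hq'.ne'
      rw [hy.2] at this
      exact this
    · have := Int.lt_ediv_add_one_mul_self y hq'
      rw [hy.2] at this
      linarith
  have hY0' : (0 : ℝ) < Y.card := by exact_mod_cast card_pos.2 hY0
  have hpos : (0 : ℝ) < ((Y.filter (fun y => y / (q : ℤ) = t)).card : ℝ) := lt_of_lt_of_le (by positivity) hc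
  refine ⟨t * q, mul_nonneg ht.1 hq'.le, ?_, ?_⟩
  · have : (Y.filter (fun y => y / (q : ℤ) = t)).Nonempty := by
      rw [← card_pos]
      exact_mod_cast hpos
    obtain ⟨y, hy⟩ := this
    have h1 := (mem_filter.1 (hsub hy)).2.1
    have h2 := hY (mem_filter.1 hy).1
    rw [mem_Ico] at h2
    linarith [h2.2]
  · have h1 : ((Y.filter (fun y => y / (q : ℤ) = t)).card : ℝ) ≤
        ((Y.filter (fun y => t * q ≤ y ∧ y < t * q + q)).card : ℝ) := by exact_mod_cast card_le_card hsub
    have h2 : (Y.card : ℝ) ≤ n * ((Y.filter (fun y => t * q ≤ y ∧ y < t * q + q)).card : ℝ) := by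
      have := hc.trans h1
      rwa [div_le_iff₀ hn0', mul_comm] at this
    have h3 : ((n : ℝ) * q) ≤ L := by exact_mod_cast hnq
    calc (Y.card : ℝ) * q ≤ n * ((Y.filter (fun y => t * q ≤ y ∧ y < t * q + q)).card : ℝ) * q :=
          mul_le_mul_of_nonneg_right h2 (Nat.cast_nonneg _)
      _ = (n * q) * ((Y.filter (fun y => t * q ≤ y ∧ y < t * q + q)).card : ℝ) := by ring
      _ ≤ _ := mul_le_mul_of_nonneg_right h3 (Nat.cast_nonneg _)

theorem cast_inj {L : ℕ} {a b : ℤ} (h : ((a : ZMod (2 * L))) = (b : ZMod (2 * L)))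
    (h1 : |b - a| < 2 * L) : a = b := by
  rw [ZMod.intCast_eq_intCast_iff] at h
  have h2 := Int.ModEq.dvd h
  have h3 : b - a = 0 := Int.eq_zero_of_abs_lt_dvd h2 (by push_cast; exact h1)
  omega

/-- the removal lemma for integers -/
theorem rem (e : ℝ) (he : 0 < e) : ∃ c : ℝ, 0 < c ∧ ∀ L : ℕ, 1 ≤ L → ∀ X Y : Finset ℤ,
    X ⊆ Ico 0 (L : ℤ) → Y ⊆ Ico 0 (L : ℤ) → ∃ X' ⊆ X, ∃ Y' ⊆ Y, ∃ E : Finset ℤ,
      ((X \ X').card : ℝ) ≤ e * L ∧ ((Y \ Y').card : ℝ) ≤ e * L ∧ (E.card : ℝ) ≤ e * L ∧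
      ∀ x ∈ X', ∀ y ∈ Y', 2 * c * L ≤ (rep X Y (x - y) : ℝ) ∨ x - y ∈ E := by
  obtain ⟨c, hc, H⟩ := Pool.Agent.N646.AC.removal (e / 2) (half_pos he)
  refine ⟨c, hc, ?_⟩
  intro L hL X Y hX hY
  classical
  have : NeZero (2 * L) := ⟨by omega⟩
  have hL' : (1 : ℤ) ≤ L := by exact_mod_cast hL
  set φ : ℤ → ZMod (2 * L) := fun a => (a : ZMod (2 * L)) with hφ
  set D : Finset (ZMod (2 * L)) :=
    ((Ico (-(L : ℤ)) L).filter (fun h => 2 * c * L ≤ (rep X Y h : ℝ))).image φ with hD
  have hXi : ∀ x ∈ X, 0 ≤ x ∧ x < L := fun x hx => by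
    have := hX hx
    rwa [mem_Ico] at this
  have hYi : ∀ x ∈ Y, 0 ≤ x ∧ x < L := fun x hx => by
    have := hY hx
    rwa [mem_Ico] at this
  set S : Finset (ℤ × ℤ) := (Y ×ˢ X).filter (fun p => (rep X Y (p.2 - p.1) : ℝ) < 2 * c * L) with hS
  have hcS : (S.card : ℝ) ≤ 4 * c * (L : ℝ) ^ 2 := by
    have hmaps : ∀ p ∈ S, p.2 - p.1 ∈ Ico (-(L : ℤ)) L := by
      intro p hp
      rw [hS, mem_filter, mem_product] at hp
      have h1 := hYi _ hp.1.1
      have h2 := hXi _ hp.1.2
      rw [mem_Ico]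
      omega
    rw [card_eq_sum_card_fiberwise hmaps]
    push_cast
    have h1 : ∀ h ∈ Ico (-(L : ℤ)) L, ((S.filter (fun p => p.2 - p.1 = h)).card : ℝ) ≤ 2 * c * L := by
      intro h _
      rcases (S.filter (fun p => p.2 - p.1 = h)).eq_empty_or_nonempty with h0 | ⟨p0, hp0⟩
      · rw [h0, card_empty, Nat.cast_zero]
        positivity
      · rw [mem_filter, hS, mem_filter] at hp0
        have h2 : (rep X Y h : ℝ) < 2 * c * L := by
          rw [← hp0.2]
          exact hp0.1.2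
        have h3 : (S.filter (fun p => p.2 - p.1 = h)).card ≤ rep X Y h := by
          unfold rep
          apply card_le_card_of_injOn (fun p => p.1)
          · intro p hp
            rw [mem_coe, mem_filter, hS, mem_filter, mem_product] at hp
            rw [mem_coe, mem_filter]
            refine ⟨hp.1.1.1, ?_⟩
            rw [← hp.2]
            have : p.1 + (p.2 - p.1) = p.2 := by ring
            rw [this]
            exact hp.1.1.2
          · intro p hp p' hp' hpp
            rw [mem_coe, mem_filter] at hp hp'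
            have h4 : p.1 = p'.1 := hpp
            have h5 : p.2 = p'.2 := by
              have := hp.2.trans hp'.2.symm
              omega
            exact Prod.ext h4 h5
        exact (by exact_mod_cast h3 : ((S.filter (fun p => p.2 - p.1 = h)).card : ℝ) ≤ rep X Y h).trans h2.le
    refine (sum_le_sum h1).trans ?_
    rw [sum_const, Int.card_Ico, nsmul_eq_mul]
    have h2 : ((L : ℤ) - -(L : ℤ)).toNat = 2 * L := by omega
    rw [h2]
    push_cast
    apply le_of_eq
    ring
  have hfew : ((((Y.image φ) ×ˢ (X.image φ)).filter (fun p => p.2 - p.1 ∉ D)).card : ℝ) ≤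
      c * (Fintype.card (ZMod (2 * L)) : ℝ) ^ 2 := by
    rw [ZMod.card]
    have h1 : (((Y.image φ) ×ˢ (X.image φ)).filter (fun p => p.2 - p.1 ∉ D)).card ≤ S.card := by
      have h2 : ((Y.image φ) ×ˢ (X.image φ)).filter (fun p => p.2 - p.1 ∉ D) ⊆
          S.image (fun p => (φ p.1, φ p.2)) := by
        rintro ⟨a, b⟩ hp
        rw [mem_filter, mem_product, mem_image, mem_image] at hp
        obtain ⟨⟨⟨y, hy, rfl⟩, ⟨x, hx, rfl⟩⟩, h3⟩ := hp
        rw [mem_image]
        refine ⟨(y, x), ?_, rfl⟩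
        rw [hS, mem_filter, mem_product]
        refine ⟨⟨hy, hx⟩, ?_⟩
        by_contra h4
        push Not at h4
        apply h3
        rw [hD, mem_image]
        refine ⟨x - y, ?_, ?_⟩
        · rw [mem_filter, mem_Ico]
          have h5 := hXi x hx
          have h6 := hYi y hy
          exact ⟨by omega, h4⟩
        · simp only [hφ]
          push_cast
          ring
      exact (card_le_card h2).trans card_image_le
    have h1' : ((((Y.image φ) ×ˢ (X.image φ)).filter (fun p => p.2 - p.1 ∉ D)).card : ℝ) ≤ S.card := by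
      exact_mod_cast h1
    refine h1'.trans (hcS.trans (le_of_eq ?_))
    push_cast
    ring
  obtain ⟨Y1, hY1, X1, hX1, E1, hcY, hcX, hcE, hall⟩ := H (ZMod (2 * L)) (Y.image φ) (X.image φ) D hfew
  rw [ZMod.card] at hcY hcX hcE
  have e2L : e / 2 * ((2 * L : ℕ) : ℝ) = e * L := by push_cast; ring
  rw [e2L] at hcY hcX hcE
  have hinj : ∀ a b : ℤ, 0 ≤ a → a < L → 0 ≤ b → b < L → φ a = φ b → a = b := by
    intro a b h1 h2 h3 h4 h5
    exact cast_inj h5 (by rw [abs_lt]; omega)
  refine ⟨X.filter (fun x => φ x ∈ X1), filter_subset _ _, Y.filter (fun y => φ y ∈ Y1), filter_subset _ _,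
    (Ico (-(L : ℤ)) L).filter (fun h => φ h ∈ E1), ?_, ?_, ?_, ?_⟩
  · refine le_trans ?_ hcX
    have : (X \ X.filter (fun x => φ x ∈ X1)).card ≤ (X.image φ \ X1).card := by
      apply card_le_card_of_injOn φ
      · intro x hx
        rw [mem_coe, mem_sdiff, mem_filter] at hx
        rw [mem_coe, mem_sdiff]
        exact ⟨mem_image_of_mem φ hx.1, fun h => hx.2 ⟨hx.1, h⟩⟩
      · intro a ha b hb hab
        rw [mem_coe, mem_sdiff] at ha hb
        have h1 := hXi a ha.1
        have h2 := hXi b hb.1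
        exact hinj a b h1.1 h1.2 h2.1 h2.2 hab
    exact_mod_cast this
  · refine le_trans ?_ hcY
    have : (Y \ Y.filter (fun x => φ x ∈ Y1)).card ≤ (Y.image φ \ Y1).card := by
      apply card_le_card_of_injOn φ
      · intro x hx
        rw [mem_coe, mem_sdiff, mem_filter] at hx
        rw [mem_coe, mem_sdiff]
        exact ⟨mem_image_of_mem φ hx.1, fun h => hx.2 ⟨hx.1, h⟩⟩
      · intro a ha b hb hab
        rw [mem_coe, mem_sdiff] at ha hb
        have h1 := hYi a ha.1
        have h2 := hYi b hb.1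
        exact hinj a b h1.1 h1.2 h2.1 h2.2 hab
    exact_mod_cast this
  · refine le_trans ?_ hcE
    have : ((Ico (-(L : ℤ)) L).filter (fun h => φ h ∈ E1)).card ≤ E1.card := by
      apply card_le_card_of_injOn φ
      · intro x hx
        rw [mem_coe, mem_filter] at hx
        exact hx.2
      · intro a ha b hb hab
        rw [mem_coe, mem_filter, mem_Ico] at ha hb
        exact cast_inj hab (by rw [abs_lt]; omega)
    exact_mod_cast this
  · intro x hx y hy
    rw [mem_filter] at hx hy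
    have h1 := hXi x hx.1
    have h2 := hYi y hy.1
    have h3 : φ x - φ y = φ (x - y) := by
      simp only [hφ]
      push_cast
      ring
    rcases hall (φ y) hy.2 (φ x) hx.2 with h | h
    · left
      rw [h3, hD, mem_image] at h
      obtain ⟨h', hh, he'⟩ := h
      rw [mem_filter, mem_Ico] at hh
      have h4 : h' = x - y := cast_inj he' (by rw [abs_lt]; omega)
      rw [← h4]
      exact hh.2
    · right
      rw [h3] at h
      rw [mem_filter, mem_Ico]
      exact ⟨by omega, h⟩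

/-- the count of the differences in the windows -/
theorem core (hKW : S_KW) {β ε : ℝ} (hβ : 0 < β) (hβ1 : β ≤ 1) (hε : 0 < ε) (hε1 : ε ≤ 1) {m₁ : ℕ}
    (hm₁ : 1 ≤ m₁) (hm₁ε : 8 ≤ ε * m₁) {L T m w q : ℕ} (hL : 1 ≤ L) (hq : 1 ≤ q) (hqT : q ≤ 2 * T)
    (hTL : 2 * T ≤ L) (hm : 1 ≤ m) (hm₀ : m₁.factorial ∣ m) (hw : 1 ≤ w)
    (hwq : (w : ℝ) ≤ ε / 32 * q) {X Y X' : Finset ℤ}
    (hY : Y ⊆ Ico 0 ((L : ℤ) - 2 * T)) (hY0 : Y.Nonempty) (hE : Equi m w β X L)
    (ha : 0 ≤ min 1 ((Y.card : ℝ) / L + β) - 3 * ε / 16) :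
    (min 1 ((Y.card : ℝ) / L + β) - 3 * ε / 16) * T - q - 128 * m₁ / (ε * β) * ((X \ X').card : ℝ) ≤
      (((Ico 0 (T : ℤ)).filter (fun z => z ∈ (X' ×ˢ Y).image (fun p => p.1 - p.2) ∨
        z - q ∈ (X' ×ˢ Y).image (fun p => p.1 - p.2))).card : ℝ) := by
  obtain ⟨v, hv0, hvL, hvB⟩ := tile hq hqT hTL hY hY0
  set a : ℝ := min 1 ((Y.card : ℝ) / L + β) - 3 * ε / 16 with hadef
  set D := (X' ×ˢ Y).image (fun p => p.1 - p.2) with hD
  set W := (Ico 0 (T : ℤ)).filter (fun z => z ∈ D ∨ z - q ∈ D) with hW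
  set B := Y.filter (fun y => v ≤ y ∧ y < v + q) with hB
  have hL' : (0 : ℝ) < L := by exact_mod_cast hL
  have hq' : (0 : ℝ) < q := by exact_mod_cast hq
  have hm₁' : (0 : ℝ) < m₁ := by exact_mod_cast hm₁
  have hBc : (Y.card : ℝ) / L * q ≤ B.card := by
    rw [div_mul_eq_mul_div, div_le_iff₀ hL', mul_comm (B.card : ℝ)]
    exact hvB
  have hB0 : B.Nonempty := by
    rw [← card_pos]
    have hY0' : (0 : ℝ) < Y.card := by exact_mod_cast card_pos.2 hY0
    have : (0 : ℝ) < B.card := lt_of_lt_of_le (by positivity) hBc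
    exact_mod_cast this
  have ha1 : a ≤ 1 := by
    have : min 1 ((Y.card : ℝ) / L + β) ≤ 1 := min_le_left _ _
    linarith
  set J := T / q with hJ
  have hJq : J * q ≤ T := Nat.div_mul_le_self _ _
  have hJq2 : T < J * q + q := Nat.lt_div_mul_add (by omega)
  have hJq' : (J : ℤ) * q ≤ T := by exact_mod_cast hJq
  set x : ℕ → ℝ := fun j =>
    (((X \ X').filter (fun x => v + j * q ≤ x ∧ x < v + j * q + q)).card : ℝ) with hx
  have key : ∀ j ∈ range J, a * q - 128 * m₁ / (ε * β) * x j ≤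
      ((W.filter (fun z => 0 + (j : ℤ) * q ≤ z ∧ z < 0 + (j : ℤ) * q + q)).card : ℝ) := by
    intro j hj
    rw [mem_range] at hj
    have hjJ : ((j : ℤ) + 1) * q ≤ J * q := by
      apply mul_le_mul_of_nonneg_right _ (Nat.cast_nonneg q)
      exact_mod_cast hj
    have hj0 : (0 : ℤ) ≤ j * q := by positivity
    by_cases hgood : x j < ε * β * q / (128 * m₁)
    · have hx0 : 0 ≤ x j := by simp only [hx]; positivity
      set A := X'.filter (fun x => v + j * q ≤ x ∧ x < v + j * q + q) with hA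
      have hcl : ∀ d : ℕ, 1 ≤ d → d ≤ m₁ → ∀ r : ℤ, ∃ x ∈ A, x ≡ r [ZMOD d] := by
        intro d hd1 hd2 r
        by_contra hcon
        push Not at hcon
        have h1 := eq3 hβ.le hE hm hw ((Nat.dvd_factorial hd1 hd2).trans hm₀) (v + j * q) r (by linarith) q
          (by linarith)
        have h2 : ((X.filter (fun x => v + j * q ≤ x ∧ x < v + j * q + q ∧ x ≡ r [ZMOD d])).card : ℝ) ≤ x j := by
          simp only [hx]
          have : X.filter (fun x => v + j * q ≤ x ∧ x < v + j * q + q ∧ x ≡ r [ZMOD d]) ⊆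
              (X \ X').filter (fun x => v + j * q ≤ x ∧ x < v + j * q + q) := by
            intro t ht
            rw [mem_filter] at ht ⊢
            refine ⟨mem_sdiff.2 ⟨ht.1, fun h => ?_⟩, ht.2.1, ht.2.2.1⟩
            exact hcon t (by rw [hA, mem_filter]; exact ⟨h, ht.2.1, ht.2.2.1⟩) ht.2.2.2
          exact_mod_cast card_le_card this
        have hd0 : (0 : ℝ) ≤ d := Nat.cast_nonneg d
        have hd2' : (d : ℝ) ≤ m₁ := by exact_mod_cast hd2
        have h3 : (d : ℝ) * ((X.filter (fun x => v + j * q ≤ x ∧ x < v + j * q + q ∧ x ≡ r [ZMOD d])).card : ℝ) ≤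
            m₁ * x j := mul_le_mul hd2' h2 (Nat.cast_nonneg _) hm₁'.le
        have h4 : (m₁ : ℝ) * x j < ε * β * q / 128 := by
          rw [lt_div_iff₀ (by positivity)] at hgood
          rw [lt_div_iff₀ (by positivity)]
          linarith
        have h5 : β * ((q : ℝ) - w) ≥ β * q * (31 / 32) := by
          have : (w : ℝ) ≤ 1 / 32 * q := hwq.trans (by nlinarith)
          nlinarith
        have h6 : ε * β * q ≤ β * q := by
          have : ε * (β * q) ≤ 1 * (β * q) := mul_le_mul_of_nonneg_right hε1 (by positivity)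
          linarith
        have h7 : 0 < β * q := by positivity
        linarith
      have hAc : (β - ε / 16) * q ≤ A.card := by
        have h1 := eq3 hβ.le hE hm hw (one_dvd m) (v + j * q) 0 (by linarith) q (by linarith)
        rw [Nat.cast_one, one_mul] at h1
        have h2 : ((X.filter (fun x => v + j * q ≤ x ∧ x < v + j * q + q ∧ x ≡ 0 [ZMOD ((1 : ℕ) : ℤ)])).card : ℝ) ≤
            A.card + x j := by
          simp only [hx]
          have : X.filter (fun x => v + j * q ≤ x ∧ x < v + j * q + q ∧ x ≡ 0 [ZMOD ((1 : ℕ) : ℤ)]) ⊆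
              A ∪ (X \ X').filter (fun x => v + j * q ≤ x ∧ x < v + j * q + q) := by
            intro t ht
            rw [mem_filter] at ht
            rw [mem_union, hA, mem_filter, mem_filter, mem_sdiff]
            by_cases htX : t ∈ X'
            · exact Or.inl ⟨htX, ht.2.1, ht.2.2.1⟩
            · exact Or.inr ⟨⟨ht.1, htX⟩, ht.2.1, ht.2.2.1⟩
          exact_mod_cast (card_le_card this).trans (card_union_le _ _)
        have h4 : x j < ε * q / 128 := by
          refine hgood.trans_le ?_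
          rw [div_le_div_iff₀ (by positivity) (by positivity)]
          have h5 : (1 : ℝ) ≤ m₁ := by exact_mod_cast hm₁
          have h6 : β * 1 ≤ 1 * (m₁ : ℝ) := mul_le_mul hβ1 h5 zero_le_one zero_le_one
          have h7 : 0 < ε * q * 128 := by positivity
          nlinarith
        have h5 : β * (w : ℝ) ≤ 1 * (ε / 32 * q) := mul_le_mul hβ1 hwq (Nat.cast_nonneg _) zero_le_one
        have h6 : 0 < ε * q := by positivity
        nlinarith
      have hKW' := hKW m₁ q hm₁ hq (v + j * q) v A B D (fun t ht => (mem_filter.1 ht).2)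
        (fun t ht => (mem_filter.1 ht).2) hB0 hcl (fun t ht s hs => by
          rw [hD, mem_image]
          exact ⟨(t, s), mem_product.2 ⟨(mem_filter.1 ht).1, (mem_filter.1 hs).1⟩, rfl⟩)
      have hsub : (Ico (v + j * q - v) (v + j * q - v + q)).filter (fun z => z ∈ D ∨ z - q ∈ D) ⊆
          W.filter (fun z => 0 + (j : ℤ) * q ≤ z ∧ z < 0 + (j : ℤ) * q + q) := by
        intro z hz
        rw [mem_filter, mem_Ico] at hz
        rw [mem_filter, hW, mem_filter, mem_Ico]
        refine ⟨⟨⟨by linarith [hz.1.1], by linarith [hz.1.2]⟩, hz.2⟩, by linarith [hz.1.1], by linarith [hz.1.2]⟩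
      have h1 : min (q : ℝ) (A.card + B.card - q / m₁) ≤
          ((W.filter (fun z => 0 + (j : ℤ) * q ≤ z ∧ z < 0 + (j : ℤ) * q + q)).card : ℝ) :=
        hKW'.trans (by exact_mod_cast card_le_card hsub)
      have h2 : a * q ≤ min (q : ℝ) (A.card + B.card - q / m₁) := by
        apply le_min
        · nlinarith
        · have h3 : (q : ℝ) / m₁ ≤ ε / 8 * q := by
            rw [div_le_iff₀ hm₁']
            have : 0 ≤ (ε * m₁ - 8) * q := mul_nonneg (by linarith) hq'.le
            nlinarith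
          have h4 : a ≤ (Y.card : ℝ) / L + β - 3 * ε / 16 := by
            have : min 1 ((Y.card : ℝ) / L + β) ≤ (Y.card : ℝ) / L + β := min_le_right _ _
            linarith
          have h5 : a * q ≤ ((Y.card : ℝ) / L + β - 3 * ε / 16) * q := mul_le_mul_of_nonneg_right h4 hq'.le
          have h6 : ((Y.card : ℝ) / L + β - 3 * ε / 16) * q =
              (Y.card : ℝ) / L * q + (β - ε / 16) * q - ε / 8 * q := by ring
          linarith
      have h3 : 0 ≤ 128 * m₁ / (ε * β) * x j := by positivity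
      linarith
    · push Not at hgood
      have h1 : (q : ℝ) ≤ 128 * m₁ / (ε * β) * x j := by
        rw [div_le_iff₀ (by positivity)] at hgood
        rw [div_mul_eq_mul_div, le_div_iff₀ (by positivity)]
        linarith
      have h2 : a * q ≤ q := by nlinarith
      have h3 : (0 : ℝ) ≤ ((W.filter (fun z => 0 + (j : ℤ) * q ≤ z ∧ z < 0 + (j : ℤ) * q + q)).card : ℝ) :=
        Nat.cast_nonneg _
      linarith
  have hsum := sum_le_sum key
  rw [sum_sub_distrib, sum_const, card_range, nsmul_eq_mul, ← mul_sum] at hsum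
  have h1 : ∑ j ∈ range J, ((W.filter (fun z => 0 + (j : ℤ) * q ≤ z ∧ z < 0 + (j : ℤ) * q + q)).card : ℝ) ≤
      W.card := by exact_mod_cast tile_sum W 0 q J
  have h2 : ∑ j ∈ range J, x j ≤ ((X \ X').card : ℝ) := by
    simp only [hx]
    exact_mod_cast tile_sum (X \ X') v q J
  have h3 : 128 * m₁ / (ε * β) * ∑ j ∈ range J, x j ≤ 128 * m₁ / (ε * β) * ((X \ X').card : ℝ) :=
    mul_le_mul_of_nonneg_left h2 (by positivity)
  have h4 : (T : ℝ) ≤ J * q + q := by exact_mod_cast hJq2.le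
  have h5 : a * T ≤ a * (J * q + q) := mul_le_mul_of_nonneg_left h4 ha
  have h6 : a * q ≤ q := by nlinarith
  have h7 : (J : ℝ) * (a * q) = a * (J * q) := by ring
  nlinarith

theorem main (hKW : S_KW) (hPER : S_PER) : S_K2 := by
  intro β ε₀ c₁ τ hβ hβ1 hε₀ hc₁ hτ
  obtain ⟨ε, hε, hε1, hεε₀⟩ : ∃ ε : ℝ, 0 < ε ∧ ε ≤ 1 ∧ ε ≤ ε₀ :=
    ⟨min ε₀ 1, lt_min hε₀ one_pos, min_le_right _ _, min_le_left _ _⟩
  obtain ⟨m₁, hm₁⟩ : ∃ m₁ : ℕ, 8 / ε ≤ m₁ := exists_nat_ge _
  have hm₁0 : (0 : ℝ) < m₁ := lt_of_lt_of_le (by positivity) hm₁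
  have hm₁1 : 1 ≤ m₁ := by
    have : 0 < m₁ := by exact_mod_cast hm₁0
    exact this
  have hm₁ε : 8 ≤ ε * m₁ := by
    rw [div_le_iff₀ hε] at hm₁
    linarith
  set Cθ : ℝ := 128 * m₁ / (ε * β) with hCθdef
  have hCθ : 0 < Cθ := by positivity
  obtain ⟨eR, heR, heR1, heR2, heR3⟩ : ∃ eR : ℝ, 0 < eR ∧ eR < c₁ ∧ eR ≤ ε / 16 ∧
      eR * (Cθ + 2) ≤ ε * τ / 8 := by
    refine ⟨min (c₁ / 2) (min (ε / 16) (ε * τ / 8 / (Cθ + 2))), ?_, ?_, ?_, ?_⟩
    · exact lt_min (by positivity) (lt_min (by positivity) (by positivity))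
    · exact (min_le_left _ _).trans_lt (by linarith)
    · exact (min_le_right _ _).trans (min_le_left _ _)
    · rw [← le_div_iff₀ (by positivity)]
      exact (min_le_right _ _).trans (min_le_right _ _)
  obtain ⟨c₂, hc₂, hrem⟩ := rem eR heR
  have hκ : 0 < min c₂ (ε * τ / 8) := lt_min hc₂ (by positivity)
  have hρ : 0 < min 1 (ε * τ / 16) := lt_min one_pos (by positivity)
  obtain ⟨δ, hδ, n₁, hper⟩ := hPER (min c₂ (ε * τ / 8)) (min 1 (ε * τ / 16)) hκ hρ (min_le_left _ _)
  set κ := min c₂ (ε * τ / 8) with hκdef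
  have hκ1 : κ ≤ c₂ := min_le_left _ _
  have hκ2 : κ ≤ ε * τ / 8 := min_le_right _ _
  refine ⟨m₁.factorial, Nat.factorial_pos _, ε / 32 * δ, c₂, by positivity, hc₂, max 1 n₁, ?_⟩
  intro L T hL hTL hTL2 m w hm hm₀ hw hwL X Y hX hY hYc hE
  have hL1 : 1 ≤ L := (le_max_left _ _).trans hL
  have hLn : n₁ ≤ L := (le_max_right _ _).trans hL
  have hL' : (0 : ℝ) < L := by exact_mod_cast hL1
  have hT0 : (0 : ℝ) < T := lt_of_lt_of_le (by positivity) hTL
  have hYL : Y ⊆ Ico 0 (L : ℤ) := hY.trans (Ico_subset_Ico_right (by linarith [Nat.cast_nonneg (α := ℤ) T]))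
  obtain ⟨X', hX', Y', hY', E, hXc, hYc', hEc, hall⟩ := hrem L hL1 X Y hX hYL
  obtain ⟨q, hq1, hq2, hE'⟩ := hper L hLn X Y hX hYL
  set E' := (Ico (-(L : ℤ)) L).filter (fun h => κ * L ≤ |(rep X Y (h + q) : ℝ) - rep X Y h|) with hE'def
  have hq0' : (0 : ℝ) < q := lt_of_lt_of_le (by positivity) hq1
  have hq0 : 1 ≤ q := by
    have : 0 < q := by exact_mod_cast hq0'
    exact this
  have hqL : (q : ℝ) ≤ L := by
    refine hq2.trans ?_
    calc min 1 (ε * τ / 16) * (L : ℝ) ≤ 1 * L := mul_le_mul_of_nonneg_right (min_le_left _ _) hL'.le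
      _ = L := one_mul _
  have hqT' : (q : ℝ) ≤ ε / 16 * T := by
    refine hq2.trans ?_
    calc min 1 (ε * τ / 16) * (L : ℝ) ≤ (ε * τ / 16) * L := mul_le_mul_of_nonneg_right (min_le_right _ _) hL'.le
      _ = ε / 16 * (τ * L) := by ring
      _ ≤ _ := mul_le_mul_of_nonneg_left hTL (by positivity)
  have hqT : q ≤ 2 * T := by
    have : (q : ℝ) ≤ 2 * T := by
      refine hqT'.trans ?_
      exact mul_le_mul_of_nonneg_right (by linarith) hT0.le
    exact_mod_cast this
  have hwq : (w : ℝ) ≤ ε / 32 * q := by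
    refine hwL.trans ?_
    rw [mul_assoc]
    exact mul_le_mul_of_nonneg_left hq1 (by positivity)
  have hYY : (Y.card : ℝ) ≤ Y'.card + eR * L := by
    have h1 : (Y \ Y').card + Y'.card = Y.card := card_sdiff_add_card_eq_card hY'
    have h2 : ((Y \ Y').card : ℝ) + Y'.card = Y.card := by exact_mod_cast h1
    linarith
  have hY'0 : Y'.Nonempty := by
    rw [← card_pos]
    have : (0 : ℝ) < Y'.card := by
      have : 0 < (c₁ - eR) * L := mul_pos (by linarith) hL'
      linarith
    exact_mod_cast this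
  set S := (Ico 0 (T : ℤ)).filter (fun h => c₂ * L ≤ (rep X Y h : ℝ)) with hS
  set M := min 1 ((Y.card : ℝ) / L + β) with hMdef
  have hM1 : M ≤ 1 := min_le_left _ _
  have hS0 : (0 : ℝ) ≤ S.card := Nat.cast_nonneg _
  have hgoal : (M - ε₀) * T ≤ (M - ε) * T := mul_le_mul_of_nonneg_right (by linarith) hT0.le
  refine hgoal.trans ?_
  by_cases hM : M ≤ ε
  · have : (M - ε) * T ≤ 0 := mul_nonpos_of_nonpos_of_nonneg (by linarith) hT0.le
    linarith
  · push Not at hM
    have hYd : (Y.card : ℝ) / L - eR ≤ (Y'.card : ℝ) / L := by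
      rw [le_div_iff₀ hL', sub_mul, div_mul_cancel₀ _ hL'.ne']
      linarith
    have hM' : M - eR ≤ min 1 ((Y'.card : ℝ) / L + β) := by
      apply le_min
      · linarith
      · have : M ≤ (Y.card : ℝ) / L + β := min_le_right _ _
        linarith
    have hcore := core hKW hβ hβ1 hε hε1 hm₁1 hm₁ε hL1 hq0 hqT hTL2 hm hm₀ hw hwq (X' := X')
      (hY'.trans hY) hY'0 hE (by linarith)
    rw [← hCθdef] at hcore
    set D := (X' ×ˢ Y').image (fun p => p.1 - p.2) with hD
    have hDm : ∀ z ∈ D, 2 * c₂ * L ≤ (rep X Y z : ℝ) ∨ z ∈ E := by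
      intro z hz
      rw [hD, mem_image] at hz
      obtain ⟨p, hp, rfl⟩ := hz
      rw [mem_product] at hp
      exact hall _ hp.1 _ hp.2
    have hsub : (Ico 0 (T : ℤ)).filter (fun z => z ∈ D ∨ z - q ∈ D) ⊆
        ((S ∪ E) ∪ E.image (fun z => z + (q : ℤ))) ∪ E'.image (fun z => z + (q : ℤ)) := by
      intro z hz
      rw [mem_filter] at hz
      rw [mem_union, mem_union, mem_union, mem_image, mem_image]
      have hc₂L : 0 < c₂ * L := by positivity
      rcases hz.2 with h | h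
      · rcases hDm z h with h1 | h1
        · left; left; left
          rw [hS, mem_filter]
          exact ⟨hz.1, by linarith⟩
        · left; left; right
          exact h1
      · rcases hDm _ h with h1 | h1
        · by_cases h2 : z - q ∈ E'
          · right
            exact ⟨z - q, h2, by ring⟩
          · left; left; left
            rw [hS, mem_filter]
            refine ⟨hz.1, ?_⟩
            rw [hE'def, mem_filter, mem_Ico] at h2
            rw [mem_Ico] at hz
            have hqL' : (q : ℤ) ≤ L := by exact_mod_cast hqL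
            have hTL3 : (2 * T : ℤ) ≤ L := by exact_mod_cast hTL2
            have h3 : -(L : ℤ) ≤ z - q ∧ z - q < L := by
              constructor
              · linarith [hz.1.1]
              · have : (0 : ℤ) ≤ q := Nat.cast_nonneg q
                have h0 : (0 : ℤ) ≤ T := Nat.cast_nonneg T
                linarith [hz.1.2]
            have h4 : ¬ (κ * L ≤ |(rep X Y (z - q + q) : ℝ) - rep X Y (z - q)|) := fun h5 => h2 ⟨h3, h5⟩
            push Not at h4
            rw [sub_add_cancel] at h4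
            have h5 := (abs_lt.1 h4).1
            have h6 : κ * L ≤ c₂ * L := mul_le_mul_of_nonneg_right hκ1 hL'.le
            linarith
        · left; right
          exact ⟨z - q, h1, by ring⟩
    have hcount : (((Ico 0 (T : ℤ)).filter (fun z => z ∈ D ∨ z - q ∈ D)).card : ℝ) ≤
        S.card + E.card + E.card + E'.card := by
      have h1 := card_le_card hsub
      have h2 := card_union_le ((S ∪ E) ∪ E.image (fun z => z + (q : ℤ))) (E'.image (fun z => z + (q : ℤ)))
      have h3 := card_union_le (S ∪ E) (E.image (fun z => z + (q : ℤ)))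
      have h4 := card_union_le S E
      have h5 : (E.image (fun z => z + (q : ℤ))).card ≤ E.card := card_image_le
      have h6 : (E'.image (fun z => z + (q : ℤ))).card ≤ E'.card := card_image_le
      have h7 : ((Ico 0 (T : ℤ)).filter (fun z => z ∈ D ∨ z - q ∈ D)).card ≤
        S.card + E.card + E.card + E'.card := by omega
      exact_mod_cast h7
    have hLT : (L : ℝ) * τ ≤ T := by linarith
    have t1 : κ * L ≤ ε / 8 * T := by
      calc κ * L ≤ (ε * τ / 8) * L := mul_le_mul_of_nonneg_right hκ2 hL'.le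
        _ = ε / 8 * (L * τ) := by ring
        _ ≤ _ := mul_le_mul_of_nonneg_left hLT (by positivity)
    have t2 : eR * (Cθ + 2) * L ≤ ε / 8 * T := by
      calc eR * (Cθ + 2) * L ≤ (ε * τ / 8) * L := mul_le_mul_of_nonneg_right heR3 hL'.le
        _ = ε / 8 * (L * τ) := by ring
        _ ≤ _ := mul_le_mul_of_nonneg_left hLT (by positivity)
    have t3 : Cθ * ((X \ X').card : ℝ) ≤ Cθ * (eR * L) := mul_le_mul_of_nonneg_left hXc hCθ.le
    have t4 : (M - eR - 3 * ε / 16) * T ≤
        (min 1 ((Y'.card : ℝ) / L + β) - 3 * ε / 16) * T := mul_le_mul_of_nonneg_right (by linarith) hT0.le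
    have t5 : eR * T ≤ ε / 16 * T := mul_le_mul_of_nonneg_right heR2 hT0.le
    have t6 : eR * (Cθ + 2) * L = Cθ * (eR * L) + 2 * (eR * L) := by ring
    have t7 : 0 < ε * T := by positivity
    nlinarith

end Pool.Agent.N348.BX
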