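import Mathlib

set_option autoImplicit false

namespace Pool.Agent.N348.DA

open Finset Nat

/-- `σ(j) / j` -/
noncomputable def f (j : ℕ) : ℚ := ((ArithmeticFunction.sigma 1 j : ℕ) : ℚ) / j

theorem f_nonneg (j : ℕ) : 0 ≤ f j := by unfold f; positivity

theorem f_eq {j : ℕ} (hj : 0 < j) : f j = ∑ d ∈ j.divisors, (1 : ℚ) / d := by
  have hj' : (j : ℚ) ≠ 0 := by positivity
  unfold f
  rw [div_eq_iff hj', Finset.sum_mul, ArithmeticFunction.sigma_one_apply]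
  push_cast
  rw [← Nat.sum_div_divisors j (fun d => (d : ℚ))]
  apply Finset.sum_congr rfl
  intro d hd
  have hd1 := Nat.dvd_of_mem_divisors hd
  have hd0 : (d : ℚ) ≠ 0 := by
    have := Nat.pos_of_mem_divisors hd
    positivity
  rw [Nat.cast_div hd1 hd0]
  field_simp

theorem one_le_f {j : ℕ} (hj : 0 < j) : 1 ≤ f j := by
  rw [f_eq hj]
  have h : (1 : ℚ) / ((1 : ℕ) : ℚ) ≤ ∑ d ∈ j.divisors, (1 : ℚ) / d :=
    Finset.single_le_sum (f := fun d : ℕ => (1 : ℚ) / d) (fun d _ => by positivity)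
      (Nat.one_mem_divisors.2 hj.ne')
  simpa using h

/-- partial sums over small divisors are at most the harmonic number -/
theorem sum_le_harmonic (D : Finset ℕ) (hD : ∀ d ∈ D, 0 < d) (e : ℕ) :
    ∑ d ∈ D.filter (· ≤ e), (1 : ℚ) / d ≤ harmonic e := by
  rw [harmonic_eq_sum_Icc]
  have : ∀ i : ℕ, ((i : ℚ))⁻¹ = 1 / i := fun i => by rw [one_div]
  simp only [this]
  apply Finset.sum_le_sum_of_subset_of_nonneg
  · intro d hd
    rw [Finset.mem_filter] at hd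
    rw [Finset.mem_Icc]
    exact ⟨hD d hd.1, hd.2⟩
  · intro i _ _
    positivity

theorem f_sq {j : ℕ} (hj : 0 < j) :
    f j ^ 2 ≤ ∑ e ∈ j.divisors, 2 * (harmonic e / e) := by
  have hpos : ∀ d ∈ j.divisors, 0 < d := fun d hd => Nat.pos_of_mem_divisors hd
  rw [f_eq hj, sq, Finset.sum_mul_sum]
  have h1 : ∀ d ∈ j.divisors, ∀ e ∈ j.divisors, (1 : ℚ) / d * (1 / e) ≤
      (if d ≤ e then (1 : ℚ) / d * (1 / e) else 0) + (if e ≤ d then (1 : ℚ) / d * (1 / e) else 0) := by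
    intro d _ e _
    have h0 : (0 : ℚ) ≤ 1 / d * (1 / e) := by positivity
    rcases le_total d e with h | h
    · rw [if_pos h]
      split_ifs <;> linarith
    · rw [if_pos h]
      split_ifs <;> linarith
  have h2 : ∑ d ∈ j.divisors, ∑ e ∈ j.divisors, (1 : ℚ) / d * (1 / e) ≤
      ∑ d ∈ j.divisors, ∑ e ∈ j.divisors, ((if d ≤ e then (1 : ℚ) / d * (1 / e) else 0) +
        (if e ≤ d then (1 : ℚ) / d * (1 / e) else 0)) :=
    Finset.sum_le_sum fun d hd => Finset.sum_le_sum fun e he => h1 d hd e he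
  refine h2.trans ?_
  simp only [Finset.sum_add_distrib]
  have h3 : ∑ d ∈ j.divisors, ∑ e ∈ j.divisors, (if d ≤ e then (1 : ℚ) / d * (1 / e) else 0) =
      ∑ e ∈ j.divisors, ∑ d ∈ j.divisors, (if d ≤ e then (1 : ℚ) / d * (1 / e) else 0) :=
    Finset.sum_comm
  rw [h3]
  have h4 : ∀ e ∈ j.divisors, ∑ d ∈ j.divisors, (if d ≤ e then (1 : ℚ) / d * (1 / e) else 0) ≤
      harmonic e / e := by
    intro e he
    rw [← Finset.sum_filter, ← Finset.sum_mul, div_eq_mul_one_div (harmonic e) (e : ℚ)]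
    exact mul_le_mul_of_nonneg_right (sum_le_harmonic _ hpos e) (by positivity)
  have h5 : ∀ e ∈ j.divisors, ∑ d ∈ j.divisors, (if d ≤ e then (1 : ℚ) / e * (1 / d) else 0) ≤
      harmonic e / e := by
    intro e he
    refine le_trans (le_of_eq ?_) (h4 e he)
    apply Finset.sum_congr rfl
    intro d _
    rw [mul_comm]
  calc _ ≤ ∑ e ∈ j.divisors, harmonic e / e + ∑ e ∈ j.divisors, harmonic e / e :=
        add_le_add (Finset.sum_le_sum h4) (Finset.sum_le_sum h5)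
    _ = ∑ e ∈ j.divisors, 2 * (harmonic e / e) := by rw [← Finset.mul_sum]; ring

theorem sum_div_swap (n : ℕ) (g : ℕ → ℚ) (hg : ∀ e, 0 ≤ g e) :
    ∑ j ∈ Ioc 0 n, ∑ e ∈ j.divisors, g e ≤ n * ∑ e ∈ Ioc 0 n, g e / e := by
  have h1 : ∀ j ∈ Ioc 0 n, ∑ e ∈ j.divisors, g e = ∑ e ∈ Ioc 0 n, if e ∣ j then g e else 0 := by
    intro j hj
    rw [Finset.mem_Ioc] at hj
    rw [← Finset.sum_filter]
    apply Finset.sum_congr _ (fun _ _ => rfl)
    ext e
    rw [Nat.mem_divisors, Finset.mem_filter, Finset.mem_Ioc]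
    constructor
    · rintro ⟨h, _⟩
      exact ⟨⟨Nat.pos_of_dvd_of_pos h hj.1, (Nat.le_of_dvd hj.1 h).trans hj.2⟩, h⟩
    · rintro ⟨_, h⟩
      exact ⟨h, by omega⟩
  rw [Finset.sum_congr rfl h1, Finset.sum_comm, Finset.mul_sum]
  apply Finset.sum_le_sum
  intro e he
  rw [← Finset.sum_filter, Finset.sum_const, Nat.Ioc_filter_dvd_card_eq_div, nsmul_eq_mul]
  have h2 : ((n / e : ℕ) : ℚ) ≤ (n : ℚ) / e := Nat.cast_div_le
  calc ((n / e : ℕ) : ℚ) * g e ≤ (n : ℚ) / e * g e := mul_le_mul_of_nonneg_right h2 (hg e)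
    _ = n * (g e / e) := by ring

theorem harmonic_nonneg (e : ℕ) : 0 ≤ harmonic e := by
  unfold harmonic
  exact Finset.sum_nonneg fun i _ => by positivity

theorem sum_harmonic (n : ℕ) : ∑ e ∈ Ioc 0 (n + 1), harmonic e / e / e + (harmonic (n + 1) + 2) / (n + 1)
    ≤ 4 := by
  induction n with
  | zero =>
    have h : Ioc 0 (0 + 1) = {1} := rfl
    have h1 : harmonic 1 = 1 := by simp [harmonic]
    rw [h, Finset.sum_singleton, zero_add, h1]
    norm_num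
  | succ n ih =>
    rw [Finset.sum_Ioc_succ_top (by omega)]
    have h1 : harmonic (n + 1 + 1) = harmonic (n + 1) + 1 / ((n : ℚ) + 2) := by
      rw [harmonic_succ]; push_cast; rw [one_div]; ring_nf
    have h2 : harmonic (n + 1 + 1) / ((n + 1 + 1 : ℕ) : ℚ) / ((n + 1 + 1 : ℕ) : ℚ) +
        (harmonic (n + 1 + 1) + 2) / (((n + 1 : ℕ) : ℚ) + 1) ≤ (harmonic (n + 1) + 2) / ((n : ℚ) + 1) := by
      rw [h1]
      push_cast
      have hh := harmonic_nonneg (n + 1)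
      set h := harmonic (n + 1)
      have hn : (0 : ℚ) ≤ n := Nat.cast_nonneg n
      have e1 : (h + 2) / ((n : ℚ) + 1) - ((h + 1 / ((n : ℚ) + 2)) / ((n : ℚ) + 1 + 1) / ((n : ℚ) + 1 + 1)
          + (h + 1 / ((n : ℚ) + 2) + 2) / ((n : ℚ) + 1 + 1)) =
          (h * (n + 2) + (n + 2) ^ 2 + 1) / (((n : ℚ) + 1) * (n + 2) ^ 3) := by
        have a1 : (n : ℚ) + 1 ≠ 0 := by positivity
        have a2 : (n : ℚ) + 2 ≠ 0 := by positivity
        have a3 : (n : ℚ) + 1 + 1 ≠ 0 := by positivity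
        have a4 : (n : ℚ) + 1 + 1 = n + 2 := by ring
        rw [a4]
        field_simp
        ring
      have e2 : 0 ≤ (h * (n + 2) + (n + 2) ^ 2 + 1) / (((n : ℚ) + 1) * (n + 2) ^ 3) := by positivity
      linarith
    linarith

theorem sum_f_sq (n : ℕ) : ∑ j ∈ Ioc 0 n, f j ^ 2 ≤ 8 * n := by
  rcases n with _ | n
  · simp
  have h1 : ∑ j ∈ Ioc 0 (n + 1), f j ^ 2 ≤
      ∑ j ∈ Ioc 0 (n + 1), ∑ e ∈ j.divisors, 2 * (harmonic e / e) :=
    Finset.sum_le_sum fun j hj => f_sq (Finset.mem_Ioc.1 hj).1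
  have h2 := sum_div_swap (n + 1) (fun e => 2 * (harmonic e / e)) (fun e => by
    have := harmonic_nonneg e
    positivity)
  have h3 := sum_harmonic n
  have h4 : 0 ≤ (harmonic (n + 1) + 2) / ((n : ℚ) + 1) := by
    have := harmonic_nonneg (n + 1)
    positivity
  have h5 : ∑ e ∈ Ioc 0 (n + 1), 2 * (harmonic e / (e : ℚ)) / e =
      2 * ∑ e ∈ Ioc 0 (n + 1), harmonic e / (e : ℚ) / e := by
    rw [Finset.mul_sum]
    exact Finset.sum_congr rfl fun e _ => by ring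
  rw [h5] at h2
  have hn : (0 : ℚ) ≤ ((n + 1 : ℕ) : ℚ) := Nat.cast_nonneg _
  calc _ ≤ _ := h1
    _ ≤ _ := h2
    _ ≤ ((n + 1 : ℕ) : ℚ) * (2 * 4) := by
        apply mul_le_mul_of_nonneg_left _ hn
        linarith
    _ = 8 * ((n + 1 : ℕ) : ℚ) := by ring

end Pool.Agent.N348.DA
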