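import Pool.Agent.N348.DA

set_option autoImplicit false

namespace Pool.Agent.N348.DA

open Finset Nat

theorem shift {M : Type*} [AddCommMonoid M] (g : ℕ → M) (n : ℕ) :
    ∑ j ∈ Finset.range n, g (j + 1) = ∑ j ∈ Finset.Icc 1 n, g j := by
  induction n with
  | zero => simp
  | succ n ih => rw [Finset.sum_range_succ, Finset.sum_Icc_succ_top (by omega), ih]

theorem Icc_eq_Ioc (n : ℕ) : Finset.Icc 1 n = Finset.Ioc 0 n := by
  ext j; simp only [Finset.mem_Icc, Finset.mem_Ioc]; omega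

/-- the recursion of the D'Arcais polynomials -/
def Rec (P : ℕ → Polynomial ℚ) : Prop :=
  P 0 = 1 ∧ ∀ n : ℕ, 1 ≤ n → (n : Polynomial ℚ) * P n =
    Polynomial.X * ∑ k ∈ Finset.Icc 1 n, ((ArithmeticFunction.sigma 1 k : ℕ) : Polynomial ℚ) * P (n - k)

/-- the D'Arcais polynomials -/
noncomputable def D : ℕ → Polynomial ℚ
  | 0 => 1
  | (n + 1) => Polynomial.C (1 / ((n : ℚ) + 1)) * (Polynomial.X *
      ∑ k : Fin (n + 1), ((ArithmeticFunction.sigma 1 (k.1 + 1) : ℕ) : Polynomial ℚ) * D (n - k.1))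
termination_by n => n
decreasing_by omega

theorem D_rec : Rec D := by
  refine ⟨by rw [D], ?_⟩
  intro n hn
  obtain ⟨m, rfl⟩ : ∃ m, n = m + 1 := ⟨n - 1, by omega⟩
  rw [D, ← mul_assoc]
  have h1 : ((m + 1 : ℕ) : Polynomial ℚ) * Polynomial.C (1 / ((m : ℚ) + 1)) = 1 := by
    have : ((m + 1 : ℕ) : Polynomial ℚ) = Polynomial.C ((m : ℚ) + 1) := by
      rw [← Polynomial.C_eq_natCast]; push_cast; rfl
    rw [this, ← Polynomial.C_mul, mul_one_div_cancel (by positivity), Polynomial.C_1]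
  rw [h1, one_mul]
  congr 1
  rw [Fin.sum_univ_eq_sum_range (fun k => ((ArithmeticFunction.sigma 1 (k + 1) : ℕ) : Polynomial ℚ) * D (m - k))]
  rw [← shift (fun k => ((ArithmeticFunction.sigma 1 k : ℕ) : Polynomial ℚ) * D (m + 1 - k)) (m + 1)]
  apply Finset.sum_congr rfl
  intro k _
  congr 2
  omega

section
variable {P : ℕ → Polynomial ℚ} (hP : Rec P)
include hP

theorem coeff_zero_pos {n : ℕ} (hn : 1 ≤ n) : (P n).coeff 0 = 0 := by
  have h := congrArg (fun p => Polynomial.coeff p 0) (hP.2 n hn)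
  simp only [Polynomial.mul_coeff_zero, Polynomial.coeff_X_zero, zero_mul] at h
  rw [Polynomial.natCast_coeff_zero] at h
  have h0 : (n : ℚ) ≠ 0 := by positivity
  exact (mul_eq_zero.1 h).resolve_left h0

theorem coeff_zero_eq (n : ℕ) : (P n).coeff 0 = if n = 0 then 1 else 0 := by
  split_ifs with h
  · rw [h, hP.1]; simp
  · exact coeff_zero_pos hP (by omega)

theorem coeff_succ {n : ℕ} (hn : 1 ≤ n) (k : ℕ) :
    (n : ℚ) * (P n).coeff (k + 1) =
      ∑ j ∈ Finset.Icc 1 n, ((ArithmeticFunction.sigma 1 j : ℕ) : ℚ) * (P (n - j)).coeff k := by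
  have h := congrArg (fun p => Polynomial.coeff p (k + 1)) (hP.2 n hn)
  simp only [Polynomial.coeff_X_mul, Polynomial.finsetSum_coeff] at h
  rw [← Polynomial.C_eq_natCast, Polynomial.coeff_C_mul] at h
  rw [h]
  apply Finset.sum_congr rfl
  intro j _
  rw [← Polynomial.C_eq_natCast, Polynomial.coeff_C_mul]

theorem coeff_of_zero (k : ℕ) : (P 0).coeff (k + 1) = 0 := by
  rw [hP.1, Polynomial.coeff_one]
  simp

theorem coeff_one (n : ℕ) : (P n).coeff 1 = f n := by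
  rcases n with _ | n
  · rw [coeff_of_zero hP]; simp [f]
  · have h := coeff_succ hP (n := n + 1) (by omega) 0
    rw [Finset.sum_eq_single (n + 1)] at h
    · rw [coeff_zero_eq hP] at h
      simp only [Nat.sub_self, if_true, mul_one, zero_add] at h
      unfold f
      rw [eq_div_iff (by positivity), mul_comm, h]
    · intro j hj hne
      rw [Finset.mem_Icc] at hj
      rw [coeff_zero_eq hP, if_neg (by omega), mul_zero]
    · intro h'
      exact absurd (Finset.mem_Icc.2 ⟨by omega, le_refl _⟩) h'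

theorem sigma_eq {j : ℕ} (hj : 0 < j) : ((ArithmeticFunction.sigma 1 j : ℕ) : ℚ) = j * f j := by
  unfold f
  field_simp

theorem le_sigma {j : ℕ} (hj : 0 < j) : (j : ℚ) ≤ ((ArithmeticFunction.sigma 1 j : ℕ) : ℚ) := by
  rw [sigma_eq hP hj]
  have h1 := one_le_f hj
  have h2 : (0 : ℚ) ≤ j := Nat.cast_nonneg j
  nlinarith

/-- upper bound for the second coefficient -/
theorem coeff_two_le (n : ℕ) : (P n).coeff 2 ≤ 8 * n := by
  rcases n with _ | n
  · rw [coeff_of_zero hP]; simp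
  · have h := coeff_succ hP (n := n + 1) (by omega) 1
    have hn : (0 : ℚ) < ((n + 1 : ℕ) : ℚ) := by positivity
    have h1 : ∑ j ∈ Finset.Icc 1 (n + 1), ((ArithmeticFunction.sigma 1 j : ℕ) : ℚ) * (P (n + 1 - j)).coeff 1 ≤
        ∑ j ∈ Finset.Icc 1 (n + 1), ((n + 1 : ℕ) : ℚ) * ((f j ^ 2 + f (n + 1 - j) ^ 2) / 2) := by
      apply Finset.sum_le_sum
      intro j hj
      rw [Finset.mem_Icc] at hj
      rw [coeff_one hP, sigma_eq hP hj.1, mul_assoc]
      have hj2 : (j : ℚ) ≤ ((n + 1 : ℕ) : ℚ) := by exact_mod_cast hj.2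
      have e1 : f j * f (n + 1 - j) ≤ (f j ^ 2 + f (n + 1 - j) ^ 2) / 2 := by
        nlinarith [sq_nonneg (f j - f (n + 1 - j))]
      have e0 : 0 ≤ f j * f (n + 1 - j) := mul_nonneg (f_nonneg _) (f_nonneg _)
      calc (j : ℚ) * (f j * f (n + 1 - j)) ≤ ((n + 1 : ℕ) : ℚ) * (f j * f (n + 1 - j)) :=
            mul_le_mul_of_nonneg_right hj2 e0
        _ ≤ _ := mul_le_mul_of_nonneg_left e1 hn.le
    rw [← Finset.mul_sum] at h1
    have h2 : ∑ j ∈ Finset.Icc 1 (n + 1), (f j ^ 2 + f (n + 1 - j) ^ 2) / 2 ≤ 8 * ((n + 1 : ℕ) : ℚ) := by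
      have e2 : ∑ j ∈ Finset.Icc 1 (n + 1), f j ^ 2 = ∑ j ∈ Finset.Ioc 0 (n + 1), f j ^ 2 := by
        apply Finset.sum_congr _ (fun _ _ => rfl)
        ext j; simp only [Finset.mem_Icc, Finset.mem_Ioc]; omega
      have e3 : ∑ j ∈ Finset.Icc 1 (n + 1), f (n + 1 - j) ^ 2 ≤ ∑ j ∈ Finset.Ioc 0 (n + 1), f j ^ 2 := by
        have e4 : ∑ j ∈ Finset.Icc 1 (n + 1), f (n + 1 - j) ^ 2 = ∑ j ∈ Finset.range (n + 1), f j ^ 2 := by
          apply Finset.sum_bij' (fun j _ => n + 1 - j) (fun j _ => n + 1 - j)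
          · intro j hj; rw [Finset.mem_Icc] at hj; rw [Finset.mem_range]; omega
          · intro j hj; rw [Finset.mem_range] at hj; rw [Finset.mem_Icc]; omega
          · intro j hj; rw [Finset.mem_Icc] at hj; omega
          · intro j hj; rw [Finset.mem_range] at hj; omega
          · intro j hj; rfl
        have e5 : f 0 = 0 := by simp [f]
        rw [e4, Finset.sum_range_succ', e5]
        have e6 : ∑ j ∈ Finset.range n, f (j + 1) ^ 2 ≤ ∑ j ∈ Finset.range (n + 1), f (j + 1) ^ 2 :=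
          Finset.sum_le_sum_of_subset_of_nonneg (Finset.range_mono (by omega)) (fun _ _ _ => sq_nonneg _)
        have e7 : ∑ j ∈ Finset.range (n + 1), f (j + 1) ^ 2 = ∑ j ∈ Finset.Ioc 0 (n + 1), f j ^ 2 := by
          rw [shift (fun j => f j ^ 2), Icc_eq_Ioc]
        rw [← e7]
        simpa using e6
      have e8 := sum_f_sq (n + 1)
      rw [← Finset.sum_div, Finset.sum_add_distrib, e2]
      linarith
    have h3 : ((n + 1 : ℕ) : ℚ) * (P (n + 1)).coeff (1 + 1) ≤ ((n + 1 : ℕ) : ℚ) * (8 * ((n + 1 : ℕ) : ℚ)) := by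
      rw [h]
      exact h1.trans (mul_le_mul_of_nonneg_left h2 hn.le)
    exact le_of_mul_le_mul_left h3 hn

theorem le_coeff_two (n : ℕ) : ((n : ℚ) - 1) / 2 ≤ (P n).coeff 2 := by
  rcases n with _ | n
  · rw [coeff_of_zero hP]; norm_num
  · have h := coeff_succ hP (n := n + 1) (by omega) 1
    have hn : (0 : ℚ) < ((n + 1 : ℕ) : ℚ) := by positivity
    have h1 : ∑ j ∈ Finset.range (n + 1), (j : ℚ) ≤
        ∑ j ∈ Finset.Icc 1 (n + 1), ((ArithmeticFunction.sigma 1 j : ℕ) : ℚ) * (P (n + 1 - j)).coeff 1 := by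
      have e1 : ∑ j ∈ Finset.range (n + 1), (j : ℚ) = ∑ j ∈ Finset.Icc 1 n, (j : ℚ) := by
        rw [Finset.sum_range_succ']
        simp only [Nat.cast_zero, add_zero]
        exact shift (fun j => (j : ℚ)) n
      rw [e1, Finset.sum_Icc_succ_top (by omega)]
      have e2 : 0 ≤ ((ArithmeticFunction.sigma 1 (n + 1) : ℕ) : ℚ) * (P (n + 1 - (n + 1))).coeff 1 := by
        rw [coeff_one hP]
        exact mul_nonneg (Nat.cast_nonneg _) (f_nonneg _)
      have e3 : ∑ j ∈ Finset.Icc 1 n, (j : ℚ) ≤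
          ∑ j ∈ Finset.Icc 1 n, ((ArithmeticFunction.sigma 1 j : ℕ) : ℚ) * (P (n + 1 - j)).coeff 1 := by
        apply Finset.sum_le_sum
        intro j hj
        rw [Finset.mem_Icc] at hj
        rw [coeff_one hP]
        have e4 := one_le_f (j := n + 1 - j) (by omega)
        have e5 := le_sigma hP (j := j) (by omega)
        have e6 : (0 : ℚ) ≤ ((ArithmeticFunction.sigma 1 j : ℕ) : ℚ) := Nat.cast_nonneg _
        nlinarith
      linarith
    have h2 : ∑ j ∈ Finset.range (n + 1), (j : ℚ) = ((n + 1 : ℕ) : ℚ) * ((((n + 1 : ℕ) : ℚ) - 1) / 2) := by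
      clear h h1 hn
      induction n with
      | zero => simp
      | succ n ih => rw [Finset.sum_range_succ, ih]; push_cast; ring
    rw [h2, ← h] at h1
    exact le_of_mul_le_mul_left h1 hn

theorem le_coeff_three (n : ℕ) (hn1 : 1 ≤ n) : ((n : ℚ) - 1) * (n - 2) / 12 ≤ (P n).coeff 3 := by
  obtain ⟨n, rfl⟩ : ∃ m, n = m + 1 := ⟨n - 1, by omega⟩
  have h := coeff_succ hP (n := n + 1) (by omega) 2
  have hn : (0 : ℚ) < ((n + 1 : ℕ) : ℚ) := by positivity
  have h1 : ∑ j ∈ Finset.range (n + 1), (j : ℚ) * (((n + 1 - j : ℕ) : ℚ) - 1) / 2 ≤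
      ∑ j ∈ Finset.Icc 1 (n + 1), ((ArithmeticFunction.sigma 1 j : ℕ) : ℚ) * (P (n + 1 - j)).coeff 2 := by
    have e1 : ∑ j ∈ Finset.range (n + 1), (j : ℚ) * (((n + 1 - j : ℕ) : ℚ) - 1) / 2 =
        ∑ j ∈ Finset.Icc 1 n, (j : ℚ) * (((n + 1 - j : ℕ) : ℚ) - 1) / 2 := by
      rw [Finset.sum_range_succ']
      simp only [Nat.cast_zero, add_zero, zero_mul, zero_div]
      exact shift (fun j => (j : ℚ) * (((n + 1 - j : ℕ) : ℚ) - 1) / 2) n
    rw [e1, Finset.sum_Icc_succ_top (by omega), Nat.sub_self, coeff_of_zero hP, mul_zero, add_zero]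
    apply Finset.sum_le_sum
    intro j hj
    rw [Finset.mem_Icc] at hj
    have e4 := le_coeff_two hP (n + 1 - j)
    have e5 := le_sigma hP (j := j) (by omega)
    have e6 : (0 : ℚ) ≤ (j : ℚ) := Nat.cast_nonneg _
    have e7 : (0 : ℚ) ≤ (((n + 1 - j : ℕ) : ℚ) - 1) / 2 := by
      have : (1 : ℚ) ≤ ((n + 1 - j : ℕ) : ℚ) := by
        exact_mod_cast (by omega : 1 ≤ n + 1 - j)
      linarith
    calc (j : ℚ) * (((n + 1 - j : ℕ) : ℚ) - 1) / 2 = (j : ℚ) * ((((n + 1 - j : ℕ) : ℚ) - 1) / 2) := by ring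
      _ ≤ ((ArithmeticFunction.sigma 1 j : ℕ) : ℚ) * ((((n + 1 - j : ℕ) : ℚ) - 1) / 2) :=
        mul_le_mul_of_nonneg_right e5 e7
      _ ≤ _ := mul_le_mul_of_nonneg_left e4 (e6.trans e5)
  have h2 : ∑ j ∈ Finset.range (n + 1), (j : ℚ) * (((n + 1 - j : ℕ) : ℚ) - 1) / 2 =
      ((n + 1 : ℕ) : ℚ) * ((((n + 1 : ℕ) : ℚ) - 1) * (((n + 1 : ℕ) : ℚ) - 2) / 12) := by
    have e1 : ∑ j ∈ Finset.range (n + 1), (j : ℚ) * (((n + 1 - j : ℕ) : ℚ) - 1) / 2 =
        ∑ j ∈ Finset.range (n + 1), ((n : ℚ) / 2 * j - (j : ℚ) ^ 2 / 2) := by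
      apply Finset.sum_congr rfl
      intro j hj
      rw [Finset.mem_range] at hj
      rw [Nat.cast_sub (by omega)]
      push_cast
      ring
    have e2 : ∀ m : ℕ, ∑ j ∈ Finset.range (m + 1), (j : ℚ) = m * (m + 1) / 2 := by
      intro m
      induction m with
      | zero => simp
      | succ m ih => rw [Finset.sum_range_succ, ih]; push_cast; ring
    have e3 : ∀ m : ℕ, ∑ j ∈ Finset.range (m + 1), (j : ℚ) ^ 2 = m * (m + 1) * (2 * m + 1) / 6 := by
      intro m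
      induction m with
      | zero => simp
      | succ m ih => rw [Finset.sum_range_succ, ih]; push_cast; ring
    rw [e1, Finset.sum_sub_distrib, ← Finset.mul_sum, ← Finset.sum_div, e2, e3]
    push_cast
    ring
  rw [h2, ← h] at h1
  exact le_of_mul_le_mul_left h1 hn

end

theorem harmonic_le_f (N : ℕ) : harmonic N ≤ f (N !) := by
  rw [f_eq (Nat.factorial_pos N), harmonic_eq_sum_Icc]
  have : ∀ i : ℕ, ((i : ℚ))⁻¹ = 1 / i := fun i => by rw [one_div]
  simp only [this]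
  apply Finset.sum_le_sum_of_subset_of_nonneg
  · intro d hd
    rw [Finset.mem_Icc] at hd
    rw [Nat.mem_divisors]
    exact ⟨Nat.dvd_factorial hd.1 hd.2, (Nat.factorial_pos N).ne'⟩
  · intro i _ _
    positivity

theorem exists_harmonic (B : ℚ) : ∃ N : ℕ, 4 ≤ N ∧ B < harmonic N := by
  obtain ⟨N, hN⟩ := exists_nat_ge (Real.exp ((B : ℝ) + 1))
  refine ⟨N + 4, by omega, ?_⟩
  have h1 := log_add_one_le_harmonic (N + 4)
  have h2 : (B : ℝ) + 1 ≤ Real.log (((N + 4 : ℕ) : ℝ) + 1) := by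
    rw [Real.le_log_iff_exp_le (by positivity)]
    refine hN.trans ?_
    push_cast
    linarith
  have h3 : (B : ℝ) < ((harmonic (N + 4) : ℚ) : ℝ) := by
    have : Real.log (((N + 4 : ℕ) : ℝ) + 1) ≤ ((harmonic (N + 4) : ℚ) : ℝ) := by
      simpa using h1
    linarith
  exact_mod_cast h3

/-- log-concavity of the D'Arcais polynomials fails at `k = 2` for suitable `n` -/
theorem main (P : ℕ → Polynomial ℚ) (hP : Rec P) :
    ∃ n : ℕ, (P n).coeff 2 ^ 2 < (P n).coeff 1 * (P n).coeff 3 := by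
  obtain ⟨N, hN4, hN⟩ := exists_harmonic 2048
  refine ⟨N !, ?_⟩
  have hn4 : 4 ≤ N ! := hN4.trans (Nat.self_le_factorial N)
  set n := N ! with hn
  have h1 := coeff_one hP n
  have h2 := coeff_two_le hP n
  have h2' := le_coeff_two hP n
  have h3 := le_coeff_three hP n (by omega)
  have h4 := harmonic_le_f N
  rw [← hn] at h4
  have h5 : (4 : ℚ) ≤ n := by exact_mod_cast hn4
  have h6 : 2048 < f n := lt_of_lt_of_le hN h4
  rw [h1]
  have h7 : (0 : ℚ) ≤ (P n).coeff 2 := by linarith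
  have h8 : (P n).coeff 2 ^ 2 ≤ (8 * n) ^ 2 := pow_le_pow_left₀ h7 h2 2
  have h9 : (n : ℚ) ^ 2 / 32 ≤ ((n : ℚ) - 1) * (n - 2) / 12 := by nlinarith
  have h10 : (0 : ℚ) < (n : ℚ) ^ 2 / 32 := by positivity
  calc (P n).coeff 2 ^ 2 ≤ (8 * n) ^ 2 := h8
    _ = 2048 * ((n : ℚ) ^ 2 / 32) := by ring
    _ < f n * ((n : ℚ) ^ 2 / 32) := mul_lt_mul_of_pos_right h6 h10
    _ ≤ f n * (P n).coeff 3 := mul_le_mul_of_nonneg_left (h9.trans h3) (f_nonneg n)

end Pool.Agent.N348.DA
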