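import Mathlib

set_option autoImplicit false

namespace Pool.Agent.N348.EI

open Equiv Finset Nat

/-- the number of permutations fixing every point of `s` -/
theorem card_fix {α : Type*} [Fintype α] [DecidableEq α] (s : Finset α) :
    (univ.filter (fun σ : Perm α => ∀ a ∈ s, σ a = a)).card = (Fintype.card α - s.card)! := by
  classical
  have h := Fintype.card_congr (Equiv.Perm.subtypeEquivSubtypePerm (fun a : α => a ∉ s))
  rw [Fintype.card_perm, Fintype.card_subtype_compl, Fintype.card_coe] at h
  rw [h, Fintype.card_subtype]
  congr 1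
  ext f
  simp

/-- the number of permutations agreeing with `π` on `s` -/
theorem card_agree {α : Type*} [Fintype α] [DecidableEq α] (s : Finset α) (π : Perm α) :
    (univ.filter (fun σ : Perm α => ∀ a ∈ s, σ a = π a)).card = (Fintype.card α - s.card)! := by
  classical
  rw [← card_fix s]
  refine Finset.card_bij (fun σ _ => π⁻¹ * σ) ?_ ?_ ?_
  · intro σ hσ
    simp only [mem_filter, mem_univ, true_and] at hσ ⊢
    intro a ha
    simp [hσ a ha]
  · intro σ _ τ _ h
    exact mul_left_cancel h
  · intro τ hτ
    simp only [mem_filter, mem_univ, true_and] at hτ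
    refine ⟨π * τ, ?_, by simp⟩
    simp only [mem_filter, mem_univ, true_and]
    intro a ha
    simp [hτ a ha]

/-- a weak form of Bonferroni's inequality -/
theorem bonferroni {ι β : Type*} [DecidableEq ι] [DecidableEq β] (S : ι → Finset β) (s t : ℕ)
    (Q : Finset ι) (h1 : ∀ p ∈ Q, s ≤ (S p).card)
    (h2 : ∀ p ∈ Q, ∀ q ∈ Q, p ≠ q → (S p ∩ S q).card ≤ t) :
    Q.card * s ≤ (Q.biUnion S).card + Q.card * Q.card * t := by
  induction Q using Finset.induction_on with
  | empty => simp
  | insert a Q ha ih =>
    have ih' := ih (fun p hp => h1 p (mem_insert_of_mem hp))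
      (fun p hp q hq hpq => h2 p (mem_insert_of_mem hp) q (mem_insert_of_mem hq) hpq)
    rw [card_insert_of_notMem ha, biUnion_insert]
    have h3 : (S a ∪ Q.biUnion S).card + (S a ∩ Q.biUnion S).card =
        (S a).card + (Q.biUnion S).card := card_union_add_card_inter _ _
    have h4 : (S a ∩ Q.biUnion S).card ≤ Q.card * t := by
      rw [inter_biUnion]
      refine card_biUnion_le_card_mul _ _ _ ?_
      intro q hq
      exact h2 a (mem_insert_self _ _) q (mem_insert_of_mem hq) (by rintro rfl; exact ha hq)
    have h5 := h1 a (mem_insert_self _ _)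
    nlinarith

end Pool.Agent.N348.EI
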