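import Pool.Agent.N348.EI

set_option autoImplicit false

namespace Pool.Agent.N348.EI

open Equiv Finset Nat

variable {m : ℕ}

/-- the permutations fixing `b` -/
def D (m : ℕ) (b : Fin (m + 3)) : Finset (Perm (Fin (m + 3))) := univ.filter (fun σ => σ b = b)

/-- the permutations exchanging `0` and `1` -/
def X (m : ℕ) : Finset (Perm (Fin (m + 3))) := univ.filter (fun σ => σ 0 = 1 ∧ σ 1 = 0)

/-- the set of the counterexample -/
def A (m : ℕ) : Finset (Perm (Fin (m + 3))) :=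
  univ.filter (fun σ => σ 0 ≠ 0 ∧ σ 1 ≠ 1 ∧ ¬ (σ 0 = 1 ∧ σ 1 = 0))

theorem zero_ne_one' : (0 : Fin (m + 3)) ≠ 1 := by
  intro h
  have := congrArg Fin.val h
  simp at this

theorem card_D (b : Fin (m + 3)) : (D m b).card = (m + 2)! := by
  have h := card_fix ({b} : Finset (Fin (m + 3)))
  rw [card_singleton, Fintype.card_fin] at h
  rw [show m + 2 = m + 3 - 1 by omega, ← h]
  unfold D
  congr 1
  ext σ
  simp

theorem card_two (i j b c : Fin (m + 3)) (hib : i ≠ b) (π : Perm (Fin (m + 3)))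
    (h1 : π b = c) (h2 : π i = j) :
    (univ.filter (fun σ : Perm (Fin (m + 3)) => σ b = c ∧ σ i = j)).card = (m + 1)! := by
  have h := card_agree ({b, i} : Finset (Fin (m + 3))) π
  rw [Finset.card_pair (Ne.symm hib), Fintype.card_fin] at h
  rw [show m + 1 = m + 3 - 2 by omega, ← h]
  congr 1
  ext σ
  simp [h1, h2]

theorem card_D_inter (b i j : Fin (m + 3)) (hi : i ≠ b) (hj : j ≠ b) :
    (univ.filter (fun σ : Perm (Fin (m + 3)) => σ b = b ∧ σ i = j)).card = (m + 1)! :=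
  card_two i j b b hi (swap i j) (swap_apply_of_ne_of_ne (Ne.symm hi) (Ne.symm hj))
    (swap_apply_left i j)

theorem card_X : (X m).card = (m + 1)! :=
  card_two 1 0 0 1 zero_ne_one'.symm (swap 0 1) (swap_apply_left _ _) (swap_apply_right _ _)

theorem card_triple (b i j k l : Fin (m + 3)) (hi : i ≠ b) (hk : k ≠ b)
    (h : (i, j) ≠ (k, l)) :
    (univ.filter (fun σ : Perm (Fin (m + 3)) => σ b = b ∧ σ i = j) ∩
      univ.filter (fun σ : Perm (Fin (m + 3)) => σ b = b ∧ σ k = l)).card ≤ m ! := by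
  rcases (univ.filter (fun σ : Perm (Fin (m + 3)) => σ b = b ∧ σ i = j) ∩
      univ.filter (fun σ : Perm (Fin (m + 3)) => σ b = b ∧ σ k = l)).eq_empty_or_nonempty with h0 | h0
  · rw [h0]; simp
  · obtain ⟨π, hπ⟩ := h0
    simp only [mem_inter, mem_filter, mem_univ, true_and] at hπ
    obtain ⟨⟨hb, h1⟩, -, h2⟩ := hπ
    have hik : i ≠ k := by
      rintro rfl
      exact h (by rw [← h1, ← h2])
    have hc : ({b, i, k} : Finset (Fin (m + 3))).card = 3 := by
      rw [card_insert_of_notMem, Finset.card_pair hik]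
      simp [Ne.symm hi, Ne.symm hk]
    have hh := card_agree ({b, i, k} : Finset (Fin (m + 3))) π
    rw [hc, Fintype.card_fin, show m + 3 - 3 = m by omega] at hh
    rw [← hh]
    apply card_le_card
    intro σ hσ
    simp only [mem_inter, mem_filter, mem_univ, true_and] at hσ
    simp [hσ.1.1, hσ.1.2, hσ.2.2, hb, h1, h2]

theorem card_A : (A m).card = (m + 1) * (m + 2)! := by
  have hA : A m = univ \ ((D m 0 ∪ D m 1) ∪ X m) := by
    ext σ
    simp only [A, D, X, mem_filter, mem_univ, true_and, mem_sdiff, mem_union, not_or]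
    tauto
  have hdisj : Disjoint (D m 0 ∪ D m 1) (X m) := by
    rw [Finset.disjoint_left]
    intro σ h1 h2
    simp only [D, X, mem_filter, mem_univ, true_and, mem_union] at h1 h2
    rcases h1 with h1 | h1
    · rw [h2.1] at h1; exact zero_ne_one' h1.symm
    · rw [h2.2] at h1; exact zero_ne_one' h1
  have h01 : D m 0 ∩ D m 1 = univ.filter (fun σ : Perm (Fin (m + 3)) => σ 0 = 0 ∧ σ 1 = 1) := by
    ext σ
    simp [D]
  have h1 : (D m 0 ∪ D m 1).card + (m + 1)! = (m + 2)! + (m + 2)! := by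
    have := card_union_add_card_inter (D m 0) (D m 1)
    rwa [card_D, card_D, h01, card_D_inter 0 1 1 zero_ne_one'.symm zero_ne_one'.symm] at this
  have h2 : ((D m 0 ∪ D m 1) ∪ X m).card = (m + 2)! + (m + 2)! := by
    rw [card_union_of_disjoint hdisj, card_X]
    omega
  have h3 : (A m).card + ((D m 0 ∪ D m 1) ∪ X m).card = (m + 3)! := by
    rw [hA, card_sdiff_add_card_eq_card (subset_univ _), Finset.card_univ, Fintype.card_perm,
      Fintype.card_fin]
  have h4 : (m + 3)! = (m + 3) * (m + 2)! := rfl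
  rw [h2, h4] at h3
  nlinarith

/-- the union of the cosets given by `P` -/
def U (m : ℕ) (P : Finset (Fin (m + 3) × Fin (m + 3))) : Finset (Perm (Fin (m + 3))) :=
  univ.filter (fun σ : Perm (Fin (m + 3)) => ∃ p ∈ P, σ p.1 = p.2)

/-- many cells off the row and the column of `b` give a large union inside `D b` -/
theorem union_large (b : Fin (m + 3)) (P : Finset (Fin (m + 3) × Fin (m + 3))) (q : ℕ)
    (hq : q ≤ (P.filter (fun p => p.1 ≠ b ∧ p.2 ≠ b)).card) :
    q * (m + 1)! ≤ (U m P ∩ D m b).card + q * q * m ! := by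
  obtain ⟨Q, hQ, hQc⟩ := exists_subset_card_eq hq
  have hQ' : ∀ p ∈ Q, p ∈ P ∧ p.1 ≠ b ∧ p.2 ≠ b := by
    intro p hp
    have := hQ hp
    simpa using this
  have h := bonferroni (fun p : Fin (m + 3) × Fin (m + 3) =>
    univ.filter (fun σ : Perm (Fin (m + 3)) => σ b = b ∧ σ p.1 = p.2)) (m + 1)! (m !) Q
    (fun p hp => (card_D_inter b p.1 p.2 (hQ' p hp).2.1 (hQ' p hp).2.2).ge)
    (fun p hp p' hp' hne => card_triple b p.1 p.2 p'.1 p'.2 (hQ' p hp).2.1 (hQ' p' hp').2.1
      (by simpa using hne))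
  rw [hQc] at h
  refine h.trans (Nat.add_le_add_right (card_le_card ?_) _)
  intro σ hσ
  simp only [mem_biUnion, mem_filter, mem_univ, true_and] at hσ
  obtain ⟨p, hp, h1, h2⟩ := hσ
  simp only [U, D, mem_inter, mem_filter, mem_univ, true_and]
  exact ⟨⟨p, (hQ' p hp).1, h2⟩, h1⟩

/-- Every union of `m + 1` cosets is far from `A`. -/
theorem symmDiff_large (P : Finset (Fin (m + 3) × Fin (m + 3))) (hP : P.card = m + 1) (q : ℕ)
    (hq : 2 * q + 1 ≤ m) (hq2 : q * q ≤ m + 1) :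
    (q - 1) * (m + 1)! ≤ (symmDiff (A m) (U m P)).card := by
  have key : ∀ b : Fin (m + 3), (b = 0 ∨ b = 1) →
      (U m P ∩ D m b).card ≤ (symmDiff (A m) (U m P)).card := by
    intro b hb
    apply card_le_card
    intro σ hσ
    simp only [mem_inter, D, mem_filter, mem_univ, true_and] at hσ
    rw [mem_symmDiff]
    refine Or.inr ⟨hσ.1, ?_⟩
    simp only [A, mem_filter, mem_univ, true_and, not_and]
    rcases hb with rfl | rfl
    · intro h; exact absurd hσ.2 h
    · intro _ h; exact absurd hσ.2 h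
  have hfac : (m + 2)! = (m + 2) * (m + 1)! := rfl
  have hfac1 : (m + 1)! = (m + 1) * m ! := rfl
  have full : ∀ b : Fin (m + 3), (b, b) ∈ P → (m + 2)! ≤ (U m P ∩ D m b).card := by
    intro b hb
    rw [← card_D b]
    apply card_le_card
    intro σ hσ
    simp only [mem_inter, U, D, mem_filter, mem_univ, true_and] at hσ ⊢
    exact ⟨⟨(b, b), hb, hσ⟩, hσ⟩
  have big : ∀ b : Fin (m + 3), (b = 0 ∨ b = 1) →
      q ≤ (P.filter (fun p => p.1 ≠ b ∧ p.2 ≠ b)).card →
      (q - 1) * (m + 1)! ≤ (symmDiff (A m) (U m P)).card := by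
    intro b hb hc
    have h1 := union_large b P q hc
    have h2 := key b hb
    have h3 : q * q * m ! ≤ (m + 1)! := by
      rw [hfac1]; exact Nat.mul_le_mul_right _ hq2
    have h4 : (q - 1) * (m + 1)! = q * (m + 1)! - (m + 1)! := by
      rw [Nat.sub_mul, one_mul]
    rw [h4]
    omega
  by_cases h0 : ((0 : Fin (m + 3)), (0 : Fin (m + 3))) ∈ P
  · have h1 := (full 0 h0).trans (key 0 (Or.inl rfl))
    refine le_trans ?_ h1
    rw [hfac]
    exact Nat.mul_le_mul_right _ (by omega)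
  by_cases h1 : ((1 : Fin (m + 3)), (1 : Fin (m + 3))) ∈ P
  · have h2 := (full 1 h1).trans (key 1 (Or.inr rfl))
    refine le_trans ?_ h2
    rw [hfac]
    exact Nat.mul_le_mul_right _ (by omega)
  by_cases hc0 : q ≤ (P.filter (fun p => p.1 ≠ 0 ∧ p.2 ≠ 0)).card
  · exact big 0 (Or.inl rfl) hc0
  by_cases hc1 : q ≤ (P.filter (fun p => p.1 ≠ 1 ∧ p.2 ≠ 1)).card
  · exact big 1 (Or.inr rfl) hc1
  exfalso
  have hsub : P ⊆ (P.filter (fun p => p.1 ≠ 0 ∧ p.2 ≠ 0) ∪ P.filter (fun p => p.1 ≠ 1 ∧ p.2 ≠ 1)) ∪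
      {((0 : Fin (m + 3)), (1 : Fin (m + 3))), ((1 : Fin (m + 3)), (0 : Fin (m + 3)))} := by
    rintro ⟨i, j⟩ hp
    simp only [mem_union, mem_filter, mem_insert, mem_singleton, Prod.mk.injEq]
    by_cases hi0 : i = 0
    · subst hi0
      by_cases hj1 : j = 1
      · exact Or.inr (Or.inl ⟨rfl, hj1⟩)
      · exact Or.inl (Or.inr ⟨hp, zero_ne_one', hj1⟩)
    · by_cases hj0 : j = 0
      · subst hj0
        by_cases hi1 : i = 1
        · exact Or.inr (Or.inr ⟨hi1, rfl⟩)
        · exact Or.inl (Or.inr ⟨hp, hi1, zero_ne_one'⟩)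
      · exact Or.inl (Or.inl ⟨hp, hi0, hj0⟩)
  have h3 := card_le_card hsub
  have h4 := card_union_le (P.filter (fun p => p.1 ≠ 0 ∧ p.2 ≠ 0) ∪
    P.filter (fun p => p.1 ≠ 1 ∧ p.2 ≠ 1))
      {((0 : Fin (m + 3)), (1 : Fin (m + 3))), ((1 : Fin (m + 3)), (0 : Fin (m + 3)))}
  have h5 := card_union_le (P.filter (fun p => p.1 ≠ 0 ∧ p.2 ≠ 0))
    (P.filter (fun p => p.1 ≠ 1 ∧ p.2 ≠ 1))
  have h6 : ({((0 : Fin (m + 3)), (1 : Fin (m + 3))), ((1 : Fin (m + 3)), (0 : Fin (m + 3)))} :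
      Finset (Fin (m + 3) × Fin (m + 3))).card ≤ 2 := card_le_two
  omega

end Pool.Agent.N348.EI
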