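import Pool.Agent.N348.EI2

set_option autoImplicit false

namespace Pool.Agent.N348.EI

open Equiv Finset Nat

variable {m : ℕ}

/-- the pairs of positions -/
def pairs (m : ℕ) : Finset (Fin (m + 3) × Fin (m + 3)) :=
  univ.filter (fun p : Fin (m + 3) × Fin (m + 3) => p.1 < p.2)

/-- the boundary -/
def bd (m : ℕ) : Finset (Perm (Fin (m + 3)) × (Fin (m + 3) × Fin (m + 3))) :=
  (A m ×ˢ pairs m).filter (fun x => x.1 * Equiv.swap x.2.1 x.2.2 ∉ A m)

theorem swap_other {a i j : Fin (m + 3)} (h : swap i j a ≠ a) :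
    (i = a ∧ swap i j a = j) ∨ (j = a ∧ swap i j a = i) := by
  by_cases h1 : a = i
  · subst h1; exact Or.inl ⟨rfl, swap_apply_left _ _⟩
  · by_cases h2 : a = j
    · subst h2; exact Or.inr ⟨rfl, swap_apply_right _ _⟩
    · exact absurd (swap_apply_of_ne_of_ne h1 h2) h

/-- if `σ a ≠ a` there is only one swap making `a` a fixed point -/
theorem swap_unique {a i j k l : Fin (m + 3)} {σ : Perm (Fin (m + 3))} (hij : i < j) (hkl : k < l)
    (hσ : σ a ≠ a) (h1 : (σ * swap i j) a = a) (h2 : (σ * swap k l) a = a) : (i, j) = (k, l) := by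
  rw [Perm.mul_apply] at h1 h2
  have e1 : swap i j a = σ.symm a := by rw [Equiv.eq_symm_apply]; exact h1
  have e2 : swap k l a = σ.symm a := by rw [Equiv.eq_symm_apply]; exact h2
  have hne : σ.symm a ≠ a := by
    intro h
    rw [Equiv.symm_apply_eq] at h
    exact hσ h.symm
  rcases swap_other (by rw [e1]; exact hne) with ⟨ha, hb⟩ | ⟨ha, hb⟩ <;>
    rcases swap_other (by rw [e2]; exact hne) with ⟨hc, hd⟩ | ⟨hc, hd⟩
  · rw [ha, hc, ← hb, ← hd, e1, e2]
  · exfalso
    rw [e1] at hb; rw [e2] at hd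
    rw [ha, ← hb] at hij
    rw [hc, ← hd] at hkl
    exact lt_asymm hij hkl
  · exfalso
    rw [e1] at hb; rw [e2] at hd
    rw [ha, ← hb] at hij
    rw [hc, ← hd] at hkl
    exact lt_asymm hij hkl
  · rw [ha, hc, ← hb, ← hd, e1, e2]

theorem card_bd : (bd m).card ≤ 2 * (A m).card + 2 * (m + 1) * (m + 1)! := by
  classical
  set B0 := (bd m).filter (fun x => (x.1 * swap x.2.1 x.2.2) 0 = 0) with hB0
  set B1 := (bd m).filter (fun x => (x.1 * swap x.2.1 x.2.2) 1 = 1) with hB1
  set B2 := (bd m).filter (fun x => (x.1 * swap x.2.1 x.2.2) 0 = 1 ∧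
    (x.1 * swap x.2.1 x.2.2) 1 = 0) with hB2
  have hmem : ∀ x, x ∈ bd m ↔ (x.1 ∈ A m ∧ x.2.1 < x.2.2) ∧ x.1 * swap x.2.1 x.2.2 ∉ A m := by
    intro x
    simp [bd, pairs]
  have hA : ∀ σ : Perm (Fin (m + 3)), σ ∈ A m ↔ σ 0 ≠ 0 ∧ σ 1 ≠ 1 ∧ ¬ (σ 0 = 1 ∧ σ 1 = 0) := by
    intro σ; simp [A]
  have hsub : bd m ⊆ (B0 ∪ B1) ∪ B2 := by
    intro x hx
    have h := (hmem x).1 hx
    have h2 := h.2
    rw [hA] at h2
    simp only [hB0, hB1, hB2, mem_union, mem_filter]
    tauto
  have c0 : B0.card ≤ (A m).card := by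
    apply card_le_card_of_injOn Prod.fst
    · intro x hx
      exact ((hmem x).1 (mem_filter.1 hx).1).1.1
    · rintro ⟨σ, i, j⟩ hx ⟨τ, k, l⟩ hy hxy
      have h1 := mem_filter.1 hx
      have h2 := mem_filter.1 hy
      have h3 := (hmem _).1 h1.1
      have h4 := (hmem _).1 h2.1
      simp only at hxy
      subst hxy
      have := swap_unique h3.1.2 h4.1.2 ((hA _).1 h3.1.1).1 h1.2 h2.2
      simp only [Prod.mk.injEq] at this ⊢
      exact ⟨trivial, this⟩
  have c1 : B1.card ≤ (A m).card := by
    apply card_le_card_of_injOn Prod.fst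
    · intro x hx
      exact ((hmem x).1 (mem_filter.1 hx).1).1.1
    · rintro ⟨σ, i, j⟩ hx ⟨τ, k, l⟩ hy hxy
      have h1 := mem_filter.1 hx
      have h2 := mem_filter.1 hy
      have h3 := (hmem _).1 h1.1
      have h4 := (hmem _).1 h2.1
      simp only at hxy
      subst hxy
      have := swap_unique h3.1.2 h4.1.2 ((hA _).1 h3.1.1).2.1 h1.2 h2.2
      simp only [Prod.mk.injEq] at this ⊢
      exact ⟨trivial, this⟩
  -- the swaps which touch exactly one of `0`, `1`
  let T : Finset (Fin (m + 3) × Fin (m + 3)) :=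
    (univ : Finset (Fin 2 × Fin (m + 1))).image (fun p => (⟨p.1.1, by omega⟩, ⟨p.2.1 + 2, by omega⟩))
  have cT : T.card ≤ 2 * (m + 1) := by
    refine card_image_le.trans ?_
    simp
  have c2 : B2.card ≤ 2 * (m + 1) * (m + 1)! := by
    have h1 : B2.card ≤ (X m ×ˢ T).card := by
      apply card_le_card_of_injOn (fun x => (x.1 * swap x.2.1 x.2.2, x.2))
      · rintro ⟨σ, i, j⟩ hx
        have h1 := mem_filter.1 hx
        have h3 := (hmem _).1 h1.1
        have h4 := (hA _).1 h3.1.1
        simp only at h1 h3 h4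
        rw [mem_coe, mem_product]
        refine ⟨by simp only [X, mem_filter, mem_univ, true_and]; exact h1.2, ?_⟩
        have hlt := h3.1.2
        -- the swap moves `0` or `1`
        have hmove : i.1 < 2 := by
          by_contra hge
          have hi0 : (0 : Fin (m + 3)) ≠ i := by
            intro h; rw [← h] at hge; simp at hge
          have hj0 : (0 : Fin (m + 3)) ≠ j := by
            intro h; rw [← h] at hlt; exact absurd hlt (by simp)
          have hi1 : (1 : Fin (m + 3)) ≠ i := by
            intro h; rw [← h] at hge; simp at hge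
          have hj1 : (1 : Fin (m + 3)) ≠ j := by
            intro h
            have : i.1 < 1 := by
              have h5 : i < (1 : Fin (m + 3)) := by rw [h]; exact hlt
              simpa [Fin.lt_def] using h5
            omega
          apply h4.2.2
          have h6 := h1.2
          rw [Perm.mul_apply, Perm.mul_apply, swap_apply_of_ne_of_ne hi0 hj0,
            swap_apply_of_ne_of_ne hi1 hj1] at h6
          exact h6
        have hj : 2 ≤ j.1 := by
          by_contra hlt2
          have hltv : i.1 < j.1 := hlt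
          have hi : i = 0 := by
            apply Fin.ext
            have : ((0 : Fin (m + 3)) : ℕ) = 0 := rfl
            rw [this]; omega
          have hj' : j = 1 := by
            apply Fin.ext
            have : ((1 : Fin (m + 3)) : ℕ) = 1 := by simp
            rw [this]; omega
          subst hi hj'
          have h6 := h1.2
          rw [Perm.mul_apply, swap_apply_left] at h6
          exact h4.2.1 h6.1
        simp only [T, mem_image, mem_univ, true_and]
        refine ⟨(⟨i.1, hmove⟩, ⟨j.1 - 2, by have := j.2; omega⟩), ?_⟩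
        exact Prod.ext (Fin.ext rfl) (Fin.ext (by simp; omega))
      · rintro ⟨σ, i, j⟩ _ ⟨τ, k, l⟩ _ hxy
        simp only [Prod.mk.injEq] at hxy ⊢
        obtain ⟨h1, h2, h3⟩ := hxy
        subst h2 h3
        exact ⟨mul_right_cancel h1, rfl, rfl⟩
    rw [card_product, card_X] at h1
    calc B2.card ≤ (m + 1)! * T.card := h1
      _ ≤ (m + 1)! * (2 * (m + 1)) := Nat.mul_le_mul_left _ cT
      _ = 2 * (m + 1) * (m + 1)! := by ring
  calc (bd m).card ≤ ((B0 ∪ B1) ∪ B2).card := card_le_card hsub
    _ ≤ (B0 ∪ B1).card + B2.card := card_union_le _ _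
    _ ≤ (B0.card + B1.card) + B2.card := Nat.add_le_add_right (card_union_le _ _) _
    _ ≤ 2 * (A m).card + 2 * (m + 1) * (m + 1)! := by omega

end Pool.Agent.N348.EI
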