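import Mathlib
import Pool.Agent.N852.EL.WM

/-!
EL/W2: the upper bound for the number of rational points, for all ample line bundles.
-/

set_option autoImplicit false

namespace Pool.Agent.N348.ELW2

open Filter Topology Function
open Pool.Agent.N852 (ic norm_ic qc nr nr_spec nr_rep nr_inj mulHeight_nr)
open Pool.Agent.N852.DD (norm_ic_ge)
open Pool.Agent.N852.MM Pool.Agent.N852.EL

theorem weakP (h : SumP) : WeakP := by
  classical
  intro V _ _ n k F G a D hE GQ hG l α hl hal hex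
  have : ∀ v, NeZero (n v) := fun v => ⟨by
    have := hE.adef v
    have := hE.two v
    omega⟩
  obtain ⟨v0, hv0⟩ := hex
  have ha0 : (0 : ℝ) < a v0 := by
    have := hE.two v0
    exact_mod_cast (by omega : 0 < a v0)
  have hα : 0 < α := by
    have h1 := hl v0
    by_contra hc
    push Not at hc
    have : α * l v0 ≤ 0 := mul_nonpos_of_nonpos_of_nonneg hc h1.le
    linarith
  obtain ⟨C1, hC1, hUX⟩ := UX_le hE
  obtain ⟨C2, hC2, hS⟩ := h V (fun v => (a v : ℝ)) l α hl hal hα ⟨v0, hv0⟩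
  set b := Nat.card {v // (a v : ℝ) = α * l v} with hb
  set A : ℝ := (2 : ℝ) ^ (∑ v, a v) with hA
  have hlog2 : 0 < Real.log 2 := Real.log_pos (by norm_num)
  have hC10 : 0 < C1 := by linarith
  have hA0 : 0 < A := by positivity
  refine ⟨C1 * A * C2 * (2 / Real.log 2) ^ (b - 1), by positivity, fun T hT => ?_⟩
  have hT0 : (0 : ℝ) < T := by linarith
  have hlT : 0 < Real.log T := Real.log_pos (by linarith)
  set Y : ℝ := Real.logb 2 T with hY
  have hY1 : 1 ≤ Y := by
    rw [hY, Real.le_logb_iff_rpow_le (by norm_num) hT0]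
    simpa using hT
  have h2Y : (2 : ℝ) ^ Y = T := Real.rpow_logb (by norm_num) (by norm_num) hT0
  set J : Finset (V → ℕ) := (Fintype.piFinset fun v => Finset.range (⌊Y / l v⌋₊ + 1)).filter
    (fun i => ∑ v, l v * (i v : ℝ) ≤ Y) with hJ
  have hJmem : ∀ i : V → ℕ, ∑ v, l v * (i v : ℝ) ≤ Y → i ∈ J := by
    intro i hi
    rw [hJ, Finset.mem_filter, Fintype.mem_piFinset]
    refine ⟨fun v => ?_, hi⟩
    rw [Finset.mem_range, Nat.lt_succ_iff]
    apply Nat.le_floor
    rw [le_div_iff₀ (hl v)]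
    refine le_trans ?_ hi
    rw [mul_comm]
    exact Finset.single_le_sum (f := fun v => l v * (i v : ℝ))
      (fun u _ => mul_nonneg (hl u).le (Nat.cast_nonneg _)) (Finset.mem_univ v)
  set U : Finset (Tup n ℤ) := J.biUnion fun i => UX F G (fun v => (2 : ℝ) ^ (i v + 1)) with hU
  set S : Set (∀ v, Projectivization ℚ (Fin (n v) → ℚ)) := {P | Inc F (rp P) ∧
    (∀ v, GQ v (rp P)) ∧ ∏ v, (P v).mulHeight ^ (l v) ≤ T} with hSdef
  have hmaps : ∀ P ∈ S, (fun v => nr (P v) : Tup n ℤ) ∈ (U : Set (Tup n ℤ)) := by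
    rintro P ⟨h1, h2, h3⟩
    have hex : ∀ v, ∃ c : ℚ, c ≠ 0 ∧ (P v).rep = c • qc (nr (P v)) := fun v => nr_spec (P v)
    choose c hc hPc using hex
    set z : Tup n ℤ := fun v => nr (P v) with hz'
    have hrp : rp P = fun v => c v • qc (z v) := funext hPc
    have hinc : Inc F z := by
      rw [hrp, inc_smul_iff (F := F) (x := fun v => qc (z v)) hc] at h1
      exact (inc_map_iff (K := ℚ)).1 h1
    have hj : ∀ v, G v z := by
      intro v
      have := h2 v
      rw [hrp] at this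
      exact (hG v z c hc).1 this
    have hne := hE.ne z hj
    have hnorm : ∀ v, (P v).mulHeight = ‖ic (z v)‖ := by
      intro v
      rw [mulHeight_nr, ← norm_ic]
    simp only [hnorm] at h3
    have hex : ∀ v, ∃ m : ℕ, (2 : ℝ) ^ m ≤ ‖ic (z v)‖ ∧ ‖ic (z v)‖ < 2 ^ (m + 1) := fun v =>
      exists_nat_pow_near (norm_ic_ge (hne v)) (by norm_num)
    choose i hi1 hi2 using hex
    rw [Finset.mem_coe, hU, Finset.mem_biUnion]
    refine ⟨i, hJmem i ?_, ?_⟩
    · have h4 : (2 : ℝ) ^ (∑ v, l v * (i v : ℝ)) ≤ (2 : ℝ) ^ Y := by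
        rw [h2Y]
        refine le_trans ?_ h3
        rw [Real.rpow_sum_of_pos (by norm_num)]
        refine Finset.prod_le_prod (fun v _ => by positivity) fun v _ => ?_
        rw [mul_comm, Real.rpow_mul (by norm_num), Real.rpow_natCast]
        exact Real.rpow_le_rpow (by positivity) (hi1 v) (hl v).le
      exact (Real.rpow_le_rpow_left_iff (by norm_num)).1 h4
    · rw [mem_UX (fun v => by positivity)]
      exact ⟨fun v => (hi2 v).le, hinc, hj⟩
  have hinj : Set.InjOn (fun P : ∀ v, Projectivization ℚ (Fin (n v) → ℚ) =>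
      (fun v => nr (P v) : Tup n ℤ)) S := by
    intro P _ Q _ hPQ
    funext v
    exact nr_inj (congrFun hPQ v)
  have hfin : S.Finite := Set.Finite.of_injOn hmaps hinj U.finite_toSet
  refine ⟨hfin, ?_⟩
  have hcard : S.ncard ≤ U.card := by
    have := Set.ncard_le_ncard_of_injOn _ hmaps hinj U.finite_toSet
    rwa [Set.ncard_coe_finset] at this
  have hUc : (U.card : ℝ) ≤ ∑ i ∈ J, ((UX F G (fun v => (2 : ℝ) ^ (i v + 1))).card : ℝ) := by
    have h1 : U.card ≤ ∑ i ∈ J, (UX F G (fun v => (2 : ℝ) ^ (i v + 1))).card := by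
      rw [hU]
      exact Finset.card_biUnion_le
    calc (U.card : ℝ) ≤ ((∑ i ∈ J, (UX F G (fun v => (2 : ℝ) ^ (i v + 1))).card : ℕ) : ℝ) :=
          Nat.cast_le.2 h1
      _ = _ := Nat.cast_sum _ _
  have hterm : ∀ i ∈ J, ((UX F G (fun v => (2 : ℝ) ^ (i v + 1))).card : ℝ) ≤
      C1 * A * (2 : ℝ) ^ (∑ v, (a v : ℝ) * (i v : ℝ)) := by
    intro i _
    refine (hUX _ fun v => one_le_pow₀ (by norm_num)).trans_eq ?_
    rw [mul_assoc]
    congr 1
    unfold Nm
    rw [hA, ← Finset.prod_pow_eq_pow_sum, Real.rpow_sum_of_pos (by norm_num),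
      ← Finset.prod_mul_distrib]
    refine Finset.prod_congr rfl fun v _ => ?_
    rw [← Nat.cast_mul, Real.rpow_natCast, ← pow_mul, ← pow_add]
    congr 1
    ring
  calc (S.ncard : ℝ) ≤ U.card := by exact_mod_cast hcard
    _ ≤ _ := hUc
    _ ≤ ∑ i ∈ J, C1 * A * (2 : ℝ) ^ (∑ v, (a v : ℝ) * (i v : ℝ)) := Finset.sum_le_sum hterm
    _ = C1 * A * ∑ i ∈ J, (2 : ℝ) ^ (∑ v, (a v : ℝ) * (i v : ℝ)) := by rw [Finset.mul_sum]
    _ ≤ C1 * A * (C2 * (2 : ℝ) ^ (α * Y) * (Y + 1) ^ (b - 1)) := by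
        gcongr
        exact hS Y J (by linarith) fun i hi => (Finset.mem_filter.1 hi).2
    _ ≤ _ := by
      have e1 : (2 : ℝ) ^ (α * Y) = T ^ α := by rw [mul_comm, Real.rpow_mul (by norm_num), h2Y]
      have e2 : Y + 1 ≤ 2 / Real.log 2 * Real.log T := by
        have : Y = Real.log T / Real.log 2 := rfl
        rw [div_mul_eq_mul_div, mul_div_assoc, ← this]
        linarith
      rw [e1]
      calc C1 * A * (C2 * T ^ α * (Y + 1) ^ (b - 1))
          ≤ C1 * A * (C2 * T ^ α * (2 / Real.log 2 * Real.log T) ^ (b - 1)) := by gcongr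
        _ = _ := by rw [mul_pow]; ring

end Pool.Agent.N348.ELW2
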