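import Pool.Agent.N91.LC.Space

set_option autoImplicit false

namespace Pool.Agent.N91.LC

open Real Filter Topology Set

namespace Cpt

theorem continuous_A : Continuous A := by
  unfold A
  fun_prop

theorem tendsto_pp : Tendsto pp atTop (𝓝 0) := by
  unfold pp
  have := (tendsto_pow_atTop_nhds_zero_of_lt_one (r := (1 / 3 : ℝ)) (by norm_num)
    (by norm_num)).const_mul p0
  rwa [mul_zero] at this

/-- claim A -/
theorem adm_eventually {P : ℕ → Pt} {Q : Pt} (hP : ∀ k, (P k).ok) (hQ : Q.ok)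
    (hb : Tendsto (fun k => (P k).b) atTop (𝓝 Q.b)) (hv : Tendsto (fun k => (P k).v) atTop (𝓝 Q.v))
    (hg : Tendsto (fun k => (P k).g) atTop (𝓝 Q.g)) {ε : ℝ} (hε : 0 < ε) :
    ∀ᶠ k in atTop, Adm4 (P k) Q ε := by
  have hsd : Tendsto (fun k => sd (P k) Q) atTop (𝓝 0) := by
    have h1 : Tendsto (fun k => |(P k).b - Q.b| + |(P k).v - Q.v|) atTop
        (𝓝 (|Q.b - Q.b| + |Q.v - Q.v|)) :=
      ((hb.sub_const _).abs).add ((hv.sub_const _).abs)
    rw [sub_self, sub_self, abs_zero, add_zero] at h1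
    exact h1
  have hA : Tendsto (fun k => A (P k).g) atTop (𝓝 (A Q.g)) :=
    (continuous_A.tendsto _).comp hg
  have hexp : 1 < exp ε := Real.one_lt_exp_iff.2 hε
  rcases eq_or_lt_of_le hQ.g0 with h0 | h0
  · -- hub
    have h1 : Tendsto (fun k => sd (P k) Q + log (A (P k).g) + log (A Q.g)) atTop
        (𝓝 (0 + log (A Q.g) + log (A Q.g))) :=
      (hsd.add (hA.log (A_pos _).ne')).add_const _
    rw [← h0, log_A_zero, zero_add, zero_add] at h1
    filter_upwards [h1.eventually_lt_const hε] with k hk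
    left
    right
    left
    unfold Hub
    rw [← h0, log_A_zero]
    exact hk.le
  · -- strip
    have h1 : ∀ᶠ k in atTop, (P k).g < exp ε * Q.g :=
      hg.eventually_lt_const (by nlinarith)
    have h2 : ∀ᶠ k in atTop, Q.g < exp ε * (P k).g :=
      (hg.const_mul (exp ε)).eventually_const_lt (by nlinarith)
    have h3 : Tendsto (fun k => A (P k).g * A Q.g * exp (sd (P k) Q) - (P k).g * Q.g) atTop
        (𝓝 (A Q.g * A Q.g * exp 0 - Q.g * Q.g)) :=
      ((hA.mul_const _).mul ((Real.continuous_exp.tendsto _).comp hsd)).sub (hg.mul_const _)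
    have h4 : A Q.g * A Q.g * exp 0 - Q.g * Q.g = 1 := by
      have := A_sq Q.g
      rw [exp_zero]
      nlinarith
    rw [h4] at h3
    filter_upwards [h1, h2, h3.eventually_lt_const hexp] with k k1 k2 k3
    exact Or.inl (Or.inl ⟨k1.le, k2.le, k3.le⟩)

/-- the compact set of the admissible coordinates -/
def Kc : Set (ℝ × ℝ × ℝ) :=
  (Icc 0 ell ×ˢ Icc 0 p0 ×ˢ Icc 0 GG) ∩
    ({p | p.1 = 0} ∪ {p | p.2.1 ∈ insert (0 : ℝ) (range pp)})

theorem isCompact_Kc : IsCompact Kc := by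
  refine (isCompact_Icc.prod (isCompact_Icc.prod isCompact_Icc)).inter_right ?_
  refine IsClosed.union (isClosed_eq continuous_fst continuous_const) ?_
  exact (tendsto_pp.isCompact_insert_range.isClosed).preimage
    (continuous_fst.comp continuous_snd)

theorem mem_Kc {P : Pt} (h : P.ok) : (P.b, P.v, P.g) ∈ Kc := by
  obtain ⟨h1, h2, h3, h4, h5, h6, h7⟩ := h
  refine ⟨⟨⟨h1, h2⟩, ⟨h3, h4⟩, ⟨h5, h6⟩⟩, ?_⟩
  rcases h7 with h | h | ⟨n, h⟩
  · exact Or.inl h
  · exact Or.inr (Or.inl h)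
  · exact Or.inr (Or.inr ⟨n, h.symm⟩)

theorem ok_of_mem {p : ℝ × ℝ × ℝ} (h : p ∈ Kc) : Pt.ok ⟨p.1, p.2.1, p.2.2⟩ := by
  obtain ⟨⟨⟨h1, h2⟩, ⟨h3, h4⟩, ⟨h5, h6⟩⟩, h7⟩ := h
  refine ⟨h1, h2, h3, h4, h5, h6, ?_⟩
  rcases h7 with h | h | ⟨n, h⟩
  · exact Or.inl h
  · exact Or.inr (Or.inl h)
  · exact Or.inr (Or.inr ⟨n, h.symm⟩)

end Cpt

open Cpt

theorem compactX : CompactSpace X := by
  refine ⟨isCompact_iff_isSeqCompact.2 ?_⟩
  intro x _
  by_cases hcase : ∃ ε : ℝ, 0 < ε ∧ ∃ᶠ k in atTop, ε ≤ (x k).h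
  · -- heights bounded from below along a subsequence
    obtain ⟨ε, hε, hfr⟩ := hcase
    obtain ⟨φ, hφ, hφ2⟩ := extraction_of_frequently_atTop hfr
    obtain ⟨N, hN⟩ := exists_pow_lt_of_lt_one hε (by norm_num : (1 / 2 : ℝ) < 1)
    have hs : ∀ k, ε ≤ (x (φ k)).s := fun k => (hφ2 k).trans (min_le_left _ _)
    have hq : ∀ k, ε * (1 + (x (φ k)).s) ≤ (1 / 2) ^ (x (φ k)).n := by
      intro k
      have h1 : ε ≤ (1 / 2) ^ (x (φ k)).n / (1 + (x (φ k)).s) := (hφ2 k).trans (min_le_right _ _)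
      rwa [le_div_iff₀ (by linarith [(x (φ k)).hs])] at h1
    have hs2 : ∀ k, (x (φ k)).s ≤ 1 / ε := by
      intro k
      have h1 := hq k
      have h2 : ((1 : ℝ) / 2) ^ (x (φ k)).n ≤ 1 := pow_le_one₀ (by norm_num) (by norm_num)
      rw [le_div_iff₀ hε]
      nlinarith
    have hn : ∀ k, (x (φ k)).n ≤ N := by
      intro k
      by_contra hcon
      push Not at hcon
      have h1 := hq k
      have h2 : ((1 : ℝ) / 2) ^ (x (φ k)).n ≤ (1 / 2) ^ N :=
        pow_le_pow_of_le_one (by norm_num) (by norm_num) hcon.le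
      have h3 := hs k
      nlinarith
    have hcomp : IsCompact ((Iic N) ×ˢ (Icc ε (1 / ε)) : Set (ℕ × ℝ)) :=
      (Set.finite_Iic N).isCompact.prod isCompact_Icc
    obtain ⟨⟨n, s⟩, ⟨h1, h2⟩, ψ, hψ, hlim⟩ := hcomp.tendsto_subseq
      (x := fun k => ((x (φ k)).n, (x (φ k)).s)) (fun k => ⟨hn k, hs k, hs2 k⟩)
    have hs0 : 0 ≤ s := hε.le.trans h2.1
    refine ⟨ray n s, mem_univ _, φ ∘ ψ, hφ.comp hψ, ?_⟩
    have l1 : Tendsto (fun k => (x (φ (ψ k))).n) atTop (𝓝 n) :=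
      (continuous_fst.tendsto (n, s)).comp hlim
    have l2 : Tendsto (fun k => (x (φ (ψ k))).s) atTop (𝓝 s) :=
      (continuous_snd.tendsto (n, s)).comp hlim
    have l3 : ∀ᶠ k in atTop, (x (φ (ψ k))).n = n := by
      have := l1.eventually (isOpen_discrete ({n} : Set ℕ) |>.mem_nhds rfl)
      exact this
    rw [tendsto_iff_dist_tendsto_zero]
    have l4 : Tendsto (fun k => |(x (φ (ψ k))).s - s|) atTop (𝓝 0) := by
      have := (l2.sub_const s).abs
      rwa [sub_self, abs_zero] at this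
    refine squeeze_zero' (Eventually.of_forall fun _ => dist_nonneg) ?_ l4
    filter_upwards [l3] with k hk
    apply AdmX.dist_le
    left
    have hpos : (x (φ (ψ k))).s ≠ 0 := by
      have := hs (ψ k)
      linarith
    refine ⟨(x (φ (ψ k))).hr.resolve_left hpos, rfl, hk, ?_⟩
    show |(x (φ (ψ k))).s - max s 0| ≤ _
    rw [max_eq_left hs0]
  · -- heights tend to zero
    push Not at hcase
    have hh0 : Tendsto (fun k => (x k).h) atTop (𝓝 0) := by
      rw [Metric.tendsto_atTop]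
      intro ε hε
      have := hcase ε hε
      obtain ⟨N, hN⟩ := eventually_atTop.1 this
      refine ⟨N, fun k hk => ?_⟩
      rw [Real.dist_eq, sub_zero, abs_of_nonneg (X.h_nonneg _)]
      exact hN k hk
    obtain ⟨p, hp, φ, hφ, hlim⟩ := isCompact_Kc.tendsto_subseq
      (x := fun k => ((x k).P.b, (x k).P.v, (x k).P.g)) (fun k => mem_Kc (x k).ok)
    have hok := ok_of_mem hp
    refine ⟨mkc ⟨p.1, p.2.1, p.2.2⟩ hok, mem_univ _, φ, hφ, ?_⟩
    have l1 : Tendsto (fun k => (x (φ k)).P.b) atTop (𝓝 p.1) :=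
      (continuous_fst.tendsto p).comp hlim
    have l2 : Tendsto (fun k => (x (φ k)).P.v) atTop (𝓝 p.2.1) :=
      ((continuous_fst.comp continuous_snd).tendsto p).comp hlim
    have l3 : Tendsto (fun k => (x (φ k)).P.g) atTop (𝓝 p.2.2) :=
      ((continuous_snd.comp continuous_snd).tendsto p).comp hlim
    rw [Metric.tendsto_atTop]
    intro ε hε
    have e1 := adm_eventually (P := fun k => (x (φ k)).P) (fun k => (x (φ k)).ok) hok l1 l2 l3
      (show 0 < ε / 2 by linarith)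
    have e2 : ∀ᶠ k in atTop, (x (φ k)).h < ε / 2 :=
      (hh0.comp hφ.tendsto_atTop).eventually_lt_const (by linarith)
    obtain ⟨N, hN⟩ := eventually_atTop.1 (e1.and e2)
    refine ⟨N, fun k hk => ?_⟩
    obtain ⟨a1, a2⟩ := hN k hk
    have d1 := X.dist_base (x (φ k))
    have d2 := mkc_dist_le (x (φ k)).ok hok a1
    have d3 := dist_triangle (x (φ k)) (mkc (x (φ k)).P (x (φ k)).ok) (mkc ⟨p.1, p.2.1, p.2.2⟩ hok)
    show dist (x (φ k)) _ < ε
    linarith

end Pool.Agent.N91.LC
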