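import Pool.Agent.N841.LZ.Stm

/-!
# A large subfamily with uncountable finite cells
-/

set_option autoImplicit false

open Cardinal Set Filter MeasureTheory

namespace Pool.Agent.N348.LZZORN
open Pool.Agent.N841.LZ

theorem om_unc : ¬ (Set.univ : Set Om).Countable := by
  rw [Set.countable_univ_iff, ← Cardinal.mk_le_aleph0_iff]
  intro h
  have h1 : #Om = ℵ₁ := by simp [Om]
  rw [h1] at h
  exact absurd h (not_le.2 Cardinal.aleph0_lt_aleph_one)

/-- the cell -/
def cell (A : Om → Set Om) (F : Finset Om) (h : Om → Prop) : Set Om :=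
  {α | ∀ ξ ∈ F, (α ∈ A ξ ↔ h ξ)}

/-- the bad indices for the set `C` -/
def bad (A : Om → Set Om) (C : Set Om) : Set Om :=
  {ξ | (C ∩ A ξ).Countable ∨ (C \ A ξ).Countable}

theorem bad_finite (A : Om → Set Om)
    (hA : ∀ Ξ : Set Om, Ξ.Infinite → ∀ h : Om → Prop, {α | ∀ ξ ∈ Ξ, (α ∈ A ξ ↔ h ξ)}.Countable)
    (C : Set Om) (hC : ¬ C.Countable) : (bad A C).Finite := by
  by_contra hinf
  have hu : bad A C = {ξ | (C ∩ A ξ).Countable} ∪ {ξ | (C \ A ξ).Countable} := rfl
  rw [hu, Set.finite_union, not_and_or] at hinf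
  rcases hinf with hinf | hinf
  · obtain ⟨Ξ, hΞs, hΞi⟩ : ∃ Ξ ⊆ {ξ | (C ∩ A ξ).Countable}, Ξ.Infinite ∧ Ξ.Countable := by
      have e := (Set.Infinite.natEmbedding _ hinf)
      refine ⟨Set.range fun n => (e n : Om), ?_, ?_, Set.countable_range _⟩
      · rintro _ ⟨n, rfl⟩
        exact (e n).2
      · exact Set.infinite_range_of_injective (Subtype.val_injective.comp e.injective)
    apply hC
    refine Set.Countable.mono ?_ ((hΞi.2.biUnion fun ξ hξ => hΞs hξ).union
      (hA Ξ hΞi.1 fun _ => False))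
    intro x hx
    by_cases hxa : ∃ ξ ∈ Ξ, x ∈ A ξ
    · obtain ⟨ξ, hξ, hxξ⟩ := hxa
      left
      rw [Set.mem_iUnion₂]
      exact ⟨ξ, hξ, hx, hxξ⟩
    · right
      intro ξ hξ
      constructor
      · intro h
        exact hxa ⟨ξ, hξ, h⟩
      · intro h
        exact h.elim
  · obtain ⟨Ξ, hΞs, hΞi⟩ : ∃ Ξ ⊆ {ξ | (C \ A ξ).Countable}, Ξ.Infinite ∧ Ξ.Countable := by
      have e := (Set.Infinite.natEmbedding _ hinf)
      refine ⟨Set.range fun n => (e n : Om), ?_, ?_, Set.countable_range _⟩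
      · rintro _ ⟨n, rfl⟩
        exact (e n).2
      · exact Set.infinite_range_of_injective (Subtype.val_injective.comp e.injective)
    apply hC
    refine Set.Countable.mono ?_ ((hΞi.2.biUnion fun ξ hξ => hΞs hξ).union
      (hA Ξ hΞi.1 fun _ => True))
    intro x hx
    by_cases hxa : ∃ ξ ∈ Ξ, x ∉ A ξ
    · obtain ⟨ξ, hξ, hxξ⟩ := hxa
      left
      rw [Set.mem_iUnion₂]
      exact ⟨ξ, hξ, hx, hxξ⟩
    · right
      intro ξ hξ
      constructor
      · intro _
        trivial
      · intro _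
        by_contra h
        exact hxa ⟨ξ, hξ, h⟩

/-- all finite cells over `M` are uncountable -/
def Good (A : Om → Set Om) (M : Set Om) : Prop :=
  ∀ F : Finset Om, (∀ ξ ∈ F, ξ ∈ M) → ∀ h : Om → Prop, ¬ (cell A F h).Countable

theorem good_empty (A : Om → Set Om) : Good A ∅ := by
  intro F hF h hc
  have : F = ∅ := Finset.eq_empty_of_forall_notMem fun x hx => hF x hx
  subst this
  have e : cell A ∅ h = Set.univ := by
    ext x
    simp [cell]
  rw [e] at hc
  exact om_unc hc

theorem good_chain (A : Om → Set Om) (c : Set (Set Om)) (hc : IsChain (· ⊆ ·) c)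
    (hg : ∀ s ∈ c, Good A s) (hne : c.Nonempty) : Good A (⋃₀ c) := by
  classical
  intro F hF
  have key : ∀ G : Finset Om, (∀ ξ ∈ G, ξ ∈ ⋃₀ c) → ∃ s ∈ c, ∀ ξ ∈ G, ξ ∈ s := by
    intro G
    induction G using Finset.induction_on with
    | empty =>
      intro _
      obtain ⟨s, hs⟩ := hne
      exact ⟨s, hs, fun ξ hξ => absurd hξ (Finset.notMem_empty ξ)⟩
    | insert a G ha ih =>
      intro h
      obtain ⟨s, hs, hsG⟩ := ih fun ξ hξ => h ξ (Finset.mem_insert_of_mem hξ)
      obtain ⟨t, ht, hat⟩ := h a (Finset.mem_insert_self a G)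
      rcases hc.total hs ht with hst | hts
      · refine ⟨t, ht, fun ξ hξ => ?_⟩
        rcases Finset.mem_insert.1 hξ with rfl | hξ
        · exact hat
        · exact hst (hsG ξ hξ)
      · refine ⟨s, hs, fun ξ hξ => ?_⟩
        rcases Finset.mem_insert.1 hξ with rfl | hξ
        · exact hts hat
        · exact hsG ξ hξ
  obtain ⟨s, hs, hsF⟩ := key F hF
  exact hg s hs F hsF

theorem t_ZORN : S_ZORN := by
  classical
  intro A hA
  obtain ⟨M, hM⟩ := zorn_subset {M | Good A M} (fun c hcS hc => by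
    rcases c.eq_empty_or_nonempty with rfl | hne
    · exact ⟨∅, good_empty A, fun s hs => absurd hs (Set.notMem_empty s)⟩
    · exact ⟨⋃₀ c, good_chain A c hc (fun s hs => hcS hs) hne,
        fun s hs => Set.subset_sUnion_of_mem hs⟩)
  have hMg : Good A M := hM.prop
  refine ⟨M, ?_, hMg⟩
  intro hMc
  -- the bad indices
  have : Countable M := hMc.to_subtype
  let em : M ↪ Om := Function.Embedding.subtype _
  set Bd : Set Om := ⋃ P : Finset M × Finset M,
    bad A (cell A (P.1.map em) (fun ξ => ξ ∈ P.2.map em)) with hBd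
  have hBdc : Bd.Countable := by
    refine Set.countable_iUnion fun P => ?_
    refine (bad_finite A hA _ (hMg _ ?_ _)).countable
    intro ξ hξ
    rw [Finset.mem_map] at hξ
    obtain ⟨y, _, rfl⟩ := hξ
    exact y.2
  have hex : ∃ ξ, ξ ∉ M ∪ Bd := by
    by_contra hcon
    push Not at hcon
    exact om_unc ((hMc.union hBdc).mono fun x _ => hcon x)
  obtain ⟨ξ, hξ⟩ := hex
  rw [Set.mem_union, not_or] at hξ
  obtain ⟨hξM, hξB⟩ := hξ
  have hnb : ∀ F : Finset Om, (∀ x ∈ F, x ∈ M) → ∀ h : Om → Prop, ξ ∉ bad A (cell A F h) := by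
    intro F hF h hb
    apply hξB
    rw [hBd, Set.mem_iUnion]
    refine ⟨(F.subtype (· ∈ M), (F.filter h).subtype (· ∈ M)), ?_⟩
    have e1 : ((F.subtype (· ∈ M)).map em) = F := by
      ext x
      simp only [Finset.mem_map, Finset.mem_subtype, em, Function.Embedding.subtype_apply]
      constructor
      · rintro ⟨y, hy, rfl⟩
        exact hy
      · intro hx
        exact ⟨⟨x, hF x hx⟩, hx, rfl⟩
    have e2 : (((F.filter h).subtype (· ∈ M)).map em) = F.filter h := by
      ext x
      simp only [Finset.mem_map, Finset.mem_subtype, em, Function.Embedding.subtype_apply]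
      constructor
      · rintro ⟨y, hy, rfl⟩
        exact hy
      · intro hx
        exact ⟨⟨x, hF x (Finset.mem_filter.1 hx).1⟩, hx, rfl⟩
    have e3 : cell A ((F.subtype (· ∈ M)).map em)
        (fun x => x ∈ ((F.filter h).subtype (· ∈ M)).map em) = cell A F h := by
      rw [e1, e2]
      ext α
      simp only [cell, Set.mem_ofPred_eq, Finset.mem_filter]
      constructor
      · intro hh x hx
        rw [hh x hx]
        exact ⟨fun h' => h'.2, fun h' => ⟨hx, h'⟩⟩
      · intro hh x hx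
        rw [hh x hx]
        exact ⟨fun h' => ⟨hx, h'⟩, fun h' => h'.2⟩
    show ξ ∈ bad A (cell A ((F.subtype (· ∈ M)).map em)
        (fun x => x ∈ ((F.filter h).subtype (· ∈ M)).map em))
    rw [e3]
    exact hb
  have hgood : Good A (insert ξ M) := by
    intro F hF h hc
    have hF' : ∀ x ∈ F.erase ξ, x ∈ M := by
      intro x hx
      rw [Finset.mem_erase] at hx
      rcases hF x hx.2 with h' | h'
      · exact absurd h' hx.1
      · exact h'
    have hn := hnb (F.erase ξ) hF' h
    have hn' : ¬ (cell A (F.erase ξ) h ∩ A ξ).Countable ∧ ¬ (cell A (F.erase ξ) h \ A ξ).Countable := by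
      constructor
      · intro h'
        exact hn (Or.inl h')
      · intro h'
        exact hn (Or.inr h')
    by_cases hξh : h ξ
    · apply hn'.1
      refine hc.mono ?_
      rintro α ⟨h1, h2⟩ x hx
      by_cases hxξ : x = ξ
      · subst hxξ
        exact ⟨fun _ => hξh, fun _ => h2⟩
      · exact h1 x (Finset.mem_erase.2 ⟨hxξ, hx⟩)
    · apply hn'.2
      refine hc.mono ?_
      rintro α ⟨h1, h2⟩ x hx
      by_cases hxξ : x = ξ
      · subst hxξ
        exact ⟨fun h' => absurd h' h2, fun h' => absurd h' hξh⟩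
      · exact h1 x (Finset.mem_erase.2 ⟨hxξ, hx⟩)
  exact hξM (hM.le_of_ge hgood (Set.subset_insert ξ M) (Set.mem_insert ξ M))

end Pool.Agent.N348.LZZORN
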