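import Pool.Agent.N348.PL2

set_option autoImplicit false

namespace Pool.Agent.Results.MP_64a7c6_pr.TopRowsNotLogConcave

open Pool.Agent.N348.PL

/-- Answer to Q2 (negative, for every `r ≥ 2` and all large `n`): under the Plancherel measure on the
partitions of `n`, the distribution of `S_r = λ₁ + ⋯ + λ_r` is not log-concave; the inequality fails at
the value `2 r - 1`. -/
theorem result : ∀ r : ℕ, 2 ≤ r → ∃ N : ℕ, ∀ n : ℕ, N ≤ n →
    prob n r (2 * r - 1) ^ 2 < prob n r (2 * r - 2) * prob n r (2 * r) := by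
  intro r hr
  refine ⟨16 * r + 2 ^ (2 * r ^ 2) * 2 ^ (4 * r) * (4 * r).factorial + 1, fun n hn => ?_⟩
  have h := mass_lt hr hn
  have h' : (mass n r (2 * r - 1) : ℝ) ^ 2 < (mass n r (2 * r - 2) : ℝ) * (mass n r (2 * r) : ℝ) := by
    exact_mod_cast h
  have hf : (0 : ℝ) < ((n.factorial : ℝ)) := by exact_mod_cast n.factorial_pos
  rw [prob_eq, prob_eq, prob_eq, div_pow, div_mul_div_comm, ← sq]
  exact div_lt_div_of_pos_right h' (by positivity)

end Pool.Agent.Results.MP_64a7c6_pr.TopRowsNotLogConcave
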