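import Mathlib

set_option autoImplicit false

namespace Pool.Agent.N348.PL

open Finset

/-- A standard Young tableau of shape `μ`: a bijective filling of the cells of `μ` by the
numbers `0, …, |μ| - 1`, strictly increasing along rows and along columns. -/
structure SYT (μ : YoungDiagram) where
  /-- the entry of a cell -/
  entry : μ.cells ≃ Fin μ.card
  /-- rows increase -/
  row_strict : ∀ (i j₁ j₂ : ℕ) (h₁ : (i, j₁) ∈ μ.cells) (h₂ : (i, j₂) ∈ μ.cells), j₁ < j₂ →
    entry ⟨(i, j₁), h₁⟩ < entry ⟨(i, j₂), h₂⟩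
  /-- columns increase -/
  col_strict : ∀ (i₁ i₂ j : ℕ) (h₁ : (i₁, j) ∈ μ.cells) (h₂ : (i₂, j) ∈ μ.cells), i₁ < i₂ →
    entry ⟨(i₁, j), h₁⟩ < entry ⟨(i₂, j), h₂⟩

/-- `f^μ`, the number of standard Young tableaux of shape `μ` -/
noncomputable def numSYT (μ : YoungDiagram) : ℕ := Nat.card (SYT μ)

/-- `λ₁ + ⋯ + λ_r` -/
def topRows (r : ℕ) (μ : YoungDiagram) : ℕ := ∑ i ∈ range r, μ.rowLen i

theorem finite_shapes (n : ℕ) : {μ : YoungDiagram | μ.card = n}.Finite := by
  have h : Set.MapsTo YoungDiagram.cells {μ : YoungDiagram | μ.card = n}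
      (↑((range n ×ˢ range n).powerset) : Set (Finset (ℕ × ℕ))) := by
    intro μ hμ
    rw [Set.mem_ofPred_eq] at hμ
    rw [Finset.mem_coe, Finset.mem_powerset]
    rintro ⟨i, j⟩ hij
    rw [Finset.mem_product, Finset.mem_range, Finset.mem_range]
    constructor
    · have h1 : (range (i + 1)).image (fun a => (a, j)) ⊆ μ.cells := by
        intro c hc
        rw [Finset.mem_image] at hc
        obtain ⟨a, ha, rfl⟩ := hc
        rw [Finset.mem_range] at ha
        exact μ.up_left_mem (by omega) le_rfl hij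
      have h2 := Finset.card_le_card h1
      rw [Finset.card_image_of_injective _ (fun a b hab => by simpa using hab), Finset.card_range] at h2
      have h3 : μ.cells.card = n := hμ
      simp only
      omega
    · have h1 : (range (j + 1)).image (fun a => (i, a)) ⊆ μ.cells := by
        intro c hc
        rw [Finset.mem_image] at hc
        obtain ⟨a, ha, rfl⟩ := hc
        rw [Finset.mem_range] at ha
        exact μ.up_left_mem le_rfl (by omega) hij
      have h2 := Finset.card_le_card h1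
      rw [Finset.card_image_of_injective _ (fun a b hab => by simpa using hab), Finset.card_range] at h2
      have h3 : μ.cells.card = n := hμ
      simp only
      omega
  refine Set.Finite.of_injOn h ?_ (Finset.finite_toSet _)
  intro μ _ ν _ hμν
  exact YoungDiagram.ext hμν

/-- The Young diagrams with `n` cells (the partitions of `n`). -/
noncomputable def shapes (n : ℕ) : Finset YoungDiagram := (finite_shapes n).toFinset

theorem mem_shapes {n : ℕ} {μ : YoungDiagram} : μ ∈ shapes n ↔ μ.card = n := by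
  rw [shapes, Set.Finite.mem_toFinset, Set.mem_ofPred_eq]

/-- The Plancherel probability, on the partitions of `n`, that `λ₁ + ⋯ + λ_r = j`. -/
noncomputable def prob (n r j : ℕ) : ℝ :=
  ∑ μ ∈ shapes n with topRows r μ = j, (numSYT μ : ℝ) ^ 2 / (n.factorial : ℝ)

/-- the unnormalized mass -/
noncomputable def mass (n r j : ℕ) : ℕ := ∑ μ ∈ shapes n with topRows r μ = j, (numSYT μ) ^ 2

theorem prob_eq (n r j : ℕ) : prob n r j = (mass n r j : ℝ) / (n.factorial : ℝ) := by
  unfold prob mass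
  rw [← Finset.sum_div]
  push_cast
  rfl

theorem SYT.ext' {μ : YoungDiagram} {S T : SYT μ} (h : S.entry = T.entry) : S = T := by
  cases S; cases T; simp only at h; subst h; rfl

instance (μ : YoungDiagram) : Finite (SYT μ) :=
  Finite.of_injective (fun S : SYT μ => S.entry) (fun _ _ h => SYT.ext' h)

/-- cells outside the first column -/
def out (μ : YoungDiagram) : Finset (ℕ × ℕ) := μ.cells.filter (fun c => 1 ≤ c.2)

theorem mem_out {μ : YoungDiagram} {c : ℕ × ℕ} : c ∈ out μ ↔ c ∈ μ.cells ∧ 1 ≤ c.2 := by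
  rw [out, Finset.mem_filter]

theorem numSYT_le (μ : YoungDiagram) : numSYT μ ≤ μ.card ^ (out μ).card := by
  classical
  let g : SYT μ → ({c : ℕ × ℕ // c ∈ out μ} → Fin μ.card) := fun S c => S.entry ⟨c.1, (mem_out.1 c.2).1⟩
  have hg : Function.Injective g := by
    intro S T hST
    apply SYT.ext'
    have hout : ∀ c : μ.cells, 1 ≤ c.1.2 → S.entry c = T.entry c := by
      intro c hc
      exact congrFun hST ⟨c.1, mem_out.2 ⟨c.2, hc⟩⟩
    have hmem : ∀ i : Fin (μ.colLen 0), ((i : ℕ), 0) ∈ μ.cells := fun i =>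
      YoungDiagram.mem_iff_lt_colLen.2 i.2
    let F : SYT μ → Fin (μ.colLen 0) → Fin μ.card := fun U i => U.entry ⟨(i, 0), hmem i⟩
    have hF : ∀ U : SYT μ, StrictMono (F U) := fun U a b hab => U.col_strict _ _ _ _ _ hab
    have hr : ∀ U : SYT μ, Set.range (F U) = (U.entry '' {c | 1 ≤ c.1.2})ᶜ := by
      intro U
      ext x
      rw [Set.mem_range, Set.mem_compl_iff, Set.mem_image]
      constructor
      · rintro ⟨i, rfl⟩ ⟨c, hc, hx⟩
        have := U.entry.injective hx
        rw [this] at hc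
        simp at hc
      · intro hx
        obtain ⟨⟨⟨i, j⟩, hc⟩, rfl⟩ := U.entry.surjective x
        have hj : j = 0 := by
          by_contra hj
          exact hx ⟨⟨(i, j), hc⟩, by simp only [Set.mem_ofPred_eq]; omega, rfl⟩
        subst hj
        exact ⟨⟨i, YoungDiagram.mem_iff_lt_colLen.1 hc⟩, rfl⟩
    have hr2 : Set.range (F S) = Set.range (F T) := by
      rw [hr, hr]
      congr 1
      apply Set.image_congr
      intro c hc
      exact hout c hc
    have hFF : F S = F T := ((hF S).range_inj (hF T)).1 hr2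
    ext1 c
    obtain ⟨⟨i, j⟩, hc⟩ := c
    rcases Nat.eq_zero_or_pos j with hj | hj
    · subst hj
      exact congrFun hFF ⟨i, YoungDiagram.mem_iff_lt_colLen.1 hc⟩
    · exact hout ⟨(i, j), hc⟩ hj
  have h := Nat.card_le_card_of_injective g hg
  rw [numSYT]
  refine h.trans (le_of_eq ?_)
  rw [Nat.card_eq_fintype_card, Fintype.card_fun, Fintype.card_coe, Fintype.card_fin]

/-- the two-column shape with columns of lengths `n - k` and `k` -/
def twoCol (n k : ℕ) (h : 2 * k ≤ n) : YoungDiagram where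
  cells := (range (n - k)).image (fun i => (i, 0)) ∪ (range k).image (fun i => (i, 1))
  isLowerSet := by
    rintro ⟨i, j⟩ ⟨i', j'⟩ hle hc
    simp only [Finset.coe_union, Finset.coe_image, Set.mem_union, Set.mem_image, Finset.mem_coe,
      Finset.mem_range, Prod.mk.injEq, Prod.mk_le_mk] at hc hle ⊢
    rcases hc with ⟨a, ha, rfl, rfl⟩ | ⟨a, ha, rfl, rfl⟩
    · left; exact ⟨i', by omega, rfl, by omega⟩
    · rcases Nat.eq_zero_or_pos j' with hj | hj
      · left; exact ⟨i', by omega, rfl, hj.symm⟩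
      · right; exact ⟨i', by omega, rfl, by omega⟩

theorem mem_twoCol {n k : ℕ} {h : 2 * k ≤ n} {i j : ℕ} :
    (i, j) ∈ (twoCol n k h).cells ↔ (j = 0 ∧ i < n - k) ∨ (j = 1 ∧ i < k) := by
  simp only [twoCol, Finset.mem_union, Finset.mem_image, Finset.mem_range, Prod.mk.injEq]
  constructor
  · rintro (⟨a, ha, rfl, rfl⟩ | ⟨a, ha, rfl, rfl⟩)
    · left; exact ⟨rfl, ha⟩
    · right; exact ⟨rfl, ha⟩
  · rintro (⟨rfl, h⟩ | ⟨rfl, h⟩)
    · left; exact ⟨i, h, rfl, rfl⟩
    · right; exact ⟨i, h, rfl, rfl⟩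

theorem card_twoCol {n k : ℕ} {h : 2 * k ≤ n} : (twoCol n k h).card = n := by
  unfold YoungDiagram.card
  show ((range (n - k)).image (fun i => (i, 0)) ∪ (range k).image (fun i => (i, 1))).card = n
  rw [Finset.card_union_of_disjoint, Finset.card_image_of_injective _ (fun a b hab => by simpa using hab),
    Finset.card_image_of_injective _ (fun a b hab => by simpa using hab), Finset.card_range, Finset.card_range]
  · omega
  · rw [Finset.disjoint_left]
    intro c hc hc'
    rw [Finset.mem_image] at hc hc'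
    obtain ⟨a, _, rfl⟩ := hc
    obtain ⟨b, _, hb⟩ := hc'
    simp at hb

theorem rowLen_twoCol {n k : ℕ} {h : 2 * k ≤ n} (i : ℕ) :
    (twoCol n k h).rowLen i = if i < k then 2 else if i < n - k then 1 else 0 := by
  have key : ∀ j, j < (twoCol n k h).rowLen i ↔ (j = 0 ∧ i < n - k) ∨ (j = 1 ∧ i < k) := by
    intro j
    rw [← YoungDiagram.mem_iff_lt_rowLen, ← mem_twoCol (h := h), YoungDiagram.mem_cells]
  have h0 := key 0
  have h1 := key 1
  have h2 := key 2
  split_ifs with h3 h4
  · have : 1 < (twoCol n k h).rowLen i := h1.2 (Or.inr ⟨rfl, h3⟩)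
    have h5 : ¬ 2 < (twoCol n k h).rowLen i := by rw [h2]; omega
    omega
  · have : 0 < (twoCol n k h).rowLen i := h0.2 (Or.inl ⟨rfl, h4⟩)
    have h5 : ¬ 1 < (twoCol n k h).rowLen i := by rw [h1]; omega
    omega
  · have h5 : ¬ 0 < (twoCol n k h).rowLen i := by rw [h0]; omega
    omega


/-- build a tableau from an injective filling with values in `Fin n` -/
noncomputable def ofFun (μ : YoungDiagram) (n : ℕ) (hn : μ.card = n) (e : μ.cells → Fin n)
    (he : Function.Injective e)
    (hrow : ∀ (i j₁ j₂ : ℕ) (h₁ : (i, j₁) ∈ μ.cells) (h₂ : (i, j₂) ∈ μ.cells), j₁ < j₂ →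
      e ⟨(i, j₁), h₁⟩ < e ⟨(i, j₂), h₂⟩)
    (hcol : ∀ (i₁ i₂ j : ℕ) (h₁ : (i₁, j) ∈ μ.cells) (h₂ : (i₂, j) ∈ μ.cells), i₁ < i₂ →
      e ⟨(i₁, j), h₁⟩ < e ⟨(i₂, j), h₂⟩) : SYT μ := by
  subst hn
  exact
    { entry := Equiv.ofBijective e
        ((Fintype.bijective_iff_injective_and_card e).2 ⟨he, by rw [Fintype.card_coe, Fintype.card_fin]⟩)
      row_strict := hrow
      col_strict := hcol }

theorem ofFun_inj (μ : YoungDiagram) (n : ℕ) (hn : μ.card = n) (e e' : μ.cells → Fin n)
    (he : Function.Injective e) (he' : Function.Injective e') (hrow) (hrow') (hcol) (hcol')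
    (h : ofFun μ n hn e he hrow hcol = ofFun μ n hn e' he' hrow' hcol') : e = e' := by
  subst hn
  have h1 := congrArg SYT.entry h
  funext c
  have h2 := congrArg (fun E : μ.cells ≃ Fin μ.card => E c) h1
  exact h2

section lower
variable {n k : ℕ} (h : 2 * k ≤ n)

/-- the filling of the two-column shape with second column `B` -/
noncomputable def fill (B : Finset (Fin n)) (hB : B.card = k) (hB' : Bᶜ.card = n - k) :
    (twoCol n k h).cells → Fin n := fun c =>
  if hc : c.1.2 = 0 then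
    Bᶜ.orderEmbOfFin hB' ⟨c.1.1, by
      have h1 := c.2
      have h2 : (c.1.1, c.1.2) ∈ (twoCol n k h).cells := h1
      rw [mem_twoCol] at h2
      omega⟩
  else
    B.orderEmbOfFin hB ⟨c.1.1, by
      have h1 := c.2
      have h2 : (c.1.1, c.1.2) ∈ (twoCol n k h).cells := h1
      rw [mem_twoCol] at h2
      omega⟩

theorem compl_card (B : Finset (Fin n)) (hB : B.card = k) : Bᶜ.card = n - k := by
  rw [Finset.card_compl, Fintype.card_fin, hB]

theorem fill_zero (B : Finset (Fin n)) (hB : B.card = k) (hB' : Bᶜ.card = n - k) (i : ℕ)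
    (hi : (i, 0) ∈ (twoCol n k h).cells) (hi' : i < n - k) :
    fill h B hB hB' ⟨(i, 0), hi⟩ = Bᶜ.orderEmbOfFin hB' ⟨i, hi'⟩ := by
  unfold fill; rw [dif_pos rfl]

theorem fill_one (B : Finset (Fin n)) (hB : B.card = k) (hB' : Bᶜ.card = n - k) (i : ℕ)
    (hi : (i, 1) ∈ (twoCol n k h).cells) (hi' : i < k) :
    fill h B hB hB' ⟨(i, 1), hi⟩ = B.orderEmbOfFin hB ⟨i, hi'⟩ := by
  unfold fill; rw [dif_neg (by simp)]

theorem fill_injective (B : Finset (Fin n)) (hB : B.card = k) (hB' : Bᶜ.card = n - k) :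
    Function.Injective (fill h B hB hB') := by
  rintro ⟨⟨i, j⟩, hc⟩ ⟨⟨i', j'⟩, hc'⟩ heq
  have h1 := mem_twoCol.1 hc
  have h2 := mem_twoCol.1 hc'
  rcases h1 with ⟨rfl, h1⟩ | ⟨rfl, h1⟩ <;> rcases h2 with ⟨rfl, h2⟩ | ⟨rfl, h2⟩
  · rw [fill_zero h B hB hB' i hc h1, fill_zero h B hB hB' i' hc' h2] at heq
    have := (Bᶜ.orderEmbOfFin hB').injective heq
    simp only [Fin.mk.injEq] at this
    subst this; rfl
  · rw [fill_zero h B hB hB' i hc h1, fill_one h B hB hB' i' hc' h2] at heq
    have h3 := Bᶜ.orderEmbOfFin_mem hB' ⟨i, h1⟩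
    have h4 := B.orderEmbOfFin_mem hB ⟨i', h2⟩
    rw [heq, Finset.mem_compl] at h3
    exact absurd h4 h3
  · rw [fill_one h B hB hB' i hc h1, fill_zero h B hB hB' i' hc' h2] at heq
    have h3 := Bᶜ.orderEmbOfFin_mem hB' ⟨i', h2⟩
    have h4 := B.orderEmbOfFin_mem hB ⟨i, h1⟩
    rw [← heq, Finset.mem_compl] at h3
    exact absurd h4 h3
  · rw [fill_one h B hB hB' i hc h1, fill_one h B hB hB' i' hc' h2] at heq
    have := (B.orderEmbOfFin hB).injective heq
    simp only [Fin.mk.injEq] at this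
    subst this; rfl

/-- if all elements of `B` are at least `k`, the `i`-th element of the complement is below `k` for `i < k` -/
theorem compl_emb_lt (B : Finset (Fin n)) (hB' : Bᶜ.card = n - k) (hBk : ∀ x ∈ B, k ≤ (x : ℕ))
    (i : ℕ) (hi : i < k) (hi' : i < n - k) : ((Bᶜ.orderEmbOfFin hB' ⟨i, hi'⟩ : Fin n) : ℕ) < k := by
  by_contra hcon
  rw [not_lt] at hcon
  have hmem : ∀ a : Fin k, (⟨a, by omega⟩ : Fin n) ∈ Bᶜ := by
    intro a
    rw [Finset.mem_compl]
    intro ha
    have := hBk _ ha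
    simp only at this
    omega
  have hex : ∀ a : Fin k, ∃ b : Fin (n - k), Bᶜ.orderEmbOfFin hB' b = ⟨a, by omega⟩ := by
    intro a
    have := hmem a
    rw [← Finset.mem_coe, ← Finset.range_orderEmbOfFin Bᶜ hB'] at this
    exact this
  choose g hg using hex
  have hlt : ∀ a : Fin k, (g a : ℕ) < i := by
    intro a
    by_contra hc
    rw [not_lt] at hc
    have h1 : Bᶜ.orderEmbOfFin hB' ⟨i, hi'⟩ ≤ Bᶜ.orderEmbOfFin hB' (g a) :=
      (Bᶜ.orderEmbOfFin hB').monotone hc
    rw [hg] at h1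
    have h2 : ((Bᶜ.orderEmbOfFin hB' ⟨i, hi'⟩ : Fin n) : ℕ) ≤ (a : ℕ) := h1
    have := a.2
    omega
  have hinj : Function.Injective (fun a : Fin k => (⟨g a, hlt a⟩ : Fin i)) := by
    intro a b hab
    simp only [Fin.mk.injEq] at hab
    have h1 : g a = g b := Fin.ext hab
    have h2 := hg a
    rw [h1, hg b] at h2
    simp only [Fin.mk.injEq] at h2
    exact Fin.ext h2.symm
  have := Fintype.card_le_of_injective _ hinj
  rw [Fintype.card_fin, Fintype.card_fin] at this
  omega

theorem choose_le_numSYT (hkn : k < n) : (n - k).choose k ≤ numSYT (twoCol n k h) := by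
  classical
  let A : Finset (Fin n) := Finset.Ici ⟨k, hkn⟩
  have hA : A.card = n - k := by rw [Fin.card_Ici]
  have hmem : ∀ B ∈ A.powersetCard k, B.card = k ∧ ∀ x ∈ B, k ≤ (x : ℕ) := by
    intro B hB
    rw [Finset.mem_powersetCard] at hB
    refine ⟨hB.2, fun x hx => ?_⟩
    have := hB.1 hx
    rw [Finset.mem_Ici] at this
    exact this
  let G : {B // B ∈ A.powersetCard k} → SYT (twoCol n k h) := fun B =>
    ofFun (twoCol n k h) n card_twoCol (fill h B.1 (hmem B.1 B.2).1 (compl_card B.1 (hmem B.1 B.2).1))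
      (fill_injective h _ _ _)
      (by
        intro i j₁ j₂ h₁ h₂ hj
        have e1 := mem_twoCol.1 h₁
        have e2 := mem_twoCol.1 h₂
        have hj1 : j₁ = 0 := by omega
        have hj2 : j₂ = 1 := by omega
        subst hj1 hj2
        have hik : i < k := by omega
        rw [fill_zero h _ _ _ i h₁ (by omega), fill_one h _ _ _ i h₂ hik]
        have e3 := compl_emb_lt B.1 (compl_card B.1 (hmem B.1 B.2).1) (hmem B.1 B.2).2 i hik (by omega)
        have e4 := (hmem B.1 B.2).2 _ (B.1.orderEmbOfFin_mem (hmem B.1 B.2).1 ⟨i, hik⟩)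
        exact Fin.lt_def.2 (lt_of_lt_of_le e3 e4))
      (by
        intro i₁ i₂ j h₁ h₂ hi
        have e1 := mem_twoCol.1 h₁
        have e2 := mem_twoCol.1 h₂
        rcases e1 with ⟨rfl, e1⟩ | ⟨rfl, e1⟩
        · rcases e2 with ⟨_, e2⟩ | ⟨e2, _⟩
          · rw [fill_zero h _ _ _ i₁ h₁ e1, fill_zero h _ _ _ i₂ h₂ e2]
            exact (Finset.orderEmbOfFin _ _).strictMono hi
          · omega
        · rcases e2 with ⟨e2, _⟩ | ⟨_, e2⟩
          · omega
          · rw [fill_one h _ _ _ i₁ h₁ e1, fill_one h _ _ _ i₂ h₂ e2]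
            exact (Finset.orderEmbOfFin _ _).strictMono hi)
  have hG : Function.Injective G := by
    intro B B' hBB
    have h1 := ofFun_inj _ _ _ _ _ _ _ _ _ _ _ hBB
    apply Subtype.ext
    have key : ∀ (C : {B // B ∈ A.powersetCard k}) (x : Fin n), x ∈ C.1 ↔
        ∃ (i : ℕ) (hi : (i, 1) ∈ (twoCol n k h).cells),
          fill h C.1 (hmem C.1 C.2).1 (compl_card C.1 (hmem C.1 C.2).1) ⟨(i, 1), hi⟩ = x := by
      intro C x
      constructor
      · intro hx
        rw [← Finset.mem_coe, ← Finset.range_orderEmbOfFin C.1 (hmem C.1 C.2).1] at hx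
        obtain ⟨i, hi⟩ := hx
        have h2 : ((i : ℕ), 1) ∈ (twoCol n k h).cells := mem_twoCol.2 (Or.inr ⟨rfl, i.2⟩)
        exact ⟨i, h2, by rw [fill_one h _ _ _ i h2 i.2]; exact hi⟩
      · rintro ⟨i, hi, rfl⟩
        have h2 := mem_twoCol.1 hi
        rw [fill_one h _ _ _ i hi (by omega)]
        exact Finset.orderEmbOfFin_mem _ _ _
    ext x
    rw [key B x, key B' x]
    constructor
    · rintro ⟨i, hi, rfl⟩
      exact ⟨i, hi, (congrFun h1 _).symm⟩
    · rintro ⟨i, hi, rfl⟩
      exact ⟨i, hi, congrFun h1 _⟩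
  have h1 := Nat.card_le_card_of_injective G hG
  rw [Nat.card_eq_fintype_card, Fintype.card_coe, Finset.card_powersetCard, hA] at h1
  exact h1

end lower

end Pool.Agent.N348.PL
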