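import Pool.Agent.N348.PL

set_option autoImplicit false

namespace Pool.Agent.N348.PL

open Finset

theorem card_eq (μ : YoungDiagram) : μ.card = μ.colLen 0 + (out μ).card := by
  have h := Finset.card_filter_add_card_filter_not (s := μ.cells) (fun c => 1 ≤ c.2)
  have h2 : μ.cells.filter (fun c => ¬ 1 ≤ c.2) = μ.col 0 := by
    unfold YoungDiagram.col
    apply Finset.filter_congr
    intro c _
    omega
  rw [h2, ← YoungDiagram.colLen_eq_card] at h
  unfold out YoungDiagram.card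
  omega

theorem out_injOn (n : ℕ) : Set.InjOn out {μ : YoungDiagram | μ.card = n} := by
  intro μ hμ ν hν h
  rw [Set.mem_ofPred_eq] at hμ hν
  have h1 := card_eq μ
  have h2 := card_eq ν
  have h3 : μ.colLen 0 = ν.colLen 0 := by rw [h] at h1; omega
  apply YoungDiagram.ext
  ext ⟨i, j⟩
  rcases Nat.eq_zero_or_pos j with hj | hj
  · subst hj
    rw [YoungDiagram.mem_cells, YoungDiagram.mem_cells, YoungDiagram.mem_iff_lt_colLen,
      YoungDiagram.mem_iff_lt_colLen, h3]
  · have e1 : (i, j) ∈ out μ ↔ (i, j) ∈ out ν := by rw [h]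
    rw [mem_out, mem_out] at e1
    constructor
    · intro hc; exact (e1.1 ⟨hc, hj⟩).1
    · intro hc; exact (e1.2 ⟨hc, hj⟩).1

theorem out_subset {r : ℕ} {μ : YoungDiagram} (hr : 1 ≤ r) (h : topRows r μ = 2 * r - 1) :
    out μ ⊆ range r ×ˢ range (2 * r) := by
  rintro ⟨i, j⟩ hc
  rw [mem_out] at hc
  have h1 : j < μ.rowLen i := YoungDiagram.mem_iff_lt_rowLen.1 hc.1
  have hj : 1 ≤ j := hc.2
  have hi : i < r := by
    by_contra hi
    rw [not_lt] at hi
    have h2 : ∑ _a ∈ range r, 2 ≤ ∑ a ∈ range r, μ.rowLen a := by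
      apply Finset.sum_le_sum
      intro a ha
      rw [Finset.mem_range] at ha
      have := μ.rowLen_anti a i (by omega)
      omega
    rw [Finset.sum_const, Finset.card_range, smul_eq_mul] at h2
    unfold topRows at h
    omega
  rw [Finset.mem_product, Finset.mem_range, Finset.mem_range]
  refine ⟨hi, ?_⟩
  have h2 : μ.rowLen i ≤ ∑ a ∈ range r, μ.rowLen a :=
    Finset.single_le_sum (f := fun a => μ.rowLen a) (fun _ _ => Nat.zero_le _) (Finset.mem_range.2 hi)
  unfold topRows at h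
  simp only
  omega

theorem card_out_le {r : ℕ} {μ : YoungDiagram} (hr : 1 ≤ r) (h : topRows r μ = 2 * r - 1) :
    (out μ).card ≤ 2 * r - 1 := by
  have h1 : out μ ⊆ (range r).biUnion (fun i => μ.row i) := by
    rintro ⟨i, j⟩ hc
    have h2 := out_subset hr h hc
    rw [Finset.mem_product] at h2
    rw [Finset.mem_biUnion]
    refine ⟨i, h2.1, ?_⟩
    rw [YoungDiagram.mk_mem_row_iff]
    exact (mem_out.1 hc).1
  calc (out μ).card ≤ ((range r).biUnion (fun i => μ.row i)).card := Finset.card_le_card h1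
    _ ≤ ∑ i ∈ range r, (μ.row i).card := Finset.card_biUnion_le
    _ = topRows r μ := by
        unfold topRows
        exact Finset.sum_congr rfl fun i _ => (YoungDiagram.rowLen_eq_card μ).symm
    _ = 2 * r - 1 := h

theorem mass_odd_le {n r : ℕ} (hn : 1 ≤ n) (hr : 1 ≤ r) :
    mass n r (2 * r - 1) ≤ 2 ^ (2 * r ^ 2) * (n ^ (2 * r - 1)) ^ 2 := by
  unfold mass
  have h1 : ∀ μ ∈ (shapes n).filter (fun μ => topRows r μ = 2 * r - 1),
      (numSYT μ) ^ 2 ≤ (n ^ (2 * r - 1)) ^ 2 := by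
    intro μ hμ
    rw [Finset.mem_filter, mem_shapes] at hμ
    apply Nat.pow_le_pow_left
    refine (numSYT_le μ).trans ?_
    rw [hμ.1]
    exact Nat.pow_le_pow_right hn (card_out_le hr hμ.2)
  refine (Finset.sum_le_card_nsmul _ _ _ h1).trans ?_
  rw [smul_eq_mul]
  apply Nat.mul_le_mul_right
  have h2 : ((shapes n).filter (fun μ => topRows r μ = 2 * r - 1)).card ≤
      ((range r ×ˢ range (2 * r)).powerset).card := by
    apply Finset.card_le_card_of_injOn out
    · intro μ hμ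
      rw [Finset.mem_coe, Finset.mem_filter] at hμ
      rw [Finset.mem_coe, Finset.mem_powerset]
      exact out_subset hr hμ.2
    · intro μ hμ ν hν h
      rw [Finset.mem_coe, Finset.mem_filter, mem_shapes] at hμ hν
      exact out_injOn n hμ.1 hν.1 h
  refine h2.trans (le_of_eq ?_)
  rw [Finset.card_powerset, Finset.card_product, Finset.card_range, Finset.card_range]
  congr 1
  ring

theorem one_le_numSYT_twoCol {n k : ℕ} (h : 2 * k ≤ n) (hkn : k < n) : 1 ≤ numSYT (twoCol n k h) :=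
  (Nat.succ_le_of_lt (Nat.choose_pos (by omega))).trans (choose_le_numSYT h hkn)

theorem mass_ge {n r j : ℕ} {μ : YoungDiagram} (hμ : μ.card = n) (hj : topRows r μ = j) :
    (numSYT μ) ^ 2 ≤ mass n r j := by
  unfold mass
  exact Finset.single_le_sum (f := fun μ => (numSYT μ) ^ 2) (fun _ _ => Nat.zero_le _)
    (Finset.mem_filter.2 ⟨mem_shapes.2 hμ, hj⟩)

theorem topRows_big {n k r : ℕ} (h : 2 * k ≤ n) (hr : r ≤ k) : topRows r (twoCol n k h) = 2 * r := by
  unfold topRows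
  rw [Finset.sum_congr rfl (g := fun _ => 2)]
  · rw [Finset.sum_const, Finset.card_range, smul_eq_mul, mul_comm]
  · intro i hi
    rw [Finset.mem_range] at hi
    rw [rowLen_twoCol, if_pos (by omega)]

theorem topRows_small {n r : ℕ} (hr : 2 ≤ r) (h : 2 * (r - 2) ≤ n) (hn : 2 * r ≤ n) :
    topRows r (twoCol n (r - 2) h) = 2 * r - 2 := by
  obtain ⟨s, rfl⟩ : ∃ s, r = s + 2 := ⟨r - 2, by omega⟩
  have hb : topRows s (twoCol n (s + 2 - 2) h) = 2 * s := topRows_big h (by omega)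
  unfold topRows at hb ⊢
  rw [Finset.sum_range_succ, Finset.sum_range_succ, hb, rowLen_twoCol, rowLen_twoCol,
    if_neg (by omega), if_pos (by omega), if_neg (by omega), if_pos (by omega)]
  omega

theorem choose_big {n r : ℕ} (hr : 2 ≤ r)
    (hn : 16 * r + 2 ^ (2 * r ^ 2) * 2 ^ (4 * r) * (4 * r).factorial + 1 ≤ n) :
    2 ^ (2 * r ^ 2) * (n ^ (2 * r - 1)) ^ 2 < (n - 4 * r).choose (4 * r) := by
  have h1 : (((n - 4 * r) + 1 - 4 * r : ℕ) ^ (4 * r)) ≤ (n - 4 * r).choose (4 * r) * (4 * r).factorial := by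
    have := Nat.pow_le_choose (α := ℚ) (4 * r) (n - 4 * r)
    rw [div_le_iff₀ (by positivity)] at this
    exact_mod_cast this
  have h2 : n ^ (4 * r) ≤ 2 ^ (4 * r) * (((n - 4 * r) + 1 - 4 * r : ℕ) ^ (4 * r)) := by
    rw [← mul_pow]
    apply Nat.pow_le_pow_left
    omega
  have h3 : (n ^ (2 * r - 1)) ^ 2 * n ^ 2 = n ^ (4 * r) := by
    rw [← pow_mul, ← pow_add]
    congr 1
    omega
  have h4 : 2 ^ (2 * r ^ 2) * 2 ^ (4 * r) * (4 * r).factorial < n ^ 2 := by
    have : n ≤ n ^ 2 := by nlinarith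
    omega
  have hpos : 0 < 2 ^ (4 * r) * (4 * r).factorial := by positivity
  have hn0 : 0 < (n ^ (2 * r - 1)) ^ 2 := by
    have : 0 < n := by omega
    positivity
  apply lt_of_mul_lt_mul_left (a := 2 ^ (4 * r) * (4 * r).factorial) _ (Nat.zero_le _)
  calc 2 ^ (4 * r) * (4 * r).factorial * (2 ^ (2 * r ^ 2) * (n ^ (2 * r - 1)) ^ 2)
      = (n ^ (2 * r - 1)) ^ 2 * (2 ^ (2 * r ^ 2) * 2 ^ (4 * r) * (4 * r).factorial) := by ring
    _ < (n ^ (2 * r - 1)) ^ 2 * n ^ 2 := Nat.mul_lt_mul_of_pos_left h4 hn0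
    _ = n ^ (4 * r) := h3
    _ ≤ 2 ^ (4 * r) * (((n - 4 * r) + 1 - 4 * r : ℕ) ^ (4 * r)) := h2
    _ ≤ 2 ^ (4 * r) * ((n - 4 * r).choose (4 * r) * (4 * r).factorial) := Nat.mul_le_mul_left _ h1
    _ = 2 ^ (4 * r) * (4 * r).factorial * (n - 4 * r).choose (4 * r) := by ring

theorem mass_lt {n r : ℕ} (hr : 2 ≤ r)
    (hn : 16 * r + 2 ^ (2 * r ^ 2) * 2 ^ (4 * r) * (4 * r).factorial + 1 ≤ n) :
    mass n r (2 * r - 1) ^ 2 < mass n r (2 * r - 2) * mass n r (2 * r) := by
  have h1 := mass_odd_le (n := n) (r := r) (by omega) (by omega)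
  have h2 : 1 ≤ mass n r (2 * r - 2) := by
    have e1 : 2 * (r - 2) ≤ n := by omega
    have e2 := mass_ge (n := n) (r := r) card_twoCol (topRows_small hr e1 (by omega))
    have e3 := one_le_numSYT_twoCol e1 (by omega)
    have e4 := Nat.pow_le_pow_left e3 2
    omega
  have h3 : (n - 4 * r).choose (4 * r) ^ 2 ≤ mass n r (2 * r) := by
    have e1 : 2 * (4 * r) ≤ n := by omega
    have e2 := mass_ge (n := n) (r := r) card_twoCol (topRows_big e1 (by omega : r ≤ 4 * r))
    exact (Nat.pow_le_pow_left (choose_le_numSYT e1 (by omega)) 2).trans e2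
  calc mass n r (2 * r - 1) ^ 2 ≤ (2 ^ (2 * r ^ 2) * (n ^ (2 * r - 1)) ^ 2) ^ 2 := Nat.pow_le_pow_left h1 2
    _ < ((n - 4 * r).choose (4 * r)) ^ 2 := Nat.pow_lt_pow_left (choose_big hr hn) (by norm_num)
    _ ≤ mass n r (2 * r) := h3
    _ ≤ mass n r (2 * r - 2) * mass n r (2 * r) := Nat.le_mul_of_pos_left _ h2

end Pool.Agent.N348.PL
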