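import Pool.Agent.N906.QP.Stm
import Pool.Agent.N906.RS.Asy
import Pool.Agent.N954.KG_BASQ
import Pool.Agent.H813R3.Abc.A

/-!
# Project QP, part FINT: the joint law of the radicals for abc triples
-/

set_option autoImplicit false

namespace Pool.Agent.N348.QP

open NumberField IsDedekindDomain Finset Filter Topology Pool.Agent.H691R3 Pool.Agent.W223.AK
open Pool.Agent.N906.KG Pool.Agent.H813R3.Abc

/-! ### The three points `0, ∞, -1` -/

/-- the points `0, ∞, -1` -/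
def a3 : Fin 3 → ℚ × ℚ := ![(0, 1), (1, 0), (-1, 1)]

theorem al_a3 : Al a3 := by
  constructor
  · intro l h
    fin_cases l
    · have := congrArg Prod.snd h
      simp [a3] at this
    · have := congrArg Prod.fst h
      simp [a3] at this
    · have := congrArg Prod.snd h
      simp [a3] at this
  · intro i j hij
    fin_cases i <;> fin_cases j <;> simp [a3] at hij ⊢

theorem gd_a3 : Gd ∅ a3 := by
  intro v _
  constructor
  · intro l
    fin_cases l <;> simp [a3]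
  · intro i j hij
    fin_cases i <;> fin_cases j <;> simp [a3] at hij ⊢

/-- the members of the triple of `a / b` -/
def mm (a b : ℕ) : Fin 3 → ℕ := ![a, b, a + b]

theorem mm_ne {a b : ℕ} (ha : 0 < a) (hb : 0 < b) (l : Fin 3) : mm a b l ≠ 0 := by
  fin_cases l
  · exact ha.ne'
  · exact hb.ne'
  · exact (Nat.add_pos_left ha b).ne'

theorem of_a3 {a b : ℕ} (ha : 0 < a) (hb : 0 < b) : Of a3 ((a : ℚ) / b) := by
  have h1 : (0 : ℚ) < (a : ℚ) / b := div_pos (by exact_mod_cast ha) (by exact_mod_cast hb)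
  intro l
  fin_cases l
  · simp [a3]
    exact ⟨ha.ne', hb.ne'⟩
  · simp [a3]
  · have : (a : ℚ) / b * 1 - (-1) ≠ 0 := by linarith
    exact this

/-! ### Local computations -/

theorem fv_nat_le (v : HeightOneSpectrum (𝓞 ℚ)) (n : ℕ) : fv v (n : ℚ) ≤ 1 := by
  have := fv_int_le v n
  rwa [Int.cast_natCast] at this

theorem fv_nat_eq_one (v : HeightOneSpectrum (𝓞 ℚ)) (n : ℕ) : fv v (n : ℚ) = 1 ↔ ¬ pr v ∣ n := by
  have h1 := fv_lt_iff v n
  rw [Int.cast_natCast, Int.cast_natCast] at h1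
  rw [dvd_iff, ← h1, not_lt]
  exact ⟨fun h => h.ge, fun h => le_antisymm (fv_nat_le v n) h⟩

theorem max_fv {a b : ℕ} (hab : Nat.Coprime a b) (v : HeightOneSpectrum (𝓞 ℚ)) :
    max (fv v (a : ℚ)) (fv v (b : ℚ)) = 1 := by
  refine le_antisymm (max_le (fv_nat_le v a) (fv_nat_le v b)) ?_
  by_contra h
  rw [not_le, max_lt_iff] at h
  have h1 : pr v ∣ a := by
    by_contra h2
    rw [← fv_nat_eq_one] at h2
    exact absurd h2 h.1.ne
  have h2 : pr v ∣ b := by
    by_contra h2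
    rw [← fv_nat_eq_one] at h2
    exact absurd h2 h.2.ne
  exact Nat.not_coprime_of_dvd_of_dvd (pr_prime v).one_lt h1 h2 hab

theorem max_div {a b : ℕ} (hab : Nat.Coprime a b) (hb : 0 < b) (v : HeightOneSpectrum (𝓞 ℚ)) :
    max (fv v ((a : ℚ) / b)) (fv v (1 : ℚ)) = (fv v (b : ℚ))⁻¹ := by
  have hb' : (b : ℚ) ≠ 0 := by exact_mod_cast hb.ne'
  have hfb : 0 < fv v (b : ℚ) := (fv v).pos hb'
  rw [map_div₀, map_one]
  have h1 : (1 : ℝ) = fv v (b : ℚ) * (fv v (b : ℚ))⁻¹ := (mul_inv_cancel₀ hfb.ne').symm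
  have h2 := max_fv hab v
  rw [div_eq_mul_inv]
  calc max (fv v (a : ℚ) * (fv v (b : ℚ))⁻¹) 1
      = max (fv v (a : ℚ) * (fv v (b : ℚ))⁻¹) (fv v (b : ℚ) * (fv v (b : ℚ))⁻¹) := by rw [← h1]
    _ = max (fv v (a : ℚ)) (fv v (b : ℚ)) * (fv v (b : ℚ))⁻¹ :=
        (max_mul_of_nonneg _ _ (inv_nonneg.2 hfb.le)).symm
    _ = (fv v (b : ℚ))⁻¹ := by rw [h2, one_mul]

theorem lam_eq3 {a b : ℕ} (ha : 0 < a) (hb : 0 < b) (hab : Nat.Coprime a b)
    (v : HeightOneSpectrum (𝓞 ℚ)) (l : Fin 3) :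
    lam (Sum.inr v : Pl ℚ) (aff ((a : ℚ) / b)) (a3 l) = -Real.log (fv v ((mm a b l : ℕ) : ℚ)) := by
  have hb' : (b : ℚ) ≠ 0 := by exact_mod_cast hb.ne'
  have ha' : (a : ℚ) ≠ 0 := by exact_mod_cast ha.ne'
  have hfb : 0 < fv v (b : ℚ) := (fv v).pos hb'
  have hfa : 0 < fv v (a : ℚ) := (fv v).pos ha'
  have hmax := max_div hab hb v
  have h0 : lam (Sum.inr v : Pl ℚ) (aff ((a : ℚ) / b)) (a3 l) =
      Real.log (max (fv v ((a : ℚ) / b)) (fv v (1 : ℚ)) * max (fv v (a3 l).1) (fv v (a3 l).2) /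
        fv v ((a : ℚ) / b * (a3 l).2 - 1 * (a3 l).1)) := rfl
  have h1 : max (fv v (a3 l).1) (fv v (a3 l).2) = 1 := (gd_a3 v (Finset.notMem_empty v)).1 l
  rw [h0, h1, hmax, mul_one]
  have h2 : fv v ((a : ℚ) / b * (a3 l).2 - 1 * (a3 l).1) = fv v ((mm a b l : ℕ) : ℚ) *
      (fv v (b : ℚ))⁻¹ := by
    fin_cases l
    · have e : (a : ℚ) / b * (a3 0).2 - 1 * (a3 0).1 = (a : ℚ) / b := by simp [a3]
      have e2 : ((mm a b 0 : ℕ) : ℚ) = a := rfl
      show fv v ((a : ℚ) / b * (a3 0).2 - 1 * (a3 0).1) = fv v ((mm a b 0 : ℕ) : ℚ) * _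
      rw [e, e2, map_div₀, div_eq_mul_inv]
    · have e : (a : ℚ) / b * (a3 1).2 - 1 * (a3 1).1 = -1 := by simp [a3]
      have e2 : ((mm a b 1 : ℕ) : ℚ) = b := rfl
      show fv v ((a : ℚ) / b * (a3 1).2 - 1 * (a3 1).1) = fv v ((mm a b 1 : ℕ) : ℚ) * _
      rw [e, e2, AbsoluteValue.map_neg, map_one, mul_inv_cancel₀ hfb.ne']
    · have e : (a : ℚ) / b * (a3 2).2 - 1 * (a3 2).1 = ((a + b : ℕ) : ℚ) / b := by
        have : (a3 2) = (-1, 1) := rfl
        rw [this]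
        push_cast
        field_simp
        ring
      have e2 : ((mm a b 2 : ℕ) : ℚ) = ((a + b : ℕ) : ℚ) := rfl
      show fv v ((a : ℚ) / b * (a3 2).2 - 1 * (a3 2).1) = fv v ((mm a b 2 : ℕ) : ℚ) * _
      rw [e, e2, map_div₀, div_eq_mul_inv]
  have hm : ((mm a b l : ℕ) : ℚ) ≠ 0 := by exact_mod_cast mm_ne ha hb l
  have hfm : 0 < fv v ((mm a b l : ℕ) : ℚ) := (fv v).pos hm
  rw [h2, div_mul_eq_div_div_swap, div_self (inv_pos.2 hfb).ne', one_div, Real.log_inv]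

/-- the height -/
theorem hr_eq {a b : ℕ} (ha : 0 < a) (hb : 0 < b) (hab : Nat.Coprime a b) :
    hr (aff ((a : ℚ) / b)) = Real.log (max (a : ℝ) b) := by
  have hb' : (b : ℚ) ≠ 0 := by exact_mod_cast hb.ne'
  have hbR : (0 : ℝ) < b := by exact_mod_cast hb
  have haR : (0 : ℝ) < a := by exact_mod_cast ha
  have hpf := log_product_formula (K := ℚ) hb'
  have e1 : ∀ w : InfinitePlace ℚ, (w.mult : ℝ) * Real.log (w (b : ℚ)) = w.mult * Real.log b := by
    intro w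
    rw [InfinitePlace.map_natCast]
  have hsum : ∑ w : InfinitePlace ℚ, (w.mult : ℝ) = 1 := by
    have := InfinitePlace.sum_mult_eq (K := ℚ)
    rw [Module.finrank_self] at this
    exact_mod_cast this
  rw [Finset.sum_congr rfl fun w _ => e1 w, ← Finset.sum_mul, hsum, one_mul] at hpf
  have h1 : hr (aff ((a : ℚ) / b)) =
      ∑ w : InfinitePlace ℚ, (w.mult : ℝ) * Real.log (max (w ((a : ℚ) / b)) (w (1 : ℚ))) +
      ∑ᶠ v : HeightOneSpectrum (𝓞 ℚ), Real.log (max (fv v ((a : ℚ) / b)) (fv v (1 : ℚ))) := rfl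
  have h2 : ∀ w : InfinitePlace ℚ, (w.mult : ℝ) * Real.log (max (w ((a : ℚ) / b)) (w (1 : ℚ))) =
      w.mult * (Real.log (max (a : ℝ) b) - Real.log b) := by
    intro w
    have h3 : max (w ((a : ℚ) / b)) (w (1 : ℚ)) = max (a : ℝ) b / b := by
      rw [map_div₀, map_one, InfinitePlace.map_natCast, InfinitePlace.map_natCast,
        ← max_div_div_right hbR.le, div_self hbR.ne']
    rw [h3, Real.log_div (lt_max_of_lt_left haR).ne' hbR.ne']
  have h4 : ∑ᶠ v : HeightOneSpectrum (𝓞 ℚ), Real.log (max (fv v ((a : ℚ) / b)) (fv v (1 : ℚ))) =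
      Real.log b := by
    have h5 : ∀ v : HeightOneSpectrum (𝓞 ℚ), Real.log (max (fv v ((a : ℚ) / b)) (fv v (1 : ℚ))) =
        -Real.log (fv v (b : ℚ)) := by
      intro v
      rw [max_div hab hb v, Real.log_inv]
    rw [finsum_congr h5, finsum_neg_distrib]
    linarith
  rw [h1, Finset.sum_congr rfl fun w _ => h2 w, ← Finset.sum_mul, hsum, one_mul, h4]
  ring

/-! ### The radicals -/

theorem Nv_eq (v : HeightOneSpectrum (𝓞 ℚ)) : Nv v = (pr v : ℝ) := by
  have h1 : ((pr v : ℕ) : 𝓞 ℚ) ∈ v.asIdeal := (dvd_iff v (pr v)).1 dvd_rfl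
  have h2 : Ideal.absNorm v.asIdeal ∣ Ideal.absNorm (Ideal.span {((pr v : ℕ) : 𝓞 ℚ)}) :=
    Ideal.absNorm_dvd_absNorm_of_le ((Ideal.span_singleton_le_iff_mem _).mpr h1)
  rw [Ideal.absNorm_span_natCast, RingOfIntegers.rank, Module.finrank_self, pow_one] at h2
  have h3 : Ideal.absNorm v.asIdeal ≠ 1 := by
    have := two_le_Nv v
    unfold Nv at this
    intro h
    rw [h] at this
    norm_num at this
  have h4 := ((Nat.dvd_prime (pr_prime v)).1 h2).resolve_left h3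
  unfold Nv
  rw [h4]

theorem exists_pr {p : ℕ} (hp : p.Prime) : ∃ v : HeightOneSpectrum (𝓞 ℚ), pr v = p := by
  obtain ⟨v, hv⟩ := (Rat.HeightOneSpectrum.primesEquiv (R := 𝓞 ℚ)).surjective ⟨p, hp⟩
  exact ⟨v, congrArg Subtype.val hv⟩

theorem rl_eq {a b : ℕ} (ha : 0 < a) (hb : 0 < b) (hab : Nat.Coprime a b) {P : Fin 3 → Idl ℚ}
    (hP : N906.KG.IsP ∅ a3 ((a : ℚ) / b) P) (l : Fin 3) :
    rl (P l) = Real.log ((∏ p ∈ (mm a b l).primeFactors, p : ℕ) : ℝ) := by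
  classical
  have hm := mm_ne ha hb l
  have h1 : ∀ v, P l v ≠ 0 ↔ pr v ∣ mm a b l := by
    intro v
    have h2 := hP.2 l v (Finset.notMem_empty v)
    rw [lam_eq3 ha hb hab] at h2
    have h3 := log_Nv_pos v
    have hfm : 0 < fv v ((mm a b l : ℕ) : ℚ) := (fv v).pos (by exact_mod_cast hm)
    constructor
    · intro h4
      by_contra h5
      rw [← fv_nat_eq_one] at h5
      rw [h5, Real.log_one, neg_zero] at h2
      rcases mul_eq_zero.1 h2.symm with h6 | h6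
      · exact h4 (by exact_mod_cast h6)
      · exact h3.ne' h6
    · intro h4 h5
      rw [h5, Nat.cast_zero, zero_mul, neg_eq_zero] at h2
      have h6 : fv v ((mm a b l : ℕ) : ℚ) = 1 := Real.eq_one_of_pos_of_log_eq_zero hfm h2
      rw [fv_nat_eq_one] at h6
      exact h6 h4
  have h2 : (P l).support.image pr = (mm a b l).primeFactors := by
    ext p
    rw [Finset.mem_image, Nat.mem_primeFactors]
    constructor
    · rintro ⟨v, hv, rfl⟩
      rw [Finsupp.mem_support_iff] at hv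
      exact ⟨pr_prime v, (h1 v).1 hv, hm⟩
    · rintro ⟨hp, hd, -⟩
      obtain ⟨v, rfl⟩ := exists_pr hp
      exact ⟨v, Finsupp.mem_support_iff.2 ((h1 v).2 hd), rfl⟩
  unfold rl
  rw [← h2, Finset.prod_image fun v _ w _ h => pr_inj h, Nat.cast_prod, Real.log_prod]
  · exact Finset.sum_congr rfl fun v _ => by rw [Nv_eq]
  · intro v _
    exact_mod_cast (pr_prime v).ne_zero

/-! ### The triples -/

theorem div_inj {a b c d : ℕ} (hb : 0 < b) (hd : 0 < d) (hab : Nat.Coprime a b)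
    (hcd : Nat.Coprime c d) (h : (a : ℚ) / b = c / d) : a = c ∧ b = d := by
  have h1 := Rat.div_int_inj (a := a) (b := b) (c := c) (d := d) (by exact_mod_cast hb)
    (by exact_mod_cast hd) (by simpa using hab) (by simpa using hcd) (by push_cast; exact h)
  exact ⟨by exact_mod_cast h1.1, by exact_mod_cast h1.2⟩

theorem tri_finite (A : Fin 3 → ℝ) (X : ℝ) : (Tri A X).Finite := by
  refine Set.Finite.subset (Finset.finite_toSet
    ((range (⌊X⌋₊ + 1)) ×ˢ ((range (⌊X⌋₊ + 1)) ×ˢ (range (⌊X⌋₊ + 1))))) ?_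
  rintro ⟨a, b, c⟩ ⟨h1, h2, h3, h4, h5, -⟩
  simp only at h1 h2 h3 h4 h5
  have h6 : c ≤ ⌊X⌋₊ := Nat.le_floor h5
  simp only [Finset.coe_product, Finset.coe_range, Set.mem_prod, Set.mem_Iio]
  omega

/-- the upper bound -/
theorem up (h1 : S_UPJ ℚ 3 1) {A : Fin 3 → ℝ} (hA0 : ∀ l, 0 < A l) (hA1 : ∀ l, A l ≤ 1)
    (hA2 : 2 < ∑ l, A l) (hA3 : ∑ l, A l < 3) {ε : ℝ} (hε : 0 < ε) :
    ∃ X₀ : ℝ, 1 < X₀ ∧ ∀ X : ℝ, X₀ ≤ X → ((Tri A (Real.exp X)).ncard : ℝ) ≤
      Real.exp ((∑ l, A l - 1) * X + (1 + ε) * ∑ l, √(8 * (1 - A l) * X / Real.log X)) := by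
  classical
  have hsum : ∑ l, (1 - A l) = 3 - ∑ l, A l := by
    rw [Finset.sum_sub_distrib, Finset.sum_const, Finset.card_univ, Fintype.card_fin]
    norm_num
  obtain ⟨X₀, hX₀, h⟩ := h1 a3 ∅ (fun l => 1 - A l) ε (Real.log 2) al_a3 gd_a3
    (fun l => by linarith [hA1 l]) (by rw [hsum]; linarith) (by rw [hsum]; linarith) hε
    (Real.log_nonneg (by norm_num))
  refine ⟨X₀, hX₀, fun X hX => ?_⟩
  have hfin := tri_finite A (Real.exp X)
  set φ : ℕ × ℕ × ℕ → ℚ := fun t => (t.1 : ℚ) / t.2.1 with hφ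
  have hinj : Set.InjOn φ (Tri A (Real.exp X)) := by
    rintro ⟨a, b, c⟩ ⟨g1, g2, g3, g4, -⟩ ⟨a', b', c'⟩ ⟨g1', g2', g3', g4', -⟩ hh
    simp only at g1 g2 g3 g4 g1' g2' g3' g4'
    obtain ⟨i1, i2⟩ := div_inj g2 g2' g3 g3' hh
    subst i1 i2 g4 g4'
    rfl
  have h2 := h X (hfin.toFinset.image φ) hX ?_
  · rw [Finset.card_image_of_injOn (by rwa [Set.Finite.coe_toFinset]),
      ← Set.ncard_eq_toFinset_card _ hfin, hsum] at h2
    have e : 2 - (3 - ∑ l, A l) = ∑ l, A l - 1 := by ring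
    rwa [e] at h2
  · intro x hx
    obtain ⟨t, ht, rfl⟩ := Finset.mem_image.1 hx
    rw [Set.Finite.mem_toFinset] at ht
    obtain ⟨a, b, c⟩ := t
    obtain ⟨g1, g2, g3, g4, g5, g6, g7, g8⟩ := ht
    simp only at g1 g2 g3 g4 g5 g6 g7 g8
    have hOf := of_a3 g1 g2
    obtain ⟨P, hP⟩ := N954.KG.isP_exists al_a3 ∅ hOf
    have hhr := hr_eq g1 g2 g3
    have haR : (0 : ℝ) < a := by exact_mod_cast g1
    have hbR : (0 : ℝ) < b := by exact_mod_cast g2
    have hmax : 0 < max (a : ℝ) b := lt_max_of_lt_left haR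
    have hc : (c : ℝ) = a + b := by rw [← g4]; push_cast; ring
    have hcR : (0 : ℝ) < c := by rw [hc]; linarith
    have hmc : max (a : ℝ) b ≤ c := by rw [hc]; exact max_le (by linarith) (by linarith)
    have hcm : (c : ℝ) ≤ 2 * max (a : ℝ) b := by
      rw [hc]
      linarith [le_max_left (a : ℝ) b, le_max_right (a : ℝ) b]
    have hlc : Real.log c ≤ Real.log 2 + Real.log (max (a : ℝ) b) := by
      rw [← Real.log_mul (by norm_num) hmax.ne']
      exact Real.log_le_log hcR hcm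
    show Of a3 ((a : ℚ) / b) ∧ hr (aff ((a : ℚ) / b)) ≤ X ∧ ∃ P, N906.KG.IsP ∅ a3 ((a : ℚ) / b) P ∧
      ∀ l, rl (P l) ≤ (1 - (1 - A l)) * hr (aff ((a : ℚ) / b)) + Real.log 2
    refine ⟨hOf, ?_, P, hP, fun l => ?_⟩
    · rw [hhr, Real.log_le_iff_le_exp hmax]
      exact hmc.trans g5
    · rw [rl_eq g1 g2 g3 hP l, hhr]
      have hr0 : 0 < ∏ p ∈ (mm a b l).primeFactors, p :=
        Finset.prod_pos fun p hp => (Nat.prime_of_mem_primeFactors hp).pos
      have h3 : ((∏ p ∈ (mm a b l).primeFactors, p : ℕ) : ℝ) ≤ (c : ℝ) ^ (A l) := by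
        fin_cases l
        · exact g6
        · exact g7
        · rw [← g4] at g8 ⊢
          exact g8
      have h4 : Real.log ((∏ p ∈ (mm a b l).primeFactors, p : ℕ) : ℝ) ≤ A l * Real.log c := by
        rw [← Real.log_rpow hcR]
        exact Real.log_le_log (by exact_mod_cast hr0) h3
      have h5 : A l * Real.log c ≤ A l * (Real.log 2 + Real.log (max (a : ℝ) b)) :=
        mul_le_mul_of_nonneg_left hlc (hA0 l).le
      have h6 : A l * Real.log 2 ≤ 1 * Real.log 2 :=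
        mul_le_mul_of_nonneg_right (hA1 l) (Real.log_nonneg (by norm_num))
      nlinarith

/-- the lower bound -/
theorem lo (h2 : S_LOJ ℚ) {A : Fin 3 → ℝ} (hA0 : ∀ l, 0 < A l) (hA1 : ∀ l, A l ≤ 1)
    (hA2 : 2 < ∑ l, A l) (hA3 : ∑ l, A l < 3) {ε : ℝ} (hε : 0 < ε) (hε1 : ε < 1) :
    ∃ X₀ : ℝ, 1 < X₀ ∧ ∀ X : ℝ, X₀ ≤ X →
      Real.exp ((∑ l, A l - 1) * X + (1 - ε) * ∑ l, √(8 * (1 - A l) * X / Real.log X)) ≤
        ((Tri A (Real.exp (X + Real.log 2))).ncard : ℝ) := by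
  classical
  have hsum : ∑ l, (1 - A l) = 3 - ∑ l, A l := by
    rw [Finset.sum_sub_distrib, Finset.sum_const, Finset.card_univ, Fintype.card_fin]
    norm_num
  obtain ⟨X₀, hX₀, h⟩ := h2 3 a3 ∅ (fun l => 1 - A l) ε 0 (by norm_num) al_a3 gd_a3
    (fun l => by linarith [hA1 l]) (by rw [hsum]; linarith) (by rw [hsum]; linarith) hε hε1 le_rfl
  refine ⟨X₀, hX₀, fun X hX => ?_⟩
  obtain ⟨F, hF, hc⟩ := h X hX
  have e : 2 - ∑ l, (1 - A l) = ∑ l, A l - 1 := by rw [hsum]; ring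
  rw [e] at hc
  refine hc.trans ?_
  have hfin := tri_finite A (Real.exp (X + Real.log 2))
  set ψ : ℚ → ℕ × ℕ × ℕ := fun x => (x.num.toNat, x.den, x.num.toNat + x.den) with hψ
  have hpos : ∀ x ∈ F, 0 < x := by
    intro x hx
    obtain ⟨-, -, g3, -⟩ := hF x hx
    obtain ⟨w⟩ := (inferInstance : Nonempty (InfinitePlace ℚ))
    have h3 := g3 w
    have h4 : w.embedding x = ((x : ℝ) : ℂ) := by
      rw [eq_ratCast w.embedding x]
      push_cast
      rfl
    rw [h4, Complex.ofReal_re] at h3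
    exact_mod_cast h3
  have hdiv : ∀ x ∈ F, ((x.num.toNat : ℕ) : ℚ) / x.den = x := by
    intro x hx
    have h3 : 0 ≤ x.num := (Rat.num_pos.2 (hpos x hx)).le
    have h4 : ((x.num.toNat : ℕ) : ℚ) = (x.num : ℚ) := by
      have := Int.toNat_of_nonneg h3
      exact_mod_cast this
    rw [h4]
    exact Rat.num_div_den x
  have hinj : Set.InjOn ψ (F : Set ℚ) := by
    intro x hx y hy hxy
    have h3 : x.num.toNat = y.num.toNat := congrArg Prod.fst hxy
    have h4 : x.den = y.den := congrArg (fun t => t.2.1) hxy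
    rw [← hdiv x hx, ← hdiv y hy, h3, h4]
  have hsub : ((F.image ψ : Finset (ℕ × ℕ × ℕ)) : Set (ℕ × ℕ × ℕ)) ⊆
      Tri A (Real.exp (X + Real.log 2)) := by
    intro t ht
    obtain ⟨x, hx, rfl⟩ := Finset.mem_image.1 (Finset.mem_coe.1 ht)
    obtain ⟨g1, g2, -, P, hP, g4⟩ := hF x hx
    have hnum : 0 < x.num := Rat.num_pos.2 (hpos x hx)
    obtain ⟨a, ha⟩ : ∃ a : ℕ, a = x.num.toNat := ⟨_, rfl⟩
    obtain ⟨b, hb⟩ : ∃ b : ℕ, b = x.den := ⟨_, rfl⟩
    have ha0 : 0 < a := by omega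
    have hb0 : 0 < b := by rw [hb]; exact x.den_pos
    have hab : Nat.Coprime a b := by
      rw [ha, hb]
      have := x.reduced
      rwa [show x.num.natAbs = x.num.toNat by omega] at this
    have hxab : (a : ℚ) / b = x := by rw [ha, hb]; exact hdiv x hx
    rw [← hxab] at g2 hP g4
    have hhr := hr_eq ha0 hb0 hab
    have haR : (0 : ℝ) < a := by exact_mod_cast ha0
    have hbR : (0 : ℝ) < b := by exact_mod_cast hb0
    have hmax : 0 < max (a : ℝ) b := lt_max_of_lt_left haR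
    have hcast : ((a + b : ℕ) : ℝ) = a + b := by push_cast; ring
    have hcR : (0 : ℝ) < ((a + b : ℕ) : ℝ) := by rw [hcast]; linarith
    have hmc : max (a : ℝ) b ≤ ((a + b : ℕ) : ℝ) := by
      rw [hcast]; exact max_le (by linarith) (by linarith)
    have hcm : ((a + b : ℕ) : ℝ) ≤ 2 * max (a : ℝ) b := by
      rw [hcast]
      linarith [le_max_left (a : ℝ) b, le_max_right (a : ℝ) b]
    have key : ∀ l, ((∏ p ∈ (mm a b l).primeFactors, p : ℕ) : ℝ) ≤ ((a + b : ℕ) : ℝ) ^ (A l) := by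
      intro l
      have hr0 : 0 < ∏ p ∈ (mm a b l).primeFactors, p :=
        Finset.prod_pos fun p hp => (Nat.prime_of_mem_primeFactors hp).pos
      have h3 := g4 l
      rw [rl_eq ha0 hb0 hab hP l, hhr, add_zero] at h3
      have h4 : Real.log (max (a : ℝ) b) ≤ Real.log ((a + b : ℕ) : ℝ) := Real.log_le_log hmax hmc
      rw [← Real.log_le_log_iff (by exact_mod_cast hr0) (Real.rpow_pos_of_pos hcR _),
        Real.log_rpow hcR]
      have h5 : (1 - (1 - A l)) = A l := by ring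
      rw [h5] at h3
      exact h3.trans (mul_le_mul_of_nonneg_left h4 (hA0 l).le)
    show ψ x ∈ Tri A (Real.exp (X + Real.log 2))
    have hψx : ψ x = (a, b, a + b) := by rw [ha, hb]
    rw [hψx]
    refine ⟨ha0, hb0, hab, rfl, ?_, key 0, key 1, key 2⟩
    show ((a + b : ℕ) : ℝ) ≤ Real.exp (X + Real.log 2)
    rw [Real.exp_add, Real.exp_log (by norm_num)]
    rw [hhr, Real.log_le_iff_le_exp hmax] at g2
    linarith
  have h3 := Set.ncard_le_ncard hsub hfin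
  rw [Set.ncard_coe_finset, Finset.card_image_of_injOn hinj] at h3
  exact_mod_cast h3

/-- **The joint law of the radicals of abc triples.** -/
theorem fint (h1 : S_UPJ ℚ 3 1) (h2 : S_LOJ ℚ) : S_FINT := by
  intro A hA0 hA1 hA2 hA3
  refine ⟨tri_finite A, ?_⟩
  set c : ℝ := ∑ l, √(8 * (1 - A l)) with hc
  have hsum : ∑ l, (1 - A l) = 3 - ∑ l, A l := by
    rw [Finset.sum_sub_distrib, Finset.sum_const, Finset.card_univ, Fintype.card_fin]
    norm_num
  have hc0 : 0 < c := by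
    obtain ⟨l, hl⟩ : ∃ l, 0 < 1 - A l := by
      by_contra h
      push Not at h
      have : ∑ l, (1 - A l) ≤ 0 := Finset.sum_nonpos fun l _ => h l
      rw [hsum] at this
      linarith
    have h3 : √(8 * (1 - A l)) ≤ c :=
      Finset.single_le_sum (f := fun l => √(8 * (1 - A l))) (fun _ _ => Real.sqrt_nonneg _)
        (Finset.mem_univ l)
    exact (Real.sqrt_pos.2 (by linarith)).trans_le h3
  obtain ⟨k, hk⟩ : ∃ k : ℝ, k = c ^ 2 / 24 := ⟨_, rfl⟩
  have hk0 : 0 < k := by rw [hk]; positivity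
  have h24 : 24 * k = c ^ 2 := by rw [hk]; ring
  have hs : ∀ X : ℝ, 1 < X → ∑ l, √(8 * (1 - A l) * X / Real.log X) =
      √(24 * k * X / Real.log X) := by
    intro X hX
    have hl : 0 < Real.log X := Real.log_pos hX
    have h3 : ∀ l, √(8 * (1 - A l) * X / Real.log X) = √(8 * (1 - A l)) * √(X / Real.log X) := by
      intro l
      rw [mul_div_assoc, Real.sqrt_mul (by linarith [hA1 l])]
    rw [Finset.sum_congr rfl fun l _ => h3 l, ← Finset.sum_mul, h24, mul_div_assoc,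
      Real.sqrt_mul (sq_nonneg c), Real.sqrt_sq hc0.le]
  have h := N906.RS.squeeze (e := ∑ l, A l - 1) hk0 one_pos
    (fun X => ((Tri A (Real.exp X)).ncard : ℝ)) (Real.log 2)
    (fun ε hε => by
      obtain ⟨X₀, hX₀, h3⟩ := up h1 hA0 hA1 hA2 hA3 hε
      refine ⟨X₀, hX₀, fun X hX => ?_⟩
      rw [← hs X (by linarith)]
      exact h3 X hX)
    (fun ε hε hε1 => by
      obtain ⟨X₀, hX₀, h3⟩ := lo h2 hA0 hA1 hA2 hA3 hε hε1
      refine ⟨X₀, hX₀, fun X hX => ?_⟩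
      rw [← hs X (by linarith)]
      exact h3 X hX)
  rw [mul_one, h24, Real.sqrt_sq hc0.le] at h
  refine (h.comp Real.tendsto_log_atTop).congr' ?_
  filter_upwards [eventually_gt_atTop (0 : ℝ)] with X hX
  simp only [Function.comp_apply, one_mul]
  rw [Real.exp_log hX]

end Pool.Agent.N348.QP
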