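import Pool.Agent.Y522.Stm

/-!
# Task SH2: collars of compact pieces of hypersurfaces
-/

set_option autoImplicit false

open Set Filter Topology Metric Function
open scoped Manifold ContDiff

noncomputable section

namespace Pool.Agent.N348.SH

open Pool.Agent.Y522

variable {m : ℕ}

/-- the gradient -/
def gr (ψ : E (m + 1) → ℝ) (p : E (m + 1)) : E (m + 1) :=
  (InnerProductSpace.toDual ℝ (E (m + 1))).symm (fderiv ℝ ψ p)

theorem fderiv_gr (ψ : E (m + 1) → ℝ) (p : E (m + 1)) :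
    fderiv ℝ ψ p (gr ψ p) = ‖gr ψ p‖ ^ 2 := by
  have h : fderiv ℝ ψ p = InnerProductSpace.toDual ℝ (E (m + 1)) (gr ψ p) := by
    unfold gr
    rw [LinearIsometryEquiv.apply_symm_apply]
  conv_lhs => rw [h]
  rw [InnerProductSpace.toDual_apply_apply, real_inner_self_eq_norm_sq]

theorem gr_ne {ψ : E (m + 1) → ℝ} {p : E (m + 1)} (h : fderiv ℝ ψ p ≠ 0) : gr ψ p ≠ 0 := by
  intro h0
  apply h
  have h1 : fderiv ℝ ψ p = InnerProductSpace.toDual ℝ (E (m + 1)) (gr ψ p) := by
    unfold gr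
    rw [LinearIsometryEquiv.apply_symm_apply]
  rw [h1, h0, map_zero]

theorem gr_smooth {ψ : E (m + 1) → ℝ} {p : E (m + 1)} (h : ContDiffAt ℝ ∞ ψ p) :
    ContDiffAt ℝ ∞ (gr ψ) p := by
  have h1 : ContDiffAt ℝ ∞ (fderiv ℝ ψ) p := h.fderiv_right (m := ∞) (by simp)
  exact ((InnerProductSpace.toDual ℝ (E (m + 1))).symm.contDiff.contDiffAt).comp p h1

/-- the collar map -/
def FF (g : E m → E (m + 1)) (ψ : E (m + 1) → ℝ) (z : E (m + 1)) : E (m + 1) :=
  g (tl z) + z 0 • gr ψ (g (tl z))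

/-- the first coordinate -/
def hd0 : E (m + 1) →L[ℝ] ℝ := EuclideanSpace.proj (𝕜 := ℝ) (0 : Fin (m + 1))

theorem hd0_apply (z : E (m + 1)) : (hd0 : E (m + 1) →L[ℝ] ℝ) z = z 0 := rfl

theorem tl_e0 : tl (e0 : E (m + 1)) = 0 := by
  unfold e0
  rw [tl_cn]

theorem collar : StCollar := by
  intro m g ψ N R hR hN hψ hg hginj hgd hgN hψg hψd
  -- smoothness of `F`
  have hsm : ∀ x, ‖x‖ ≤ R → ∀ᶠ z in 𝓝 (cn 0 x : E (m + 1)),
      ContDiffAt ℝ ∞ (FF g ψ) z ∧ FF g ψ z ∈ N := by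
    intro x hx
    have htl : Tendsto (fun z : E (m + 1) => tl z) (𝓝 (cn 0 x)) (𝓝 x) := by
      have := (tl (m := m)).continuous.tendsto (cn 0 x)
      rwa [tl_cn] at this
    have h1 : ∀ᶠ y in 𝓝 x, ContDiffAt ℝ ∞ g y ∧ g y ∈ N := by
      refine (hg x hx).and ?_
      exact ((hg x hx).self_of_nhds.continuousAt).eventually (hN.mem_nhds (hgN x hx))
    have h2 : ∀ᶠ z in 𝓝 (cn 0 x : E (m + 1)), ContDiffAt ℝ ∞ (FF g ψ) z := by
      filter_upwards [htl.eventually h1] with z hz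
      unfold FF
      have g1 : ContDiffAt ℝ ∞ (fun z : E (m + 1) => g (tl z)) z :=
        ContDiffAt.comp z hz.1 (tl (m := m)).contDiff.contDiffAt
      have g2 : ContDiffAt ℝ ∞ (fun z : E (m + 1) => gr ψ (g (tl z))) z :=
        ContDiffAt.comp (f := fun z : E (m + 1) => g (tl z)) z (gr_smooth (hψ _ hz.2)) g1
      have g3 : ContDiffAt ℝ ∞ (fun z : E (m + 1) => z 0) z :=
        (hd0 (m := m)).contDiff.contDiffAt
      exact g1.add (g3.smul g2)
    have h3 : ∀ᶠ z in 𝓝 (cn 0 x : E (m + 1)), FF g ψ z ∈ N := by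
      have h4 : FF g ψ (cn 0 x) ∈ N := by
        unfold FF
        rw [tl_cn, cn_zero, zero_smul, add_zero]
        exact hgN x hx
      exact h2.self_of_nhds.continuousAt.eventually (hN.mem_nhds h4)
    exact h2.and h3
  have hF0 : ∀ x, FF g ψ (cn 0 x) = g x := by
    intro x
    unfold FF
    rw [tl_cn, cn_zero, zero_smul, add_zero]
  -- the derivative
  have hder : ∀ x, ‖x‖ ≤ R → HasFDerivAt (FF g ψ)
      ((fderiv ℝ g x).comp (tl (m := m)) + (hd0 (m := m)).smulRight (gr ψ (g x))) (cn 0 x) := by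
    intro x hx
    have hgx : ContDiffAt ℝ ∞ g x := (hg x hx).self_of_nhds
    have g0 : HasFDerivAt g (fderiv ℝ g x) (tl (cn 0 x : E (m + 1))) := by
      rw [tl_cn]
      exact (hgx.differentiableAt (by simp)).hasFDerivAt
    have g1 : HasFDerivAt (fun z : E (m + 1) => g (tl z)) ((fderiv ℝ g x).comp (tl (m := m)))
        (cn 0 x) := g0.comp _ (tl (m := m)).hasFDerivAt
    have g2 : DifferentiableAt ℝ (fun z : E (m + 1) => gr ψ (g (tl z))) (cn 0 x) := by
      have h1 : ContDiffAt ℝ ∞ (gr ψ) (g (tl (cn 0 x : E (m + 1)))) := by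
        rw [tl_cn]
        exact gr_smooth (hψ _ (hgN x hx))
      exact DifferentiableAt.comp (f := fun z : E (m + 1) => g (tl z)) _
        (h1.differentiableAt (by simp)) g1.differentiableAt
    have g3 : HasFDerivAt (fun z : E (m + 1) => z 0) (hd0 (m := m)) (cn 0 x) :=
      (hd0 (m := m)).hasFDerivAt
    have g4 := g1.add (g3.smul g2.hasFDerivAt)
    refine g4.congr_fderiv ?_
    rw [cn_zero, zero_smul, zero_add, tl_cn]
  -- composition with `ψ`
  have hDg : ∀ x, ‖x‖ ≤ R → ∀ v, fderiv ℝ ψ (g x) (fderiv ℝ g x v) = 0 := by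
    intro x hx v
    have hgx : ContDiffAt ℝ ∞ g x := (hg x hx).self_of_nhds
    have h1 : HasFDerivAt (fun y => ψ (g y)) ((fderiv ℝ ψ (g x)).comp (fderiv ℝ g x)) x :=
      ((hψ _ (hgN x hx)).differentiableAt (by simp)).hasFDerivAt.comp x
        (hgx.differentiableAt (by simp)).hasFDerivAt
    have h2 : HasFDerivAt (fun y => ψ (g y)) (0 : E m →L[ℝ] ℝ) x := by
      refine (hasFDerivAt_const (0 : ℝ) x).congr_of_eventuallyEq ?_
      exact hψg x hx
    have h3 := h1.unique h2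
    have h4 := congrArg (fun L : E m →L[ℝ] ℝ => L v) h3
    simpa using h4
  have hLD : ∀ x, ‖x‖ ≤ R → LD (m + 1) (FF g ψ) (cn 0 x) := by
    intro x hx
    set L : E (m + 1) →L[ℝ] E (m + 1) :=
      (fderiv ℝ g x).comp (tl (m := m)) + (hd0 (m := m)).smulRight (gr ψ (g x)) with hL
    have hn := gr_ne (hψd x hx)
    have hinj : Injective (L : E (m + 1) →ₗ[ℝ] E (m + 1)) := by
      rw [← LinearMap.ker_eq_bot, LinearMap.ker_eq_bot']
      intro v hv
      have hv' : fderiv ℝ g x (tl v) + v 0 • gr ψ (g x) = 0 := hv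
      have h1 := congrArg (fderiv ℝ ψ (g x)) hv'
      rw [map_add, map_smul, hDg x hx, fderiv_gr, zero_add, map_zero, smul_eq_mul] at h1
      have h2 : v 0 = 0 := by
        rcases mul_eq_zero.1 h1 with h | h
        · exact h
        · exact absurd h (by positivity)
      rw [h2, zero_smul, add_zero] at hv'
      have h3 : tl v = 0 := hgd x hx (by rw [hv', map_zero])
      rw [← cn_tl v, h2, h3]
      ext i
      refine Fin.cases ?_ (fun i => ?_) i <;> simp
    let e := LinearEquiv.ofInjectiveEndo (L : E (m + 1) →ₗ[ℝ] E (m + 1)) hinj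
    have he : (e.toContinuousLinearEquiv : E (m + 1) →L[ℝ] E (m + 1)) = L := by
      ext1 v
      rfl
    refine LD_of_contDiffAt ((hsm x hx).mono fun z hz => hz.1) e.toContinuousLinearEquiv ?_
    rw [he]
    exact hder x hx
  -- the compact set
  have hK : IsCompact (box m R 0) := isCompact_box R 0
  have hKmem : ∀ z ∈ box m R 0, ‖tl z‖ ≤ R ∧ z = cn 0 (tl z) := by
    intro z hz
    refine ⟨hz.1, ?_⟩
    have : z 0 = 0 := abs_nonpos_iff.1 hz.2
    conv_lhs => rw [← cn_tl z, this]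
  have hinjK : InjOn (FF g ψ) (box m R 0) := by
    intro z hz w hw hzw
    obtain ⟨h1, h2⟩ := hKmem z hz
    obtain ⟨h3, h4⟩ := hKmem w hw
    rw [h2, h4, hF0, hF0] at hzw
    have := hginj (by simpa using h1) (by simpa using h3) hzw
    rw [h2, h4, this]
  obtain ⟨t, ht, htinj⟩ := hinjK.exists_mem_nhdsSet hK
    (fun z hz => by
      obtain ⟨h1, h2⟩ := hKmem z hz
      rw [h2]
      exact (hLD _ h1).continuousAt)
    (fun z hz => by
      obtain ⟨h1, h2⟩ := hKmem z hz
      rw [h2]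
      exact (hLD _ h1).eventually_injOn)
  -- good points
  have hgood : {z : E (m + 1) | LD (m + 1) (FF g ψ) z ∧ FF g ψ z ∈ N ∧
      ContDiffAt ℝ ∞ (FF g ψ) z ∧ 0 < fderiv ℝ (fun w => ψ (FF g ψ w)) z e0} ∈ 𝓝ˢ (box m R 0) := by
    rw [mem_nhdsSet_iff_forall]
    intro z hz
    obtain ⟨h1, h2⟩ := hKmem z hz
    rw [h2]
    obtain ⟨x, hx⟩ : ∃ x, x = tl z := ⟨_, rfl⟩
    rw [← hx] at h1 ⊢
    have hq : ContDiffAt ℝ ∞ (fun w => ψ (FF g ψ w)) (cn 0 x) := by
      have h3 : ContDiffAt ℝ ∞ ψ (FF g ψ (cn 0 x)) := by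
        rw [hF0]; exact hψ _ (hgN x h1)
      exact ContDiffAt.comp (f := FF g ψ) _ h3 (hsm x h1).self_of_nhds.1
    have hq' : HasFDerivAt (fun w => ψ (FF g ψ w)) ((fderiv ℝ ψ (g x)).comp
        ((fderiv ℝ g x).comp (tl (m := m)) + (hd0 (m := m)).smulRight (gr ψ (g x)))) (cn 0 x) := by
      have h3 : HasFDerivAt ψ (fderiv ℝ ψ (g x)) (FF g ψ (cn 0 x)) := by
        rw [hF0]
        exact ((hψ _ (hgN x h1)).differentiableAt (by simp)).hasFDerivAt
      exact h3.comp _ (hder x h1)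
    have hpos : 0 < fderiv ℝ (fun w => ψ (FF g ψ w)) (cn 0 x) e0 := by
      rw [hq'.fderiv]
      have e1 : (fderiv ℝ ψ (g x)).comp ((fderiv ℝ g x).comp (tl (m := m)) +
          (hd0 (m := m)).smulRight (gr ψ (g x))) e0 = fderiv ℝ ψ (g x) (fderiv ℝ g x (tl e0) +
            (e0 : E (m + 1)) 0 • gr ψ (g x)) := rfl
      have e2 : (e0 : E (m + 1)) 0 = 1 := rfl
      rw [e1, e2, one_smul, map_add, hDg x h1, zero_add, fderiv_gr]
      have := gr_ne (hψd x h1)
      positivity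
    have hcont : ContinuousAt (fun z => fderiv ℝ (fun w => ψ (FF g ψ w)) z e0) (cn 0 x) := by
      have h3 : ContinuousAt (fderiv ℝ (fun w => ψ (FF g ψ w))) (cn 0 x) :=
        (hq.fderiv_right (m := 0) (by simp)).continuousAt
      exact h3.clm_apply continuousAt_const
    filter_upwards [(hLD x h1).eventually, hsm x h1, hcont.eventually (lt_mem_nhds hpos)] with
      w a1 a2 a3
    exact ⟨a1, a2.2, a2.1, a3⟩
  obtain ⟨W, hWo, hKW, hWs⟩ := mem_nhdsSet_iff_exists.1 (Filter.inter_mem ht hgood)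
  obtain ⟨ε, hε, hεW⟩ := hK.exists_thickening_subset_open hWo hKW
  have hbox : ∀ z ∈ box m R (ε / 2), z ∈ W := by
    intro z hz
    apply hεW
    rw [mem_thickening_iff]
    refine ⟨cn 0 (tl z), ⟨by simpa using hz.1, by simp⟩, ?_⟩
    rw [dist_eq_norm]
    have h1 : z - cn 0 (tl z) = cn (z 0) 0 := by
      ext i
      refine Fin.cases ?_ (fun i => ?_) i <;> simp
    have h2 : ‖(cn (z 0) 0 : E (m + 1))‖ = |z 0| := by
      have := norm_cn_sq (m := m) (z 0) 0
      rw [norm_zero] at this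
      have h3 : ‖(cn (z 0) 0 : E (m + 1))‖ ^ 2 = |z 0| ^ 2 := by rw [this, sq_abs]; ring
      exact (sq_eq_sq₀ (norm_nonneg _) (abs_nonneg _)).1 h3
    rw [h1, h2]
    have := hz.2
    linarith
  refine ⟨ε / 2, by positivity, FF g ψ, fun x _ => hF0 x, ?_, ?_, ?_⟩
  · intro z hz w hw hzw
    exact htinj (hWs (hbox z hz)).1 (hWs (hbox w hw)).1 hzw
  · intro z hz
    have := (hWs (hbox z hz)).2
    exact ⟨this.1, this.2.1⟩
  · intro z hz
    obtain ⟨x, hx⟩ : ∃ x, x = tl z := ⟨_, rfl⟩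
    have hxR : ‖x‖ ≤ R := by rw [hx]; exact hz.1
    have hmem : ∀ s : ℝ, |s| ≤ ε / 2 → (cn s x : E (m + 1)) ∈ box m R (ε / 2) := by
      intro s hs
      exact ⟨by rwa [tl_cn], by simpa using hs⟩
    have hder1 : ∀ s : ℝ, |s| ≤ ε / 2 → HasDerivAt (fun s : ℝ => ψ (FF g ψ (cn s x)))
        (fderiv ℝ (fun w => ψ (FF g ψ w)) (cn s x) e0) s := by
      intro s hs
      have hw := (hWs (hbox _ (hmem s hs))).2
      have hq : DifferentiableAt ℝ (fun w => ψ (FF g ψ w)) (cn s x) := by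
        have h3 : DifferentiableAt ℝ ψ (FF g ψ (cn s x)) :=
          (hψ _ hw.2.1).differentiableAt (by simp)
        exact DifferentiableAt.comp (f := FF g ψ) _ h3 (hw.2.2.1.differentiableAt (by simp))
      have hc : HasDerivAt (fun s : ℝ => (cn s x : E (m + 1))) e0 s := by
        have : (fun s : ℝ => (cn s x : E (m + 1))) = fun s : ℝ => s • e0 + cn 0 x := by
          funext s; exact cn_eq s x
        rw [this]
        have h5 := ((hasDerivAt_id s).smul_const (e0 : E (m + 1))).add_const (cn 0 x)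
        simpa using h5
      exact HasFDerivAt.comp_hasDerivAt (l := fun w => ψ (FF g ψ w))
        (f := fun s : ℝ => (cn s x : E (m + 1))) s hq.hasFDerivAt hc
    have hmono : StrictMonoOn (fun s : ℝ => ψ (FF g ψ (cn s x))) (Icc (-(ε / 2)) (ε / 2)) := by
      apply strictMonoOn_of_deriv_pos (convex_Icc _ _)
      · intro s hs
        exact (hder1 s (abs_le.2 hs)).continuousAt.continuousWithinAt
      · intro s hs
        rw [interior_Icc] at hs
        have hs' : |s| ≤ ε / 2 := abs_le.2 ⟨hs.1.le, hs.2.le⟩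
        rw [(hder1 s hs').deriv]
        exact (hWs (hbox _ (hmem s hs'))).2.2.2.2
    have h0 : ψ (FF g ψ (cn 0 x)) = 0 := by
      rw [hF0]
      exact (hψg x hxR).self_of_nhds
    have hz0 : z = cn (z 0) x := by rw [hx, cn_tl]
    have hzI : z 0 ∈ Icc (-(ε / 2)) (ε / 2) := abs_le.1 hz.2
    have h0I : (0 : ℝ) ∈ Icc (-(ε / 2)) (ε / 2) := ⟨by linarith, by linarith⟩
    constructor
    · intro hp
      have := hmono h0I hzI hp
      simp only [h0] at this
      rwa [← hz0] at this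
    · intro hp
      have := hmono hzI h0I hp
      simp only [h0] at this
      rwa [← hz0] at this

end Pool.Agent.N348.SH
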