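import Mathlib
import Pool.Agent.N753.SU.StmM

/-!
# Size of a polynomial in several variables at all places; zeros in a box
-/

set_option autoImplicit false
set_option linter.unusedSectionVars false

namespace Pool.Agent.N348.SU

open NumberField IsDedekindDomain Finset Pool.Agent.H691R3
open Pool.Agent.TH876.Loc hiding mx
open Pool.Agent.N753.LS Pool.Agent.N753.SF Pool.Agent.N753.SU Polynomial

section Abs

variable {K : Type} [Field K]

theorem key {m : ℕ} (G : MvPolynomial (Fin m) K) {g : AbsoluteValue K ℝ} {A : ℝ} (hA : Qm g A)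
    (y : Fin m → K) (hy : MvPolynomial.eval y G ≠ 0) :
    Real.log (g (MvPolynomial.eval y G)) ≤
      ∑ i, (G.degreeOf i : ℝ) * Real.log (max (g (y i)) 1) +
        (∑ s ∈ G.support, Real.log (max (g (G.coeff s)) 1) + G.support.card * Real.log A) := by
  have hA0 : 0 < A := lt_of_lt_of_le one_pos hA.1
  have hmx : ∀ x : K, 1 ≤ max (g x) 1 := fun x => le_max_right _ _
  have hmx0 : ∀ x : K, 0 < max (g x) 1 := fun x => lt_of_lt_of_le one_pos (hmx x)
  obtain ⟨P, hP⟩ : ∃ P : ℝ, P = ∏ i, max (g (y i)) 1 ^ G.degreeOf i := ⟨_, rfl⟩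
  obtain ⟨B, hB⟩ : ∃ B : ℝ, B = ∏ s ∈ G.support, max (g (G.coeff s)) 1 := ⟨_, rfl⟩
  have hP0 : 0 < P := by rw [hP]; exact Finset.prod_pos fun i _ => pow_pos (hmx0 _) _
  have hB0 : 0 < B := by rw [hB]; exact Finset.prod_pos fun i _ => hmx0 _
  have h1 : g (MvPolynomial.eval y G) ≤ A ^ G.support.card * (B * P) := by
    rw [MvPolynomial.eval_eq']
    refine qm_sum hA _ _ (by positivity) ?_
    intro s hs
    rw [map_mul, map_prod]
    refine mul_le_mul ?_ ?_ (Finset.prod_nonneg fun i _ => g.nonneg _) hB0.le
    · rw [hB]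
      refine (le_max_left _ (1 : ℝ)).trans ?_
      rw [← Finset.mul_prod_erase _ _ hs]
      refine le_mul_of_one_le_right (hmx0 _).le ?_
      refine Finset.prod_induction _ (fun x : ℝ => 1 ≤ x) (fun a b ha hb => ?_) le_rfl
        (fun s _ => hmx _)
      exact one_le_mul_of_one_le_of_one_le ha hb
    · rw [hP]
      refine Finset.prod_le_prod (fun i _ => g.nonneg _) fun i _ => ?_
      rw [map_pow]
      exact (pow_le_pow_left₀ (g.nonneg _) (le_max_left _ 1) _).trans
        (pow_le_pow_right₀ (hmx _) (MvPolynomial.monomial_le_degreeOf i hs))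
  have h2 := Real.log_le_log (g.pos hy) h1
  rw [Real.log_mul (by positivity) (by positivity), Real.log_mul (by positivity) (by positivity),
    Real.log_pow, hB, hP, Real.log_prod (fun s _ => (hmx0 _).ne'),
    Real.log_prod (fun i _ => (pow_pos (hmx0 _) _).ne')] at h2
  have h3 : ∑ i, Real.log (max (g (y i)) 1 ^ G.degreeOf i) =
      ∑ i, (G.degreeOf i : ℝ) * Real.log (max (g (y i)) 1) :=
    Finset.sum_congr rfl fun i _ => by rw [Real.log_pow]
  rw [h3] at h2
  linarith

end Abs

theorem um : StmUM := by
  intro K _ _ m G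
  refine ⟨fun p => ∑ s ∈ G.support, mx p (G.coeff s) +
    Sum.elim (fun w : InfinitePlace K => (w.mult : ℝ) * (G.support.card * Real.log 2))
      (fun _ : HeightOneSpectrum (𝓞 K) => (0 : ℝ)) p, ?_, ?_, ?_⟩
  · intro p
    refine add_nonneg (Finset.sum_nonneg fun s _ => mx_nonneg _ _) ?_
    rcases p with w | v
    · simp only [Sum.elim_inl]
      have := Real.log_nonneg (by norm_num : (1 : ℝ) ≤ 2)
      positivity
    · simp only [Sum.elim_inr]
      exact le_rfl
  · refine ((Set.finite_range (Sum.inl : InfinitePlace K → Pl K)).union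
      (((G.support.finite_toSet.biUnion fun s _ => mx_fin (G.coeff s)).image
        (Sum.inr : Pr K → Pl K)))).subset ?_
    intro p hp
    rcases p with w | v
    · exact Or.inl ⟨w, rfl⟩
    · right
      refine ⟨v, ?_, rfl⟩
      by_contra hcon
      apply hp
      simp only [Sum.elim_inr, add_zero]
      refine Finset.sum_eq_zero fun s hs => ?_
      by_contra h
      apply hcon
      simp only [Set.mem_iUnion]
      exact ⟨s, hs, h⟩
  · intro y hy p
    rcases p with w | v
    · have h := key G (qm_two w.1) y hy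
      have h2 := mul_le_mul_of_nonneg_left h (Nat.cast_nonneg (α := ℝ) w.mult)
      refine h2.trans (le_of_eq ?_)
      simp only [Sum.elim_inl]
      show _ = ∑ i, (G.degreeOf i : ℝ) * ((w.mult : ℝ) * Real.log (max (w (y i)) 1)) +
        (∑ s ∈ G.support, (w.mult : ℝ) * Real.log (max (w (G.coeff s)) 1) +
          (w.mult : ℝ) * (G.support.card * Real.log 2))
      rw [mul_add, mul_add, Finset.mul_sum, Finset.mul_sum]
      congr 1
      refine Finset.sum_congr rfl fun i _ => ?_
      have : w.1 (y i) = w (y i) := rfl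
      rw [this]
      ring
    · have h := key G (qm_na v) y hy
      rw [Real.log_one, mul_zero] at h
      exact h

theorem zm : StmZM := by
  classical
  intro K _ _ m n hn
  rcases Nat.eq_zero_or_pos m with hm | hm
  · subst hm
    refine ⟨1, one_pos, fun H hH S hS => ?_⟩
    have : S = ∅ := by
      rw [Finset.eq_empty_iff_forall_notMem]
      intro y hy
      have h1 := (hS y hy).2
      rw [MvPolynomial.eq_C_of_isEmpty n, MvPolynomial.eval_C] at h1
      apply hn
      rw [MvPolynomial.eq_C_of_isEmpty n, h1, map_zero]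
    rw [this, Finset.card_empty, Nat.cast_zero]
    positivity
  obtain ⟨k, rfl⟩ : ∃ k, m = k + 1 := ⟨m - 1, by omega⟩
  have hδ : (0 : ℝ) < 1 / (k + 1) := by positivity
  obtain ⟨C, hC, hcount⟩ := count_all K hδ
  refine ⟨(n.totalDegree + 1) * C ^ k, by positivity, ?_⟩
  intro H hH S hS
  set b : Finset K := univ.biUnion fun i => S.image (fun y => y i) with hb
  have hbm : ∀ x ∈ b, hr (aff x) ≤ H := by
    intro x hx
    rw [hb, Finset.mem_biUnion] at hx
    obtain ⟨i, _, hx⟩ := hx
    obtain ⟨y, hy, rfl⟩ := Finset.mem_image.1 hx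
    exact (hS y hy).1 i
  have hbc := hcount H hH b hbm
  have hsub : S ⊆ (Fintype.piFinset fun _ => b).filter (fun y => MvPolynomial.eval y n = 0) := by
    intro y hy
    rw [Finset.mem_filter, Fintype.mem_piFinset]
    refine ⟨fun i => ?_, (hS y hy).2⟩
    rw [hb, Finset.mem_biUnion]
    exact ⟨i, Finset.mem_univ _, Finset.mem_image.2 ⟨y, hy, rfl⟩⟩
  have hcard := Finset.card_le_card hsub
  have hSZ := MvPolynomial.schwartz_zippel_totalDegree hn b
  rcases Nat.eq_zero_or_pos b.card with h0 | h0
  · have hb0 : b = ∅ := Finset.card_eq_zero.1 h0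
    have : (Fintype.piFinset fun _ : Fin (k + 1) => b) = ∅ := by
      rw [hb0, Finset.eq_empty_iff_forall_notMem]
      intro y hy
      exact absurd (Fintype.mem_piFinset.1 hy 0) (Finset.notMem_empty _)
    rw [this, Finset.filter_empty, Finset.card_empty] at hcard
    have : S.card = 0 := by omega
    rw [this, Nat.cast_zero]
    positivity
  · have h1 : (((Fintype.piFinset fun _ : Fin (k + 1) => b).filter
        (fun y => MvPolynomial.eval y n = 0)).card : ℝ) ≤ n.totalDegree * (b.card : ℝ) ^ k := by
      have h2 : ((((Fintype.piFinset fun _ : Fin (k + 1) => b).filter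
        (fun y => MvPolynomial.eval y n = 0)).card : ℝ)) / ((b.card : ℝ) ^ (k + 1)) ≤
          n.totalDegree / (b.card : ℝ) := by
        have h3 := (NNRat.cast_le (K := ℝ)).2 hSZ
        push_cast at h3
        exact h3
      have hb0 : (0 : ℝ) < b.card := by exact_mod_cast h0
      rw [div_le_div_iff₀ (by positivity) hb0, pow_succ, ← mul_assoc] at h2
      exact le_of_mul_le_mul_right h2 hb0
    have h3 : (b.card : ℝ) ^ k ≤ C ^ k * Real.exp ((2 * ((k + 1 : ℕ) : ℝ) - 1) * H) := by
      calc (b.card : ℝ) ^ k ≤ (C * Real.exp ((2 + 1 / (k + 1)) * H)) ^ k :=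
            pow_le_pow_left₀ (Nat.cast_nonneg _) hbc k
        _ = C ^ k * Real.exp (k * ((2 + 1 / (k + 1)) * H)) := by
            rw [mul_pow, ← Real.exp_nat_mul]
        _ ≤ _ := by
            refine mul_le_mul_of_nonneg_left ?_ (by positivity)
            apply Real.exp_le_exp.2
            rw [← mul_assoc]
            refine mul_le_mul_of_nonneg_right ?_ hH
            have h4 : (k : ℝ) * (1 / (k + 1)) ≤ 1 := by
              rw [mul_one_div, div_le_one (by positivity)]
              linarith
            push_cast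
            linarith
    calc (S.card : ℝ) ≤ _ := by exact_mod_cast hcard
      _ ≤ n.totalDegree * (b.card : ℝ) ^ k := h1
      _ ≤ (n.totalDegree + 1) * (C ^ k * Real.exp ((2 * ((k + 1 : ℕ) : ℝ) - 1) * H)) := by
          refine mul_le_mul (by linarith) h3 (by positivity) (by positivity)
      _ = _ := by ring

end Pool.Agent.N348.SU
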